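import Pool.Agent.W759.Stmts

/-!
# SQ-MEAS: L2 functions decay along the transfer operator of `z ↦ -1/(z+2k)` (task of helper759)
-/

set_option autoImplicit false

namespace Pool.Agent.W12.SqMeas

open Complex MeasureTheory Filter Topology Pool.Agent.W759
open scoped ENNReal

theorem two_k_norm {k : ℤ} (hk : k ≠ 0) : (2 : ℝ) ≤ ‖(2 * k : ℂ)‖ := by
  have h1 : (1 : ℝ) ≤ |(k : ℝ)| := by
    have h2 : (1 : ℤ) ≤ |k| := Int.one_le_abs hk
    exact_mod_cast h2
  rw [norm_mul, Complex.norm_intCast]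
  norm_num
  linarith

theorem one_lt_norm {z : ℂ} (hz : z ∈ U) {k : ℤ} (hk : k ≠ 0) : 1 < ‖z + 2 * k‖ := by
  have h1 := two_k_norm hk
  have h2 : ‖(2 * k : ℂ)‖ ≤ ‖z + 2 * k‖ + ‖z‖ := by
    calc ‖(2 * k : ℂ)‖ = ‖(z + 2 * k) - z‖ := by congr 1; ring
      _ ≤ _ := norm_sub_le _ _
  have h3 : ‖z‖ < 1 := hz.2
  linarith

theorem add_im (z : ℂ) (k : ℤ) : (z + 2 * k).im = z.im := by simp

theorem add_re (z : ℂ) (k : ℤ) : (z + 2 * k).re = z.re + 2 * k := by simp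

theorem sk_im (k : ℤ) (z : ℂ) : (sk k z).im = z.im / ‖z + 2 * k‖ ^ 2 := by
  unfold sk
  rw [Complex.neg_im, Complex.inv_im, add_im, Complex.normSq_eq_norm_sq]
  ring

theorem sk_re (k : ℤ) (z : ℂ) : (sk k z).re = -(z.re + 2 * k) / ‖z + 2 * k‖ ^ 2 := by
  unfold sk
  rw [Complex.neg_re, Complex.inv_re, add_re, Complex.normSq_eq_norm_sq]
  ring

theorem sk_norm (k : ℤ) (z : ℂ) : ‖sk k z‖ = ‖z + 2 * k‖⁻¹ := by
  unfold sk
  rw [norm_neg, norm_inv]

theorem sk_mem {z : ℂ} (hz : z ∈ U) {k : ℤ} (hk : k ≠ 0) : sk k z ∈ U := by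
  have h1 := one_lt_norm hz hk
  refine ⟨?_, ?_⟩
  · rw [sk_im]
    have : 0 < z.im := hz.1
    positivity
  · rw [sk_norm]
    exact inv_lt_one_of_one_lt₀ h1

theorem isOpen_U : IsOpen U := by
  have h1 : U = {z : ℂ | 0 < z.im} ∩ {z : ℂ | ‖z‖ < 1} := rfl
  rw [h1]
  exact (isOpen_lt continuous_const Complex.continuous_im).inter
    (isOpen_lt continuous_norm continuous_const)

theorem meas_U : MeasurableSet U := isOpen_U.measurableSet

theorem ne_zero_of {z : ℂ} (hz : z ∈ U) {k : ℤ} (hk : k ≠ 0) : z + 2 * k ≠ 0 := by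
  have h1 := one_lt_norm hz hk
  intro h
  rw [h, norm_zero] at h1
  linarith

theorem hasDeriv {z : ℂ} (hz : z ∈ U) {k : ℤ} (hk : k ≠ 0) :
    HasDerivAt (sk k) (1 / (z + 2 * k) ^ 2) z := by
  have h1 : HasDerivAt (fun z : ℂ => z + 2 * (k : ℂ)) 1 z := (hasDerivAt_id z).add_const _
  have h2 := (h1.inv (ne_zero_of hz hk)).neg
  have h3 : -(-1 / (z + 2 * (k : ℂ)) ^ 2) = 1 / (z + 2 * k) ^ 2 := by ring
  rw [h3] at h2
  exact h2

theorem det_smul_one (c : ℂ) : (c • (1 : ℂ →L[ℝ] ℂ)).det = ‖c‖ ^ 2 := by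
  have h1 : ((c • (1 : ℂ →L[ℝ] ℂ) : ℂ →L[ℝ] ℂ) : ℂ →ₗ[ℝ] ℂ) =
      (LinearMap.mulLeft ℂ c).restrictScalars ℝ := by
    ext
    simp
  rw [ContinuousLinearMap.det, h1, LinearMap.det_restrictScalars, Algebra.norm_complex_eq]
  simp [Complex.normSq_eq_norm_sq]

theorem inj_sk (k : ℤ) : Set.InjOn (sk k) U := by
  intro z _ w _ h
  unfold sk at h
  have h1 := inv_injective (neg_injective h)
  exact add_right_cancel h1

/-- the weight -/
noncomputable def wt (z : ℂ) : ℝ≥0∞ := ENNReal.ofReal ((z.im ^ 2)⁻¹)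

/-- the image -/
def V : Set ℂ := ⋃ k : Zs, sk k '' U

theorem meas_img (k : Zs) : MeasurableSet (sk k '' U) :=
  measurable_image_of_fderivWithin meas_U
    (fun _ hz => (hasDeriv hz k.2).complexToReal_fderiv.hasFDerivWithinAt) (inj_sk k)

theorem V_sub : V ⊆ U := by
  intro w hw
  obtain ⟨k, z, hz, rfl⟩ := Set.mem_iUnion.mp hw
  exact sk_mem hz k.2

theorem meas_V : MeasurableSet V := MeasurableSet.iUnion meas_img

theorem disj : Pairwise (Function.onFun Disjoint fun k : Zs => sk k '' U) := by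
  intro k l hkl
  rw [Function.onFun, Set.disjoint_left]
  rintro _ ⟨z, hz, rfl⟩ ⟨w, hw, h⟩
  unfold sk at h
  have h1 := inv_injective (neg_injective h)
  have h2 : (2 * ((k.1 - l.1 : ℤ) : ℂ)) = w - z := by
    push_cast
    linear_combination -h1
  have h3 := two_k_norm (k := k.1 - l.1) (fun h => hkl (Subtype.ext (by omega)))
  rw [h2] at h3
  have h4 := norm_sub_le w z
  have h5 : ‖z‖ < 1 := hz.2
  have h6 : ‖w‖ < 1 := hw.2
  linarith

theorem meas_sk (k : ℤ) : Measurable (sk k) := by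
  unfold sk
  exact ((measurable_id.add_const _).inv).neg

theorem meas_SS {F : ℂ → ℝ≥0∞} (hF : Measurable F) : Measurable (SS F) :=
  Measurable.tsum fun k => hF.comp (meas_sk k)

theorem meas_wt : Measurable wt :=
  ENNReal.measurable_ofReal.comp ((Complex.measurable_im.pow_const 2).inv)

theorem one_img (F : ℂ → ℝ≥0∞) (k : Zs) :
    ∫⁻ z in sk k '' U, F z * wt z = ∫⁻ z in U, F (sk k z) * wt z := by
  rw [lintegral_image_eq_lintegral_abs_det_fderiv_mul volume meas_U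
    (fun _ hz => (hasDeriv hz k.2).complexToReal_fderiv.hasFDerivWithinAt) (inj_sk k)]
  refine setLIntegral_congr_fun meas_U fun z hz => ?_
  have h0 := one_lt_norm hz k.2
  have hz1 : 0 < z.im := hz.1
  have h1 : ENNReal.ofReal |((1 / (z + 2 * (k.1 : ℂ)) ^ 2) • (1 : ℂ →L[ℝ] ℂ)).det| *
      wt (sk k z) = wt z := by
    rw [det_smul_one, abs_of_nonneg (by positivity), wt, wt, ← ENNReal.ofReal_mul (by positivity),
      sk_im, norm_div, norm_one, norm_pow]
    congr 1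
    have h2 : ‖z + 2 * (k.1 : ℂ)‖ ≠ 0 := by linarith
    field_simp
  rw [← h1]
  ring

/-- change of variables -/
theorem cv {F : ℂ → ℝ≥0∞} (hF : Measurable F) :
    ∫⁻ z in U, SS F z * wt z = ∫⁻ z in V, F z * wt z := by
  have h1 : ∫⁻ z in V, F z * wt z = ∑' k : Zs, ∫⁻ z in sk k '' U, F z * wt z :=
    lintegral_iUnion meas_img disj _
  rw [h1]
  simp only [one_img]
  have h2 := lintegral_tsum (μ := (volume : Measure ℂ).restrict U)
    (f := fun (k : Zs) (z : ℂ) => F (sk k z) * wt z)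
    (fun k => ((hF.comp (meas_sk k)).mul meas_wt).aemeasurable)
  rw [← h2]
  refine lintegral_congr fun z => ?_
  unfold SS
  rw [ENNReal.tsum_mul_right]

/-! ### the compact sets and the weight function -/

/-- the compact piece -/
def K (h ρ : ℝ) : Set ℂ := {z | h ≤ z.im ∧ ‖z‖ ≤ ρ}

theorem meas_K (h ρ : ℝ) : MeasurableSet (K h ρ) := by
  have h1 : K h ρ = {z : ℂ | h ≤ z.im} ∩ {z : ℂ | ‖z‖ ≤ ρ} := rfl
  rw [h1]
  exact ((isClosed_le continuous_const Complex.continuous_im).inter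
    (isClosed_le continuous_norm continuous_const)).measurableSet

/-- the Lyapunov function -/
noncomputable def b (h ρ : ℝ) (z : ℂ) : ℝ := (1 - ρ ^ 2)⁻¹ * (max z.im h)⁻¹

theorem b_nonneg {h ρ : ℝ} (hh : 0 < h) (hρ0 : 0 < ρ) (hρ : ρ < 1) (z : ℂ) : 0 ≤ b h ρ z := by
  unfold b
  have h1 : 0 < 1 - ρ ^ 2 := by nlinarith
  have h2 : 0 < max z.im h := lt_max_of_lt_right hh
  positivity

theorem b_ge_one {h ρ : ℝ} (hh : 0 < h) (hh1 : h < 1) (hρ0 : 0 < ρ) (hρ : ρ < 1) {z : ℂ}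
    (hz : z ∈ U) : 1 ≤ b h ρ z := by
  unfold b
  have h1 : 0 < 1 - ρ ^ 2 := by nlinarith
  have h2 : 0 < max z.im h := lt_max_of_lt_right hh
  have h3 : z.im < 1 := (le_trans (le_abs_self _) (Complex.abs_im_le_norm z)).trans_lt hz.2
  have h4 : max z.im h ≤ 1 := max_le h3.le hh1.le
  have h5 : 1 ≤ (1 - ρ ^ 2)⁻¹ := by
    rw [one_le_inv₀ h1]
    nlinarith
  have h6 : 1 ≤ (max z.im h)⁻¹ := by
    rw [one_le_inv₀ h2]
    exact h4
  nlinarith

theorem b_le {h ρ : ℝ} (hh : 0 < h) (hρ0 : 0 < ρ) (hρ : ρ < 1) (z : ℂ) :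
    b h ρ z ≤ (1 - ρ ^ 2)⁻¹ * h⁻¹ := by
  unfold b
  have h1 : 0 < 1 - ρ ^ 2 := by nlinarith
  have h2 : (max z.im h)⁻¹ ≤ h⁻¹ := inv_anti₀ hh (le_max_right _ _)
  exact mul_le_mul_of_nonneg_left h2 (by positivity)

open Classical in
theorem b_step {h ρ : ℝ} (hh : 0 < h) (hρ0 : 0 < ρ) (hρ : ρ < 1) {z : ℂ} (hz : z ∈ U)
    {k : ℤ} (hk : k ≠ 0) :
    b h ρ z + (if sk k z ∈ K h ρ then 1 else 0) ≤ b h ρ (sk k z) := by
  have h1 : 0 < 1 - ρ ^ 2 := by nlinarith
  have hz1 : 0 < z.im := hz.1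
  have h2 := one_lt_norm hz hk
  have h3 : z.im = (sk k z).im * ‖z + 2 * k‖ ^ 2 := by
    rw [sk_im]
    field_simp
  have h4 := sk_mem hz hk
  have h5 : 0 < (sk k z).im := h4.1
  have h6 : (sk k z).im < 1 := (le_trans (le_abs_self _) (Complex.abs_im_le_norm _)).trans_lt h4.2
  have h7 : (sk k z).im ≤ z.im := by
    rw [h3]
    have : 1 ≤ ‖z + 2 * k‖ ^ 2 := one_le_pow₀ h2.le
    exact le_mul_of_one_le_right h5.le this
  unfold b
  split_ifs with hK
  · obtain ⟨hK1, hK2⟩ := hK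
    rw [max_eq_left hK1]
    have h8 : (sk k z).im ≤ ρ ^ 2 * z.im := by
      rw [sk_norm] at hK2
      have h9 : 1 ≤ ρ * ‖z + 2 * k‖ := by
        rw [inv_le_iff_one_le_mul₀ (by linarith)] at hK2
        exact hK2
      have h10 : 1 ≤ (ρ * ‖z + 2 * k‖) ^ 2 := one_le_pow₀ h9
      rw [h3]
      nlinarith
    have h9 : (max z.im h)⁻¹ ≤ ρ ^ 2 * ((sk k z).im)⁻¹ := by
      have h10 : z.im⁻¹ ≤ ρ ^ 2 * ((sk k z).im)⁻¹ := by
        rw [inv_le_iff_one_le_mul₀ hz1, ← div_eq_mul_inv, div_mul_eq_mul_div, le_div_iff₀ h5]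
        linarith
      exact (inv_anti₀ hz1 (le_max_left _ _)).trans h10
    have h10 : 1 ≤ ((sk k z).im)⁻¹ := by
      rw [one_le_inv₀ h5]
      exact h6.le
    have h11 : (1 - ρ ^ 2)⁻¹ * (max z.im h)⁻¹ ≤ (1 - ρ ^ 2)⁻¹ * (ρ ^ 2 * ((sk k z).im)⁻¹) :=
      mul_le_mul_of_nonneg_left h9 (by positivity)
    have h12 : (1 - ρ ^ 2)⁻¹ * ((sk k z).im)⁻¹ - (1 - ρ ^ 2)⁻¹ * (ρ ^ 2 * ((sk k z).im)⁻¹) =
        ((sk k z).im)⁻¹ := by
      field_simp
    linarith
  · rw [add_zero]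
    refine mul_le_mul_of_nonneg_left ?_ (by positivity)
    exact inv_anti₀ (lt_max_of_lt_right hh) (max_le_max h7 le_rfl)

/-- the Lyapunov function, extended -/
noncomputable def BB (h ρ : ℝ) (z : ℂ) : ℝ≥0∞ := ENNReal.ofReal (b h ρ z)

theorem meas_BB (h ρ : ℝ) : Measurable (BB h ρ) := by
  unfold BB b
  exact ENNReal.measurable_ofReal.comp
    (((Complex.measurable_im.max measurable_const).inv).const_mul _)

theorem BB_step {h ρ : ℝ} (hh : 0 < h) (hρ0 : 0 < ρ) (hρ : ρ < 1) (F : ℂ → ℝ≥0∞) {z : ℂ}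
    (hz : z ∈ U) :
    BB h ρ z * SS F z + SS ((K h ρ).indicator F) z ≤ SS (fun w => BB h ρ w * F w) z := by
  classical
  unfold SS
  rw [← ENNReal.tsum_mul_left, ← ENNReal.tsum_add]
  refine ENNReal.tsum_le_tsum fun k => ?_
  have h1 := b_step hh hρ0 hρ hz k.2
  have h2 : BB h ρ z + (if sk k z ∈ K h ρ then 1 else 0) ≤ BB h ρ (sk k z) := by
    unfold BB
    have h3 : (if sk k z ∈ K h ρ then (1 : ℝ≥0∞) else 0) =
        ENNReal.ofReal (if sk k z ∈ K h ρ then 1 else 0) := by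
      split_ifs <;> simp
    rw [h3, ← ENNReal.ofReal_add (b_nonneg hh hρ0 hρ z) (by split_ifs <;> norm_num)]
    exact ENNReal.ofReal_le_ofReal h1
  have h3 : (K h ρ).indicator F (sk k z) = (if sk k z ∈ K h ρ then 1 else 0) * F (sk k z) := by
    rw [Set.indicator_apply]
    split_ifs <;> simp
  rw [h3, ← add_mul]
  exact mul_le_mul_left h2 _

theorem main_step {h ρ : ℝ} (hh : 0 < h) (hh1 : h < 1) (hρ0 : 0 < ρ) (hρ : ρ < 1)
    {F : ℂ → ℝ≥0∞} (hF : Measurable F) :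
    (∫⁻ z in U, (K h ρ).indicator F z * wt z) + ∫⁻ z in U, BB h ρ z * SS F z * wt z ≤
      ∫⁻ z in U, BB h ρ z * F z * wt z := by
  have mB := meas_BB h ρ
  have mI : Measurable ((K h ρ).indicator F) := hF.indicator (meas_K h ρ)
  have h1 : (∫⁻ z in U, BB h ρ z * SS F z * wt z) + ∫⁻ z in V, (K h ρ).indicator F z * wt z ≤
      ∫⁻ z in V, BB h ρ z * F z * wt z := by
    have e1 := lintegral_add_left (μ := (volume : Measure ℂ).restrict U)
      (f := fun z => BB h ρ z * SS F z * wt z) ((mB.mul (meas_SS hF)).mul meas_wt)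
      (fun z => SS ((K h ρ).indicator F) z * wt z)
    rw [← cv mI, ← cv (F := fun w => BB h ρ w * F w) (mB.mul hF), ← e1]
    refine setLIntegral_mono' meas_U fun z hz => ?_
    rw [← add_mul]
    exact mul_le_mul_left (BB_step hh hρ0 hρ F hz) _
  have h2 : ∀ G : ℂ → ℝ≥0∞, ∫⁻ z in U, G z * wt z =
      (∫⁻ z in V, G z * wt z) + ∫⁻ z in U \ V, G z * wt z := by
    intro G
    rw [← lintegral_inter_add_sdiff _ U meas_V, Set.inter_eq_right.mpr V_sub]
  have h3 : ∫⁻ z in U \ V, (K h ρ).indicator F z * wt z ≤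
      ∫⁻ z in U \ V, BB h ρ z * F z * wt z := by
    refine setLIntegral_mono' (meas_U.diff meas_V) fun z hz => ?_
    refine mul_le_mul_left ?_ _
    have h4 : (1 : ℝ≥0∞) ≤ BB h ρ z := by
      unfold BB
      rw [ENNReal.one_le_ofReal]
      exact b_ge_one hh hh1 hρ0 hρ hz.1
    calc (K h ρ).indicator F z ≤ F z := Set.indicator_le_self' (fun _ _ => zero_le) z
      _ = 1 * F z := (one_mul _).symm
      _ ≤ BB h ρ z * F z := mul_le_mul_left h4 _
  rw [h2 ((K h ρ).indicator F), h2 (fun z => BB h ρ z * F z)]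
  calc _ = ((∫⁻ z in U, BB h ρ z * SS F z * wt z) + ∫⁻ z in V, (K h ρ).indicator F z * wt z) +
        ∫⁻ z in U \ V, (K h ρ).indicator F z * wt z := by ring
    _ ≤ _ := add_le_add h1 h3

theorem meas_iter {F : ℂ → ℝ≥0∞} (hF : Measurable F) (m : ℕ) : Measurable (SS^[m] F) := by
  induction m with
  | zero => exact hF
  | succ m ih =>
    rw [Function.iterate_succ_apply']
    exact meas_SS ih

theorem sum_le {h ρ : ℝ} (hh : 0 < h) (hh1 : h < 1) (hρ0 : 0 < ρ) (hρ : ρ < 1)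
    {F : ℂ → ℝ≥0∞} (hF : Measurable F) (M : ℕ) :
    (∑ m ∈ Finset.range M, ∫⁻ z in U, (K h ρ).indicator (SS^[m] F) z * wt z) +
      ∫⁻ z in U, BB h ρ z * (SS^[M] F) z * wt z ≤ ∫⁻ z in U, BB h ρ z * F z * wt z := by
  induction M with
  | zero => simp
  | succ M ih =>
    rw [Finset.sum_range_succ, Function.iterate_succ_apply']
    have h1 := main_step hh hh1 hρ0 hρ (meas_iter hF M)
    rw [add_assoc]
    exact (add_le_add le_rfl h1).trans ih

theorem tendsto_zero {h ρ : ℝ} (hh : 0 < h) (hh1 : h < 1) (hρ0 : 0 < ρ) (hρ : ρ < 1)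
    {F : ℂ → ℝ≥0∞} (hF : Measurable F) (hfin : ∫⁻ z in U, F z * wt z < ∞) :
    Tendsto (fun m => ∫⁻ z in U, (K h ρ).indicator (SS^[m] F) z * wt z) atTop (𝓝 0) := by
  refine ENNReal.tendsto_atTop_zero_of_tsum_ne_top ?_
  have h1 : ∫⁻ z in U, BB h ρ z * F z * wt z ≤
      ENNReal.ofReal ((1 - ρ ^ 2)⁻¹ * h⁻¹) * ∫⁻ z in U, F z * wt z := by
    have e1 := lintegral_const_mul (μ := (volume : Measure ℂ).restrict U)
      (ENNReal.ofReal ((1 - ρ ^ 2)⁻¹ * h⁻¹)) (f := fun z => F z * wt z) (hF.mul meas_wt)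
    rw [← e1]
    refine lintegral_mono fun z => ?_
    rw [← mul_assoc]
    refine mul_le_mul_left (mul_le_mul_left ?_ _) _
    exact ENNReal.ofReal_le_ofReal (b_le hh hρ0 hρ z)
  have h2 : ∑' m, ∫⁻ z in U, (K h ρ).indicator (SS^[m] F) z * wt z ≤
      ENNReal.ofReal ((1 - ρ ^ 2)⁻¹ * h⁻¹) * ∫⁻ z in U, F z * wt z := by
    refine ENNReal.tsum_le_of_sum_range_le fun n => ?_
    exact (le_self_add.trans (sum_le hh hh1 hρ0 hρ hF n)).trans h1
  exact (h2.trans_lt (ENNReal.mul_lt_top ENNReal.ofReal_lt_top hfin)).ne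

/-! ### the bound of the iterates of `Im z` -/

/-- a function that is not increased by the transfer operator -/
noncomputable def H (z : ℂ) : ℝ≥0∞ := ENNReal.ofReal (z.im / (1 - z.re ^ 2))

theorem tsum_Zs (G : ℤ → ℝ≥0∞) :
    ∑' k : Zs, G k = (∑' n : ℕ, G (n + 1)) + ∑' n : ℕ, G (-(n + 1)) := by
  have h1 : ∑' k : Zs, G k = ∑' k : ℤ, ({k : ℤ | k ≠ 0} : Set ℤ).indicator G k :=
    tsum_subtype {k : ℤ | k ≠ 0} G
  rw [h1, tsum_of_add_one_of_neg_add_one ENNReal.summable ENNReal.summable]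
  have h2 : ({k : ℤ | k ≠ 0} : Set ℤ).indicator G 0 = 0 := by
    rw [Set.indicator_apply, if_neg]
    simp
  rw [h2, add_zero]
  congr 1
  · refine tsum_congr fun n => ?_
    rw [Set.indicator_apply, if_pos]
    show (n : ℤ) + 1 ≠ 0
    omega
  · refine tsum_congr fun n => ?_
    rw [Set.indicator_apply, if_pos]
    show -((n : ℤ) + 1) ≠ 0
    omega

theorem telescope {f : ℕ → ℝ} (h0 : ∀ n, 0 ≤ f n) (h1 : ∀ n, f (n + 1) ≤ f n) :
    ∑' n : ℕ, ENNReal.ofReal (f n - f (n + 1)) ≤ ENNReal.ofReal (f 0) := by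
  refine ENNReal.tsum_le_of_sum_range_le fun n => ?_
  rw [← ENNReal.ofReal_sum_of_nonneg fun i _ => sub_nonneg.mpr (h1 i), Finset.sum_range_sub']
  exact ENNReal.ofReal_le_ofReal (by linarith [h0 n])

theorem re_lt {z : ℂ} (hz : z ∈ U) : |z.re| < 1 := (Complex.abs_re_le_norm z).trans_lt hz.2

theorem H_sk {z : ℂ} (hz : z ∈ U) {k : ℤ} (hk : k ≠ 0) :
    H (sk k z) ≤ ENNReal.ofReal (z.im / ((z.re + 2 * k) ^ 2 - 1)) := by
  unfold H
  refine ENNReal.ofReal_le_ofReal ?_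
  have hy : 0 < z.im := hz.1
  have hx := re_lt hz
  have hk1 : (1 : ℝ) ≤ |(k : ℝ)| := by
    have h2 : (1 : ℤ) ≤ |k| := Int.one_le_abs hk
    exact_mod_cast h2
  obtain ⟨u, hu⟩ : ∃ u : ℝ, u = z.re + 2 * k := ⟨_, rfl⟩
  have hu1 : 1 < u ^ 2 := by
    have h3 : 1 < |u| := by
      have h4 : |2 * (k : ℝ)| ≤ |u| + |z.re| := by
        have : 2 * (k : ℝ) = u - z.re := by rw [hu]; ring
        rw [this]
        exact abs_sub _ _
      rw [abs_mul, abs_of_pos (by norm_num : (0 : ℝ) < 2)] at h4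
      linarith
    rw [← sq_abs]
    exact one_lt_pow₀ h3 (by norm_num)
  have hs : ‖z + 2 * k‖ ^ 2 = u ^ 2 + z.im ^ 2 := by
    rw [← Complex.normSq_eq_norm_sq, Complex.normSq_apply, add_re, add_im, ← hu]
    ring
  rw [sk_im, sk_re, hs, ← hu]
  obtain ⟨s, hs'⟩ : ∃ s : ℝ, s = u ^ 2 + z.im ^ 2 := ⟨_, rfl⟩
  rw [← hs']
  have hsu : u ^ 2 ≤ s := by rw [hs']; nlinarith [sq_nonneg z.im]
  have hs1 : 1 < s := by linarith
  have h5 : 0 < s ^ 2 - u ^ 2 := by nlinarith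
  have h6 : z.im / s / (1 - (-u / s) ^ 2) = z.im * (s / (s ^ 2 - u ^ 2)) := by
    have h7 : s ≠ 0 := by linarith
    have h8 : 1 - (-u / s) ^ 2 = (s ^ 2 - u ^ 2) / s ^ 2 := by
      field_simp
    rw [h8]
    field_simp
  have h7 : s / (s ^ 2 - u ^ 2) ≤ 1 / (u ^ 2 - 1) := by
    rw [div_le_div_iff₀ h5 (by linarith)]
    nlinarith [mul_nonneg (by linarith : 0 ≤ s + 1) (by linarith : 0 ≤ s - u ^ 2)]
  rw [h6]
  calc z.im * (s / (s ^ 2 - u ^ 2)) ≤ z.im * (1 / (u ^ 2 - 1)) :=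
        mul_le_mul_of_nonneg_left h7 hy.le
    _ = z.im / (u ^ 2 - 1) := by ring

theorem H_half {x y : ℝ} (hx : |x| < 1) (hy : 0 < y) :
    ∑' n : ℕ, ENNReal.ofReal (y / ((x + 2 * (n + 1)) ^ 2 - 1)) ≤
      ENNReal.ofReal (y / 2 / (x + 1)) := by
  rw [abs_lt] at hx
  have h1 := telescope (f := fun n : ℕ => y / 2 / (x + 2 * n + 1))
    (fun n => by
      have h2 : 0 < x + 2 * (n : ℝ) + 1 := by
        have : (0 : ℝ) ≤ n := Nat.cast_nonneg n
        linarith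
      positivity)
    (fun n => by
      have h2 : 0 < x + 2 * (n : ℝ) + 1 := by
        have : (0 : ℝ) ≤ n := Nat.cast_nonneg n
        linarith
      refine div_le_div_of_nonneg_left (by positivity) h2 ?_
      push_cast
      linarith)
  have h3 : ∀ n : ℕ, y / 2 / (x + 2 * (n : ℝ) + 1) - y / 2 / (x + 2 * ((n + 1 : ℕ) : ℝ) + 1) =
      y / ((x + 2 * (n + 1)) ^ 2 - 1) := by
    intro n
    have h2 : 0 < x + 2 * (n : ℝ) + 1 := by
      have : (0 : ℝ) ≤ n := Nat.cast_nonneg n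
      linarith
    have h4 : 0 < x + 2 * (n : ℝ) + 3 := by linarith
    have h5 : (x + 2 * ((n : ℝ) + 1)) ^ 2 - 1 = (x + 2 * n + 1) * (x + 2 * n + 3) := by ring
    have h6 : x + 2 * ((n + 1 : ℕ) : ℝ) + 1 = x + 2 * n + 3 := by push_cast; ring
    rw [h5, h6]
    field_simp
    ring
  simp only [h3] at h1
  simpa using h1

theorem H_step {z : ℂ} (hz : z ∈ U) : SS H z ≤ H z := by
  have hy : 0 < z.im := hz.1
  have hx := re_lt hz
  have hx' : |-z.re| < 1 := by rwa [abs_neg]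
  have h1 : SS H z ≤ ∑' k : Zs, ENNReal.ofReal (z.im / ((z.re + 2 * (k.1 : ℝ)) ^ 2 - 1)) :=
    ENNReal.tsum_le_tsum fun k => H_sk hz k.2
  refine h1.trans ?_
  rw [tsum_Zs fun k => ENNReal.ofReal (z.im / ((z.re + 2 * (k : ℝ)) ^ 2 - 1))]
  have h2 := H_half hx hy
  have h3 := H_half hx' hy
  have h4 : ∀ n : ℕ, (z.re + 2 * (((-((n : ℤ) + 1) : ℤ)) : ℝ)) ^ 2 - 1 =
      (-z.re + 2 * ((n : ℝ) + 1)) ^ 2 - 1 := by
    intro n
    push_cast
    ring
  have h5 : ∀ n : ℕ, (z.re + 2 * ((((n : ℤ) + 1 : ℤ)) : ℝ)) ^ 2 - 1 =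
      (z.re + 2 * ((n : ℝ) + 1)) ^ 2 - 1 := by
    intro n
    push_cast
    ring
  simp only [h4, h5]
  refine (add_le_add h2 h3).trans ?_
  rw [abs_lt] at hx
  have h6 : 0 < z.re + 1 := by linarith
  have h7 : 0 < -z.re + 1 := by linarith
  rw [← ENNReal.ofReal_add (by positivity) (by positivity)]
  unfold H
  refine ENNReal.ofReal_le_ofReal (le_of_eq ?_)
  have h8 : 1 - z.re ^ 2 = (z.re + 1) * (-z.re + 1) := by ring
  rw [h8]
  field_simp
  ring

/-- the imaginary part -/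
noncomputable def Y (z : ℂ) : ℝ≥0∞ := ENNReal.ofReal z.im

theorem iterY (m : ℕ) : ∀ z ∈ U, (SS^[m] Y) z ≤ H z := by
  induction m with
  | zero =>
    intro z hz
    have hy : 0 < z.im := hz.1
    have hx := re_lt hz
    have h1 : z.re ^ 2 < 1 := by
      rw [← sq_abs]
      exact pow_lt_one₀ (abs_nonneg _) hx (by norm_num)
    refine ENNReal.ofReal_le_ofReal ?_
    rw [le_div_iff₀ (by linarith)]
    nlinarith [sq_nonneg z.re]
  | succ m ih =>
    intro z hz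
    rw [Function.iterate_succ_apply']
    exact (ENNReal.tsum_le_tsum fun k => ih _ (sk_mem hz k.2)).trans (H_step hz)

theorem iter_le {f g g' : ℂ → ℝ≥0∞} {a a' : ℝ≥0∞} (h : ∀ z ∈ U, f z ≤ a * g z + a' * g' z)
    (m : ℕ) : ∀ z ∈ U, (SS^[m] f) z ≤ a * (SS^[m] g) z + a' * (SS^[m] g') z := by
  induction m with
  | zero => exact h
  | succ m ih =>
    intro z hz
    rw [Function.iterate_succ_apply', Function.iterate_succ_apply', Function.iterate_succ_apply']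
    unfold SS
    rw [← ENNReal.tsum_mul_left, ← ENNReal.tsum_mul_left, ← ENNReal.tsum_add]
    exact ENNReal.tsum_le_tsum fun k => ih _ (sk_mem hz k.2)

theorem amgm (n : ℝ≥0∞) {y : ℝ} (hy : 0 < y) {c : ℝ≥0∞} (hc : c ≠ 0) (hc' : c ≠ ∞) :
    n ≤ c * (n ^ 2 / ENNReal.ofReal y) + c⁻¹ * ENNReal.ofReal y := by
  have hY : ENNReal.ofReal y ≠ 0 := by
    rw [Ne, ENNReal.ofReal_eq_zero]
    linarith
  rcases le_or_gt n (c⁻¹ * ENNReal.ofReal y) with h | h
  · exact h.trans le_add_self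
  · refine le_trans ?_ le_self_add
    have h1 : ENNReal.ofReal y ≤ c * n := by
      calc ENNReal.ofReal y = c * (c⁻¹ * ENNReal.ofReal y) := by
            rw [← mul_assoc, ENNReal.mul_inv_cancel hc hc', one_mul]
        _ ≤ c * n := mul_le_mul_right h.le _
    have h2 : 1 ≤ c * n / ENNReal.ofReal y := by
      rw [← ENNReal.div_self hY ENNReal.ofReal_ne_top]
      exact ENNReal.div_le_div_right h1 _
    calc n = 1 * n := (one_mul n).symm
      _ ≤ c * n / ENNReal.ofReal y * n := mul_le_mul_left h2 _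
      _ = c * (n ^ 2 / ENNReal.ofReal y) := by
        rw [div_eq_mul_inv, div_eq_mul_inv]
        ring

theorem CK_lt {h ρ : ℝ} (hh : 0 < h) (hρ0 : 0 < ρ) (hρ : ρ < 1) :
    ∫⁻ z in U, (K h ρ).indicator H z * wt z < ∞ := by
  classical
  have h1 : ∫⁻ z in U, (K h ρ).indicator H z * wt z ≤
      ∫⁻ _ in U, ENNReal.ofReal ((1 - ρ ^ 2)⁻¹ * h⁻¹) := by
    refine setLIntegral_mono' meas_U fun z hz => ?_
    rw [Set.indicator_apply]
    split_ifs with hK
    · unfold H wt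
      rw [← ENNReal.ofReal_mul']
      · refine ENNReal.ofReal_le_ofReal ?_
        have h2 : z.re ^ 2 ≤ ρ ^ 2 := by
          rw [← sq_abs z.re]
          exact pow_le_pow_left₀ (abs_nonneg _) ((Complex.abs_re_le_norm z).trans hK.2) 2
        have h3 : 0 < 1 - ρ ^ 2 := by nlinarith
        have h4 : h ≤ z.im := hK.1
        have h5 : z.im / (1 - z.re ^ 2) * (z.im ^ 2)⁻¹ = (1 - z.re ^ 2)⁻¹ * z.im⁻¹ := by
          have h6 : z.im ≠ 0 := by linarith
          have h7 : 1 - z.re ^ 2 ≠ 0 := by nlinarith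
          field_simp
        rw [h5]
        exact mul_le_mul (inv_anti₀ h3 (by linarith)) (inv_anti₀ hh h4)
          (by have : 0 < z.im := by linarith
              positivity) (by positivity)
      · positivity
    · simp
  refine h1.trans_lt ?_
  rw [setLIntegral_const]
  refine ENNReal.mul_lt_top ENNReal.ofReal_lt_top ?_
  have h2 : U ⊆ Metric.ball 0 1 := by
    intro z hz
    rw [mem_ball_zero_iff]
    exact hz.2
  exact (measure_mono h2).trans_lt measure_ball_lt_top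

theorem wt_ge {z : ℂ} (hz : z ∈ U) : 1 ≤ wt z := by
  unfold wt
  rw [ENNReal.one_le_ofReal, one_le_inv₀ (by have : 0 < z.im := hz.1; positivity)]
  have h3 : z.im < 1 := (le_trans (le_abs_self _) (Complex.abs_im_le_norm z)).trans_lt hz.2
  exact pow_le_one₀ (le_of_lt hz.1) h3.le

theorem piece {N0 : ℂ → ℝ≥0∞} (hN : Measurable N0)
    (hfin : ∫⁻ z in U, N0 z ^ 2 * ENNReal.ofReal (z.im ^ (-3 : ℝ)) < ∞)
    {h ρ : ℝ} (hh : 0 < h) (hh1 : h < 1) (hρ0 : 0 < ρ) (hρ : ρ < 1) :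
    ∀ᵐ z ∂((volume : Measure ℂ).restrict U), z ∈ K h ρ →
      liminf (fun m : ℕ => (SS^[m] N0) z) atTop = 0 := by
  classical
  obtain ⟨F, hF⟩ : ∃ F : ℂ → ℝ≥0∞, F = fun z => N0 z ^ 2 / ENNReal.ofReal z.im := ⟨_, rfl⟩
  have mF : Measurable F := by
    rw [hF]
    exact (hN.pow_const 2).div (ENNReal.measurable_ofReal.comp Complex.measurable_im)
  have hFfin : ∫⁻ z in U, F z * wt z < ∞ := by
    have h1 : ∫⁻ z in U, F z * wt z =
        ∫⁻ z in U, N0 z ^ 2 * ENNReal.ofReal (z.im ^ (-3 : ℝ)) := by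
      refine setLIntegral_congr_fun meas_U fun z hz => ?_
      have hy : 0 < z.im := hz.1
      rw [hF, wt]
      simp only
      rw [div_eq_mul_inv, ← ENNReal.ofReal_inv_of_pos hy, mul_assoc,
        ← ENNReal.ofReal_mul (by positivity)]
      congr 2
      have h2 : z.im ^ (-3 : ℝ) = (z.im ^ 3)⁻¹ := by
        rw [Real.rpow_neg hy.le]
        norm_cast
      rw [h2]
      field_simp
    rw [h1]
    exact hfin
  have hT := tendsto_zero hh hh1 hρ0 hρ mF hFfin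
  have hC := CK_lt hh hρ0 hρ
  obtain ⟨C, hCe⟩ : ∃ C : ℝ≥0∞, C = ∫⁻ z in U, (K h ρ).indicator H z * wt z := ⟨_, rfl⟩
  rw [← hCe] at hC
  have hb : ∀ (c : ℝ≥0∞), c ≠ 0 → c ≠ ∞ → ∀ m : ℕ,
      ∫⁻ z in U, (K h ρ).indicator (SS^[m] N0) z * wt z ≤
      c * (∫⁻ z in U, (K h ρ).indicator (SS^[m] F) z * wt z) + c⁻¹ * C := by
    intro c hc hc' m
    have e1 := lintegral_const_mul (μ := (volume : Measure ℂ).restrict U) c
      (f := fun z => (K h ρ).indicator (SS^[m] F) z * wt z)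
      (((meas_iter mF m).indicator (meas_K h ρ)).mul meas_wt)
    have e2 := lintegral_const_mul' (μ := (volume : Measure ℂ).restrict U) c⁻¹
      (fun z => (K h ρ).indicator H z * wt z) (ENNReal.inv_ne_top.mpr hc)
    have e3 := lintegral_add_left (μ := (volume : Measure ℂ).restrict U)
      (f := fun z => c * ((K h ρ).indicator (SS^[m] F) z * wt z))
      ((((meas_iter mF m).indicator (meas_K h ρ)).mul meas_wt).const_mul c)
      (fun z => c⁻¹ * ((K h ρ).indicator H z * wt z))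
    rw [hCe, ← e1, ← e2, ← e3]
    refine setLIntegral_mono' meas_U fun z hz => ?_
    rw [← mul_assoc, ← mul_assoc, ← add_mul]
    refine mul_le_mul_left ?_ _
    rw [Set.indicator_apply, Set.indicator_apply, Set.indicator_apply]
    split_ifs with hK
    · have h2 := iter_le (f := N0) (g := F) (g' := Y) (a := c) (a' := c⁻¹)
        (fun w hw => by
          rw [hF]
          exact amgm (N0 w) hw.1 hc hc') m z hz
      exact h2.trans (add_le_add le_rfl (mul_le_mul_right (iterY m z hz) _))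
    · simp
  have hlim : liminf (fun m : ℕ => ∫⁻ z in U, (K h ρ).indicator (SS^[m] N0) z * wt z) atTop = 0 := by
    have h1 : ∀ n : ℕ, liminf (fun m : ℕ => ∫⁻ z in U, (K h ρ).indicator (SS^[m] N0) z * wt z)
        atTop ≤ ((n : ℝ≥0∞) + 1)⁻¹ * C := by
      intro n
      have hc : (n : ℝ≥0∞) + 1 ≠ 0 := by simp
      have hc' : (n : ℝ≥0∞) + 1 ≠ ∞ := by finiteness
      have h2 : Tendsto (fun m : ℕ => ((n : ℝ≥0∞) + 1) *
          (∫⁻ z in U, (K h ρ).indicator (SS^[m] F) z * wt z) + ((n : ℝ≥0∞) + 1)⁻¹ * C) atTop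
          (𝓝 (((n : ℝ≥0∞) + 1) * 0 + ((n : ℝ≥0∞) + 1)⁻¹ * C)) :=
        (ENNReal.Tendsto.const_mul hT (Or.inr hc')).add tendsto_const_nhds
      rw [mul_zero, zero_add] at h2
      rw [← h2.liminf_eq]
      exact liminf_le_liminf (Eventually.of_forall fun m => hb _ hc hc' m)
    have h2 : Tendsto (fun n : ℕ => ((n : ℝ≥0∞) + 1)⁻¹ * C) atTop (𝓝 (0 * C)) := by
      refine ENNReal.Tendsto.mul_const ?_ (Or.inr hC.ne)
      have h3 := ENNReal.tendsto_inv_nat_nhds_zero.comp (tendsto_add_atTop_nat 1)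
      refine h3.congr fun n => ?_
      simp
    rw [zero_mul] at h2
    exact le_antisymm (ge_of_tendsto' h2 h1) bot_le
  have hle : ∀ m : ℕ, ∫⁻ z in K h ρ, (SS^[m] N0) z ∂((volume : Measure ℂ).restrict U) ≤
      ∫⁻ z in U, (K h ρ).indicator (SS^[m] N0) z * wt z := by
    intro m
    rw [← lintegral_indicator (meas_K h ρ)]
    refine setLIntegral_mono' meas_U fun z hz => ?_
    exact le_mul_of_one_le_right' (wt_ge hz)
  have hfat : ∫⁻ z in K h ρ, liminf (fun m : ℕ => (SS^[m] N0) z) atTop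
      ∂((volume : Measure ℂ).restrict U) = 0 := by
    refine le_antisymm ?_ bot_le
    calc _ ≤ liminf (fun m : ℕ => ∫⁻ z in K h ρ, (SS^[m] N0) z
          ∂((volume : Measure ℂ).restrict U)) atTop :=
          lintegral_liminf_le fun m => meas_iter hN m
      _ ≤ liminf (fun m : ℕ => ∫⁻ z in U, (K h ρ).indicator (SS^[m] N0) z * wt z) atTop :=
          liminf_le_liminf (Eventually.of_forall hle)
      _ = 0 := hlim
  rw [lintegral_eq_zero_iff (Measurable.liminf fun m => meas_iter hN m)] at hfat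
  rw [← ae_restrict_iff' (meas_K h ρ)]
  filter_upwards [hfat] with z hz
  exact hz

theorem main : StMeas := by
  intro N0 hN hfin
  have h1 : ∀ᵐ z ∂((volume : Measure ℂ).restrict U), ∀ n : ℕ,
      z ∈ K (1 / ((n : ℝ) + 2)) (1 - 1 / ((n : ℝ) + 2)) →
      liminf (fun m : ℕ => (SS^[m] N0) z) atTop = 0 := by
    rw [ae_all_iff]
    intro n
    have h2 : (0 : ℝ) < 1 / ((n : ℝ) + 2) := by positivity
    have h3 : 1 / ((n : ℝ) + 2) < 1 := by
      rw [div_lt_one (by positivity)]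
      have : (0 : ℝ) ≤ n := Nat.cast_nonneg n
      linarith
    exact piece hN hfin h2 h3 (by linarith) (by linarith)
  filter_upwards [h1, ae_restrict_mem meas_U] with z hz hzU
  have hy : 0 < z.im := hzU.1
  have hn : ‖z‖ < 1 := hzU.2
  obtain ⟨n, hn'⟩ := exists_nat_one_div_lt (lt_min hy (sub_pos.mpr hn))
  refine hz n ⟨?_, ?_⟩
  · have h2 : 1 / ((n : ℝ) + 2) ≤ 1 / ((n : ℝ) + 1) :=
      one_div_le_one_div_of_le (by positivity) (by linarith)
    exact h2.trans (hn'.le.trans (min_le_left _ _))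
  · have h2 : 1 / ((n : ℝ) + 2) ≤ 1 / ((n : ℝ) + 1) :=
      one_div_le_one_div_of_le (by positivity) (by linarith)
    have h3 := h2.trans (hn'.le.trans (min_le_right _ _))
    linarith

end Pool.Agent.W12.SqMeas
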