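import Pool.Agent.W692.TB.Stms

/-!
General Banach space lemmas for the project TB: extension by density, basic sequences, small
perturbations.
-/

open scoped BigOperators Topology ENNReal
open Filter Set MeasureTheory

namespace Pool.Agent.W12.TBGen

open Pool.Agent.W692.TB

theorem sum_eq_lc {V : Type*} [AddCommGroup V] [Module ℝ V] (e : ℕ → V) (f : ℕ →₀ ℝ) :
    ∃ K : ℕ, ∀ n, K ≤ n → Finsupp.linearCombination ℝ e f = ∑ k ∈ Finset.range n, f k • e k := by
  refine ⟨f.support.sup id + 1, fun n hn => ?_⟩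
  rw [Finsupp.linearCombination_apply, Finsupp.sum]
  refine Finset.sum_subset ?_ ?_
  · intro i hi
    have : i ≤ f.support.sup id := Finset.le_sup (f := id) hi
    exact Finset.mem_range.2 (by omega)
  · intro i _ hi
    rw [Finsupp.notMem_support_iff.1 hi, zero_smul]

theorem ext : S_ext := by
  intro V W _ _ _ _ _ e g c C hc hC hd hb
  set Le := Finsupp.linearCombination ℝ e with hLe
  set Lg := Finsupp.linearCombination ℝ g with hLg
  have hbd : ∀ f : ℕ →₀ ℝ, c * ‖Le f‖ ≤ ‖Lg f‖ ∧ ‖Lg f‖ ≤ C * ‖Le f‖ := by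
    intro f
    obtain ⟨K1, h1⟩ := sum_eq_lc e f
    obtain ⟨K2, h2⟩ := sum_eq_lc g f
    rw [hLe, hLg, h1 (max K1 K2) (le_max_left _ _), h2 (max K1 K2) (le_max_right _ _)]
    exact hb _ _
  obtain ⟨s, hs⟩ := LinearMap.exists_rightInverse_of_surjective Le.rangeRestrict
    (LinearMap.range_rangeRestrict Le)
  have hs' : ∀ x : LinearMap.range Le, Le (s x) = x := by
    intro x
    have := congrArg (fun F => (F x : V)) hs
    simpa using this
  let T0 : LinearMap.range Le →ₗ[ℝ] W := Lg ∘ₗ s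
  have hT0 : ∀ x, ‖T0 x‖ ≤ C * ‖x‖ := by
    intro x
    have := (hbd (s x)).2
    rw [hs'] at this
    exact this
  let T1 : LinearMap.range Le →L[ℝ] W := T0.mkContinuous C hT0
  have hrange : (LinearMap.range Le : Submodule ℝ V) = Submodule.span ℝ (Set.range e) :=
    Finsupp.range_linearCombination ℝ
  have hdense : DenseRange (LinearMap.range Le).subtypeL := by
    intro x
    have hx : x ∈ (Submodule.span ℝ (Set.range e)).topologicalClosure := by
      rw [hd]; trivial
    rw [← hrange] at hx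
    have h2 : x ∈ closure ((LinearMap.range Le : Submodule ℝ V) : Set V) := hx
    have h3 : Set.range (LinearMap.range Le).subtypeL = ((LinearMap.range Le : Submodule ℝ V) : Set V) := by
      ext y; simp
    rw [h3]
    exact h2
  have hui : IsUniformInducing (LinearMap.range Le).subtypeL := isUniformEmbedding_subtype_val.isUniformInducing
  let T : V →L[ℝ] W := T1.extend (LinearMap.range Le).subtypeL
  have hT : ∀ x : LinearMap.range Le, T x = T1 x := fun x =>
    ContinuousLinearMap.extend_eq T1 hdense hui x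
  have key : ∀ f : ℕ →₀ ℝ, T (Le f) = Lg f := by
    intro f
    have h1 := hT ⟨Le f, ⟨f, rfl⟩⟩
    have h2 : T1 ⟨Le f, ⟨f, rfl⟩⟩ = Lg (s ⟨Le f, ⟨f, rfl⟩⟩) := rfl
    have h3 : Le (s ⟨Le f, ⟨f, rfl⟩⟩ - f) = 0 := by
      rw [map_sub, hs', sub_self]
    have h4 := (hbd (s ⟨Le f, ⟨f, rfl⟩⟩ - f)).2
    rw [h3, norm_zero, mul_zero] at h4
    have h5 : Lg (s ⟨Le f, ⟨f, rfl⟩⟩ - f) = 0 := norm_le_zero_iff.1 h4
    rw [map_sub, sub_eq_zero] at h5
    have h6 : T (Le f) = T1 ⟨Le f, ⟨f, rfl⟩⟩ := h1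
    rw [h6, h2, h5]
  refine ⟨T, ?_, ?_, ?_⟩
  · intro k
    have := key (Finsupp.single k 1)
    simpa [hLe, hLg] using this
  · intro x
    refine hdense.induction_on (p := fun x => c * ‖x‖ ≤ ‖T x‖) x ?_ ?_
    · exact isClosed_le (continuous_const.mul continuous_norm) (continuous_norm.comp T.continuous)
    · rintro ⟨_, f, rfl⟩
      have := (hbd f).1
      have h2 := key f
      simpa [h2] using this
  · intro x
    refine hdense.induction_on
      (p := fun x => T x ∈ (Submodule.span ℝ (Set.range g)).topologicalClosure) x ?_ ?_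
    · exact (Submodule.isClosed_topologicalClosure _).preimage T.continuous
    · rintro ⟨_, f, rfl⟩
      have h2 := key f
      have h3 : Lg f ∈ Submodule.span ℝ (Set.range g) := by
        rw [← Finsupp.range_linearCombination ℝ]; exact ⟨f, rfl⟩
      have h4 : T ((LinearMap.range Le).subtypeL ⟨Le f, ⟨f, rfl⟩⟩) = Lg f := h2
      rw [h4]
      exact Submodule.le_topologicalClosure _ h3

theorem pert : S_pert := by
  intro V _ _ x y L θ hL hxy hθ hc c n
  have h1 : ‖∑ i ∈ Finset.range n, c i • y i - ∑ i ∈ Finset.range n, c i • x i‖ ≤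
      1 / 2 * ‖∑ i ∈ Finset.range n, c i • x i‖ := by
    rw [← Finset.sum_sub_distrib]
    calc ‖∑ i ∈ Finset.range n, (c i • y i - c i • x i)‖
        ≤ ∑ i ∈ Finset.range n, ‖c i • y i - c i • x i‖ := norm_sum_le _ _
      _ ≤ ∑ i ∈ Finset.range n, (L * ‖∑ i ∈ Finset.range n, c i • x i‖) * θ i := by
          refine Finset.sum_le_sum fun i hi => ?_
          rw [← smul_sub, norm_smul, Real.norm_eq_abs]
          exact mul_le_mul (hc c n i (Finset.mem_range.1 hi)) (hxy i) (norm_nonneg _)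
            (mul_nonneg hL (norm_nonneg _))
      _ = (L * ∑ i ∈ Finset.range n, θ i) * ‖∑ i ∈ Finset.range n, c i • x i‖ := by
          rw [← Finset.mul_sum]; ring
      _ ≤ 1 / 2 * ‖∑ i ∈ Finset.range n, c i • x i‖ :=
          mul_le_mul_of_nonneg_right (hθ n) (norm_nonneg _)
  have h2 := norm_sub_norm_le (∑ i ∈ Finset.range n, c i • x i) (∑ i ∈ Finset.range n, c i • y i)
  have h3 := norm_sub_norm_le (∑ i ∈ Finset.range n, c i • y i) (∑ i ∈ Finset.range n, c i • x i)
  rw [norm_sub_rev] at h2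
  constructor <;> linarith

theorem basic : S_basic := by
  intro V _ _ _ x K hx hK z hz
  -- partial sums
  set P : (ℕ → ℝ) → ℕ → V := fun a n => ∑ i ∈ Finset.range n, a i • x i with hP
  have hPsub : ∀ a b n, P (a - b) n = P a n - P b n := by
    intro a b n
    simp only [hP, Pi.sub_apply, sub_smul, Finset.sum_sub_distrib]
  have hK0 : ∀ (c : ℕ → ℝ) (m n : ℕ), m ≤ n → ‖P c m‖ ≤ K * ‖P c n‖ := hK
  have hcoef : ∀ (c : ℕ → ℝ) (i n : ℕ), i < n → |c i| * ‖x i‖ ≤ 2 * K * ‖P c n‖ := by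
    intro c i n hi
    have h1 : c i • x i = P c (i + 1) - P c i := by
      simp only [hP, Finset.sum_range_succ]; abel
    have h2 := hK0 c (i + 1) n hi
    have h3 := hK0 c i n hi.le
    calc |c i| * ‖x i‖ = ‖c i • x i‖ := by rw [norm_smul, Real.norm_eq_abs]
      _ = ‖P c (i + 1) - P c i‖ := by rw [h1]
      _ ≤ ‖P c (i + 1)‖ + ‖P c i‖ := norm_sub_le _ _
      _ ≤ 2 * K * ‖P c n‖ := by linarith
  have hKpos : 0 ≤ K := by
    have h1 := hK0 (fun _ => 1) 1 1 le_rfl
    have h2 : P (fun _ => 1) 1 = x 0 := by simp [hP]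
    rw [h2] at h1
    have h3 : 0 < ‖x 0‖ := norm_pos_iff.2 (hx 0)
    nlinarith
  -- approximations
  have hz' : z ∈ closure ((Submodule.span ℝ (Set.range x) : Submodule ℝ V) : Set V) := hz
  obtain ⟨y, hy, hyz⟩ := mem_closure_iff_seq_limit.1 hz'
  have hrep : ∀ l, ∃ (c : ℕ → ℝ) (N : ℕ), ∀ n, N ≤ n → P c n = y l := by
    intro l
    have h1 : y l ∈ LinearMap.range (Finsupp.linearCombination ℝ x) := by
      rw [Finsupp.range_linearCombination]; exact hy l
    obtain ⟨f, hf⟩ := h1
    obtain ⟨N, hN⟩ := sum_eq_lc x f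
    exact ⟨f, N, fun n hn => by rw [← hf, hN n hn]⟩
  choose c N hcN using hrep
  have hdiff : ∀ l l' m, ‖P (c l) m - P (c l') m‖ ≤ K * ‖y l - y l'‖ := by
    intro l l' m
    have h := hK0 (c l - c l') m (max m (max (N l) (N l'))) (le_max_left _ _)
    rw [hPsub, hPsub, hcN l _ ((le_max_left _ _).trans (le_max_right _ _)),
      hcN l' _ ((le_max_right _ _).trans (le_max_right _ _))] at h
    exact h
  have hcd : ∀ l l' i, |c l i - c l' i| * ‖x i‖ ≤ 2 * K * ‖y l - y l'‖ := by
    intro l l' i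
    have h := hcoef (c l - c l') i (max (i + 1) (max (N l) (N l')))
      (lt_of_lt_of_le (Nat.lt_succ_self i) (le_max_left _ _))
    rw [hPsub, hcN l _ ((le_max_left _ _).trans (le_max_right _ _)),
      hcN l' _ ((le_max_right _ _).trans (le_max_right _ _))] at h
    exact h
  have hycau : CauchySeq y := hyz.cauchySeq
  have hccau : ∀ i, CauchySeq fun l => c l i := by
    intro i
    rw [Metric.cauchySeq_iff'] at hycau ⊢
    intro ε hε
    have hxi : 0 < ‖x i‖ := norm_pos_iff.2 (hx i)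
    obtain ⟨M, hM⟩ := hycau (ε * ‖x i‖ / (2 * K + 1)) (by positivity)
    refine ⟨M, fun n hn => ?_⟩
    have h1 := hcd n M i
    have h2 := hM n hn
    rw [dist_eq_norm, lt_div_iff₀ (by positivity)] at h2
    rw [Real.dist_eq]
    have h3 : |c n i - c M i| * ‖x i‖ < ε * ‖x i‖ := by
      have h4 : 2 * K * ‖y n - y M‖ ≤ ‖y n - y M‖ * (2 * K + 1) := by
        nlinarith [norm_nonneg (y n - y M)]
      linarith
    exact lt_of_mul_lt_mul_right h3 hxi.le
  have hlim : ∀ i, ∃ a : ℝ, Tendsto (fun l => c l i) atTop (𝓝 a) := fun i =>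
    cauchySeq_tendsto_of_complete (hccau i)
  choose a ha using hlim
  have hPa : ∀ m, Tendsto (fun l => P (c l) m) atTop (𝓝 (P a m)) := by
    intro m
    exact tendsto_finsetSum _ fun i _ => (ha i).smul_const (x i)
  have hPcz : ∀ l m, ‖P (c l) m - P a m‖ ≤ K * ‖y l - z‖ := by
    intro l m
    have h1 : Tendsto (fun l' => ‖P (c l) m - P (c l') m‖) atTop (𝓝 ‖P (c l) m - P a m‖) :=
      (tendsto_const_nhds.sub (hPa m)).norm
    have h2 : Tendsto (fun l' => K * ‖y l - y l'‖) atTop (𝓝 (K * ‖y l - z‖)) :=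
      ((tendsto_const_nhds.sub hyz).norm).const_mul K
    exact le_of_tendsto_of_tendsto' h1 h2 fun l' => hdiff l l' m
  refine ⟨a, ?_, ?_⟩
  · show Tendsto (fun n => P a n) atTop (𝓝 z)
    rw [Metric.tendsto_atTop]
    intro ε hε
    rw [Metric.tendsto_atTop] at hyz
    obtain ⟨l, hl⟩ := hyz (ε / (K + 1)) (by positivity)
    refine ⟨N l, fun n hn => ?_⟩
    have h1 := hPcz l n
    have h2 := hl l le_rfl
    rw [dist_eq_norm, lt_div_iff₀ (by positivity)] at h2
    rw [hcN l n hn] at h1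
    rw [dist_eq_norm]
    calc ‖P a n - z‖ = ‖-(y l - P a n) + (y l - z)‖ := by congr 1; abel
      _ ≤ ‖-(y l - P a n)‖ + ‖y l - z‖ := norm_add_le _ _
      _ = ‖y l - P a n‖ + ‖y l - z‖ := by rw [norm_neg]
      _ ≤ K * ‖y l - z‖ + ‖y l - z‖ := by gcongr
      _ = ‖y l - z‖ * (K + 1) := by ring
      _ < ε := h2
  · intro b hb
    have hb' : Tendsto (fun n => P b n) atTop (𝓝 z) := hb
    have haz : Tendsto (fun n => P a n) atTop (𝓝 z) := by
      rw [Metric.tendsto_atTop]
      intro ε hε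
      rw [Metric.tendsto_atTop] at hyz
      obtain ⟨l, hl⟩ := hyz (ε / (K + 1)) (by positivity)
      refine ⟨N l, fun n hn => ?_⟩
      have h1 := hPcz l n
      have h2 := hl l le_rfl
      rw [dist_eq_norm, lt_div_iff₀ (by positivity)] at h2
      rw [hcN l n hn] at h1
      rw [dist_eq_norm]
      calc ‖P a n - z‖ = ‖-(y l - P a n) + (y l - z)‖ := by congr 1; abel
        _ ≤ ‖-(y l - P a n)‖ + ‖y l - z‖ := norm_add_le _ _
        _ = ‖y l - P a n‖ + ‖y l - z‖ := by rw [norm_neg]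
        _ ≤ K * ‖y l - z‖ + ‖y l - z‖ := by gcongr
        _ = ‖y l - z‖ * (K + 1) := by ring
        _ < ε := h2
    have hd : Tendsto (fun n => 2 * K * ‖P (b - a) n‖) atTop (𝓝 0) := by
      have h1 : Tendsto (fun n => P b n - P a n) atTop (𝓝 (z - z)) := hb'.sub haz
      rw [sub_self] at h1
      have h2 : Tendsto (fun n => 2 * K * ‖P b n - P a n‖) atTop (𝓝 (2 * K * ‖(0 : V)‖)) :=
        h1.norm.const_mul _
      rw [norm_zero, mul_zero] at h2
      refine h2.congr fun n => ?_
      rw [hPsub]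
    funext i
    have h3 : |(b - a) i| * ‖x i‖ ≤ 0 := by
      refine ge_of_tendsto hd ?_
      filter_upwards [eventually_gt_atTop i] with n hn
      exact hcoef _ i n hn
    have hxi : 0 < ‖x i‖ := norm_pos_iff.2 (hx i)
    have h4 : |(b - a) i| ≤ 0 := by
      by_contra hcon
      push Not at hcon
      have := mul_pos hcon hxi
      linarith
    have h5 : (b - a) i = 0 := abs_nonpos_iff.1 h4
    rw [Pi.sub_apply] at h5
    linarith

end Pool.Agent.W12.TBGen
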