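import Pool.Agent.W12.LGMain

/-! Bonferroni inequality with a simplicial complex (project LG). -/

set_option autoImplicit false

namespace Pool.Agent.W12.LGBonf

open Finset Pool.Agent.W246.LG Pool.Agent.W12.LGMain

variable {α : Type} [DecidableEq α]

/-- the first step out of the complex -/
theorem first_step (I : Finset α → Prop) (hI : ∀ S T, S ⊆ T → I T → I S) (S S0 : Finset α)
    (hS : I S) (hS0 : ¬ I S0) :
    ∃ T, S ⊆ T ∧ T ⊆ S ∪ S0 ∧ I T ∧ ∃ x ∈ S0, x ∉ T ∧ ¬ I (insert x T) := by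
  classical
  have hne : ((S ∪ S0).powerset.filter (fun T => S ⊆ T ∧ I T)).Nonempty :=
    ⟨S, Finset.mem_filter.2 ⟨Finset.mem_powerset.2 Finset.subset_union_left,
      Finset.Subset.refl _, hS⟩⟩
  obtain ⟨T, hT, hmax⟩ := Finset.exists_max_image _ Finset.card hne
  rw [Finset.mem_filter, Finset.mem_powerset] at hT
  obtain ⟨hT1, hT2, hT3⟩ := hT
  have hneq : ¬ (S ∪ S0) ⊆ T := by
    intro h
    exact hS0 (hI S0 T (Finset.subset_union_right.trans h) hT3)
  rw [Finset.not_subset] at hneq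
  obtain ⟨x, hx, hxT⟩ := hneq
  have hx0 : x ∈ S0 := by
    rcases Finset.mem_union.1 hx with h | h
    · exact absurd (hT2 h) hxT
    · exact h
  refine ⟨T, hT2, hT1, hT3, x, hx0, hxT, ?_⟩
  intro hcon
  have h1 := hmax (insert x T) (by
    rw [Finset.mem_filter, Finset.mem_powerset]
    exact ⟨Finset.insert_subset hx hT1, hT2.trans (Finset.subset_insert _ _), hcon⟩)
  rw [Finset.card_insert_of_notMem hxT] at h1
  omega

/-- the set version -/
theorem set_ineq (I : Finset α → Prop) [DecidablePred I]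
    (hI : ∀ S T, S ⊆ T → I T → I S) (R : ℕ) (hR : Odd R) (X : Finset α) :
    ∑ S ∈ X.powerset.filter (fun S => S.card ≤ R ∧ I S), (-1 : ℝ) ^ S.card
      - 4 ^ R * ∑ S ∈ X.powerset.filter (fun S => S.card < 2 * R ∧ I S),
        ∑ _x ∈ (X \ S).filter (fun x => ¬ I (insert x S)), (1 : ℝ) ≤ if X = ∅ then 1 else 0 := by
  have hErr : 0 ≤ ∑ S ∈ X.powerset.filter (fun S => S.card < 2 * R ∧ I S),
        ∑ _x ∈ (X \ S).filter (fun x => ¬ I (insert x S)), (1 : ℝ) :=
    Finset.sum_nonneg fun _ _ => Finset.sum_nonneg fun _ _ => zero_le_one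
  by_cases hall : ∀ S ⊆ X, S.card ≤ R → I S
  · have h1 := (bonf (fun _ : α => (1:ℝ)) X (fun _ _ => ⟨zero_le_one, le_rfl⟩) R).2 hR
    have e1 : ∑ S ∈ X.powerset.filter (fun S => S.card ≤ R ∧ I S), (-1 : ℝ) ^ S.card =
        G (fun _ : α => (1:ℝ)) X R := by
      unfold G
      rw [Finset.sum_filter]
      apply Finset.sum_congr rfl
      intro S hS
      by_cases h : S.card ≤ R
      · rw [if_pos ⟨h, hall S (Finset.mem_powerset.1 hS) h⟩, if_pos h]
        simp
      · rw [if_neg (fun h' => h h'.1), if_neg h]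
    have e2 : ∏ _b ∈ X, (1 - (1:ℝ)) = if X = ∅ then 1 else 0 := by
      rw [sub_self, Finset.prod_const]
      by_cases h : X = ∅
      · simp [h]
      · rw [if_neg h, zero_pow (Finset.card_ne_zero.2 (Finset.nonempty_iff_ne_empty.2 h))]
    rw [e1, ← e2]
    have : 0 ≤ (4:ℝ) ^ R := by positivity
    have := mul_nonneg this hErr
    linarith
  · push Not at hall
    obtain ⟨S0, hS0X, hS0R, hS0I⟩ := hall
    have hR1 : 1 ≤ R := hR.pos
    set J := X.powerset.filter (fun S => S.card < 2 * R ∧ I S) with hJ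
    have hsub : X.powerset.filter (fun S => S.card ≤ R ∧ I S) ⊆
        J.biUnion (fun T => ((X \ T).filter (fun x => ¬ I (insert x T))).biUnion
          (fun _ => T.powerset)) := by
      intro S hS
      rw [Finset.mem_filter, Finset.mem_powerset] at hS
      obtain ⟨hSX, hSR, hSI⟩ := hS
      obtain ⟨T, hT1, hT2, hT3, x, hx0, hxT, hxI⟩ := first_step I hI S S0 hSI hS0I
      rw [Finset.mem_biUnion]
      refine ⟨T, ?_, ?_⟩
      · rw [hJ, Finset.mem_filter, Finset.mem_powerset]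
        refine ⟨hT2.trans (Finset.union_subset hSX hS0X), ?_, hT3⟩
        have h1 : (insert x T).card ≤ (S ∪ S0).card :=
          Finset.card_le_card (Finset.insert_subset (Finset.mem_union_right _ hx0) hT2)
        rw [Finset.card_insert_of_notMem hxT] at h1
        have h2 := Finset.card_union_le S S0
        omega
      · rw [Finset.mem_biUnion]
        refine ⟨x, ?_, Finset.mem_powerset.2 hT1⟩
        rw [Finset.mem_filter, Finset.mem_sdiff]
        exact ⟨⟨hS0X hx0, hxT⟩, hxI⟩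
    have hcard : ((X.powerset.filter (fun S => S.card ≤ R ∧ I S)).card : ℝ) ≤
        ∑ T ∈ J, ∑ _x ∈ (X \ T).filter (fun x => ¬ I (insert x T)), (4:ℝ) ^ R := by
      have h1 : (X.powerset.filter (fun S => S.card ≤ R ∧ I S)).card ≤
          ∑ T ∈ J, ∑ _x ∈ (X \ T).filter (fun x => ¬ I (insert x T)), 4 ^ R := by
        refine (Finset.card_le_card hsub).trans (Finset.card_biUnion_le.trans ?_)
        refine Finset.sum_le_sum fun T hT => Finset.card_biUnion_le.trans ?_
        refine Finset.sum_le_sum fun x _ => ?_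
        rw [Finset.card_powerset]
        have h2 : T.card < 2 * R := (Finset.mem_filter.1 hT).2.1
        calc 2 ^ T.card ≤ 2 ^ (2 * R) := Nat.pow_le_pow_right (by norm_num) h2.le
          _ = 4 ^ R := by rw [pow_mul]; norm_num
      exact_mod_cast h1
    have h3 : ∑ S ∈ X.powerset.filter (fun S => S.card ≤ R ∧ I S), (-1 : ℝ) ^ S.card ≤
        ((X.powerset.filter (fun S => S.card ≤ R ∧ I S)).card : ℝ) := by
      rw [Finset.card_eq_sum_ones, Nat.cast_sum]
      refine Finset.sum_le_sum fun S _ => ?_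
      push_cast
      rcases Nat.even_or_odd S.card with h | h
      · rw [h.neg_one_pow]
      · rw [h.neg_one_pow]; norm_num
    have h4 : ∑ T ∈ J, ∑ _x ∈ (X \ T).filter (fun x => ¬ I (insert x T)), (4:ℝ) ^ R =
        4 ^ R * ∑ S ∈ J, ∑ _x ∈ (X \ S).filter (fun x => ¬ I (insert x S)), (1 : ℝ) := by
      rw [Finset.mul_sum]
      refine Finset.sum_congr rfl fun T _ => ?_
      rw [Finset.mul_sum]
      exact Finset.sum_congr rfl fun x _ => (mul_one _).symm
    have h5 : (0:ℝ) ≤ if X = ∅ then 1 else 0 := by split_ifs <;> norm_num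
    linarith

/-- weight of the set `X` -/
noncomputable def wt (B : Finset α) (f : α → ℝ) (X : Finset α) : ℝ :=
  (∏ b ∈ X, f b) * ∏ b ∈ B \ X, (1 - f b)

theorem wt_nonneg {B : Finset α} {f : α → ℝ} (hf : ∀ b ∈ B, 0 ≤ f b ∧ f b ≤ 1) {X : Finset α}
    (hX : X ⊆ B) : 0 ≤ wt B f X := by
  refine mul_nonneg (Finset.prod_nonneg fun b hb => (hf b (hX hb)).1) ?_
  refine Finset.prod_nonneg fun b hb => ?_
  have := (hf b (Finset.mem_sdiff.1 hb).1).2
  linarith

theorem wt_sum (B : Finset α) (f : α → ℝ) (U : Finset α) (hU : U ⊆ B) :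
    ∑ X ∈ B.powerset, (if U ⊆ X then wt B f X else 0) = ∏ b ∈ U, f b := by
  have h := Finset.prod_add f (fun b => if b ∈ U then (0:ℝ) else 1 - f b) B
  have e1 : ∏ b ∈ B, (f b + if b ∈ U then (0:ℝ) else 1 - f b) = ∏ b ∈ U, f b := by
    rw [← Finset.prod_sdiff hU]
    have h1 : ∏ b ∈ B \ U, (f b + if b ∈ U then (0:ℝ) else 1 - f b) = 1 := by
      apply Finset.prod_eq_one
      intro b hb
      rw [if_neg (Finset.mem_sdiff.1 hb).2]
      ring
    rw [h1, one_mul]
    apply Finset.prod_congr rfl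
    intro b hb
    rw [if_pos hb, add_zero]
  rw [← e1, h]
  apply Finset.sum_congr rfl
  intro X hX
  have hXB := Finset.mem_powerset.1 hX
  by_cases hUX : U ⊆ X
  · rw [if_pos hUX]
    unfold wt
    congr 1
    apply Finset.prod_congr rfl
    intro b hb
    rw [if_neg]
    intro hbU
    exact (Finset.mem_sdiff.1 hb).2 (hUX hbU)
  · rw [if_neg hUX]
    rw [Finset.not_subset] at hUX
    obtain ⟨b, hbU, hbX⟩ := hUX
    symm
    apply mul_eq_zero_of_right
    apply Finset.prod_eq_zero (Finset.mem_sdiff.2 ⟨hU hbU, hbX⟩)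
    rw [if_pos hbU]

/-- summation over the sets containing `U S` -/
theorem swap {ι : Type} (B : Finset α) (f : α → ℝ) (K : Finset ι) (c : ι → ℝ) (U : ι → Finset α)
    (hU : ∀ i ∈ K, U i ⊆ B) :
    ∑ i ∈ K, c i * ∏ b ∈ U i, f b =
      ∑ X ∈ B.powerset, wt B f X * ∑ i ∈ K, (if U i ⊆ X then c i else 0) := by
  have h1 : ∀ i ∈ K, c i * ∏ b ∈ U i, f b =
      ∑ X ∈ B.powerset, wt B f X * (if U i ⊆ X then c i else 0) := by
    intro i hi
    rw [← wt_sum B f (U i) (hU i hi), Finset.mul_sum]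
    apply Finset.sum_congr rfl
    intro X _
    by_cases h : U i ⊆ X
    · rw [if_pos h, if_pos h]; ring
    · rw [if_neg h, if_neg h]; ring
  rw [Finset.sum_congr rfl h1, Finset.sum_comm]
  apply Finset.sum_congr rfl
  intro X _
  rw [Finset.mul_sum]

theorem main : S_bonf := by
  intro α _ B f hf I _ _ hI R hR
  classical
  -- first sum
  have e1 : ∑ S ∈ B.powerset.filter (fun S => S.card ≤ R ∧ I S), (-1 : ℝ) ^ S.card * ∏ b ∈ S, f b =
      ∑ X ∈ B.powerset, wt B f X *
        ∑ S ∈ X.powerset.filter (fun S => S.card ≤ R ∧ I S), (-1 : ℝ) ^ S.card := by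
    rw [swap B f (B.powerset.filter (fun S => S.card ≤ R ∧ I S)) (fun S => (-1 : ℝ) ^ S.card)
      (fun S => S) (fun S hS => Finset.mem_powerset.1 (Finset.mem_filter.1 hS).1)]
    apply Finset.sum_congr rfl
    intro X hX
    congr 1
    rw [← Finset.sum_filter]
    apply Finset.sum_congr _ (fun _ _ => rfl)
    ext S
    simp only [Finset.mem_filter, Finset.mem_powerset]
    have hXB := Finset.mem_powerset.1 hX
    constructor
    · rintro ⟨⟨_, h2⟩, h3⟩
      exact ⟨h3, h2⟩
    · rintro ⟨h1, h2⟩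
      exact ⟨⟨h1.trans hXB, h2⟩, h1⟩
  -- second sum
  have e2 : ∑ S ∈ B.powerset.filter (fun S => S.card < 2 * R ∧ I S),
        ∑ x ∈ (B \ S).filter (fun x => ¬ I (insert x S)), ∏ b ∈ insert x S, f b =
      ∑ X ∈ B.powerset, wt B f X *
        ∑ S ∈ X.powerset.filter (fun S => S.card < 2 * R ∧ I S),
        ∑ _x ∈ (X \ S).filter (fun x => ¬ I (insert x S)), (1 : ℝ) := by
    rw [Finset.sum_sigma']
    have h1 := swap B f ((B.powerset.filter (fun S => S.card < 2 * R ∧ I S)).sigma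
      (fun S => (B \ S).filter (fun x => ¬ I (insert x S)))) (fun _ => (1:ℝ))
      (fun q => insert q.2 q.1) (by
        intro q hq
        rw [Finset.mem_sigma, Finset.mem_filter, Finset.mem_filter, Finset.mem_powerset,
          Finset.mem_sdiff] at hq
        exact Finset.insert_subset hq.2.1.1 hq.1.1)
    simp only [one_mul] at h1
    rw [h1]
    apply Finset.sum_congr rfl
    intro X hX
    congr 1
    rw [Finset.sum_sigma', ← Finset.sum_filter]
    apply Finset.sum_congr _ (fun _ _ => rfl)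
    have hXB := Finset.mem_powerset.1 hX
    ext q
    simp only [Finset.mem_filter, Finset.mem_sigma, Finset.mem_powerset, Finset.mem_sdiff]
    constructor
    · rintro ⟨⟨⟨_, h2⟩, ⟨_, h4⟩, h5⟩, h6⟩
      exact ⟨⟨(Finset.subset_insert _ _).trans h6, h2⟩, ⟨h6 (Finset.mem_insert_self _ _), h4⟩, h5⟩
    · rintro ⟨⟨h1, h2⟩, ⟨h3, h4⟩, h5⟩
      exact ⟨⟨⟨h1.trans hXB, h2⟩, ⟨hXB h3, h4⟩, h5⟩, Finset.insert_subset h3 h1⟩
  have e3 : ∏ b ∈ B, (1 - f b) = ∑ X ∈ B.powerset, wt B f X * (if X = ∅ then 1 else 0) := by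
    rw [Finset.sum_eq_single ∅]
    · unfold wt
      simp
    · intro X _ hX
      rw [if_neg hX, mul_zero]
    · intro h
      exact absurd (Finset.empty_mem_powerset B) h
  rw [e1, e2, e3, Finset.mul_sum, ← Finset.sum_sub_distrib]
  refine Finset.sum_le_sum fun X hX => ?_
  have h1 := set_ineq I hI R hR X
  have h2 := wt_nonneg hf (Finset.mem_powerset.1 hX)
  calc _ = wt B f X * (∑ S ∈ X.powerset.filter (fun S => S.card ≤ R ∧ I S), (-1 : ℝ) ^ S.card
      - 4 ^ R * ∑ S ∈ X.powerset.filter (fun S => S.card < 2 * R ∧ I S),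
        ∑ _x ∈ (X \ S).filter (fun x => ¬ I (insert x S)), (1 : ℝ)) := by ring
    _ ≤ _ := mul_le_mul_of_nonneg_left h1 h2

end Pool.Agent.W12.LGBonf
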