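import Pool.Agent.W246.LG.Defs

/-! The main term and elementary symmetric functions (project LG). -/

set_option autoImplicit false

namespace Pool.Agent.W12.LGMain

open Finset Pool.Agent.W246.LG

variable {α : Type} [DecidableEq α]

/-- truncated alternating sum -/
noncomputable def G (q : α → ℝ) (B : Finset α) (r : ℕ) : ℝ :=
  ∑ S ∈ B.powerset, if S.card ≤ r then (-1 : ℝ) ^ S.card * ∏ b ∈ S, q b else 0

theorem G_empty (q : α → ℝ) (r : ℕ) : G q ∅ r = 1 := by
  simp [G]

theorem G_zero (q : α → ℝ) (B : Finset α) : G q B 0 = 1 := by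
  unfold G
  rw [Finset.sum_eq_single ∅]
  · simp
  · intro S _ hS
    rw [if_neg]
    intro h
    exact hS (Finset.card_eq_zero.1 (Nat.le_zero.1 h))
  · intro h
    exact absurd (Finset.empty_mem_powerset B) h

theorem G_insert (q : α → ℝ) (B : Finset α) (b : α) (hb : b ∉ B) (r : ℕ) :
    G q (insert b B) (r + 1) = G q B (r + 1) - q b * G q B r := by
  unfold G
  rw [Finset.sum_powerset_insert hb, sub_eq_add_neg, ← neg_mul, Finset.mul_sum]
  congr 1
  apply Finset.sum_congr rfl
  intro S hS
  have hbS : b ∉ S := fun h => hb (Finset.mem_powerset.1 hS h)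
  rw [Finset.card_insert_of_notMem hbS, Finset.prod_insert hbS]
  by_cases h : S.card ≤ r
  · rw [if_pos h, if_pos (by omega), pow_succ]
    ring
  · rw [if_neg h, if_neg (by omega), mul_zero]

/-- Bonferroni inequalities -/
theorem bonf (q : α → ℝ) (B : Finset α) (hq : ∀ b ∈ B, 0 ≤ q b ∧ q b ≤ 1) :
    ∀ r : ℕ, (Even r → ∏ b ∈ B, (1 - q b) ≤ G q B r) ∧ (Odd r → G q B r ≤ ∏ b ∈ B, (1 - q b)) := by
  induction B using Finset.induction_on with
  | empty =>
    intro r
    rw [G_empty]
    simp
  | insert b B hb ih =>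
    intro r
    have hqb := hq b (Finset.mem_insert_self _ _)
    have ih' := ih (fun c hc => hq c (Finset.mem_insert_of_mem hc))
    rw [Finset.prod_insert hb]
    have hP0 : 0 ≤ ∏ c ∈ B, (1 - q c) :=
      Finset.prod_nonneg fun c hc => by
        have := (hq c (Finset.mem_insert_of_mem hc)).2
        linarith
    have hP1 : ∏ c ∈ B, (1 - q c) ≤ 1 :=
      Finset.prod_le_one (fun c hc => by
        have := (hq c (Finset.mem_insert_of_mem hc)).2
        linarith) (fun c hc => by
        have := (hq c (Finset.mem_insert_of_mem hc)).1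
        linarith)
    rcases Nat.eq_zero_or_pos r with h0 | h0
    · subst h0
      rw [G_zero]
      constructor
      · intro _
        nlinarith
      · intro h
        exact absurd h (by decide)
    · obtain ⟨s, rfl⟩ := Nat.exists_eq_succ_of_ne_zero (by omega : r ≠ 0)
      rw [Nat.succ_eq_add_one, G_insert q B b hb]
      constructor
      · intro he
        have h1 := (ih' (s + 1)).1 he
        have h2 := (ih' s).2 (by
          rw [Nat.even_add_one] at he
          exact Nat.not_even_iff_odd.1 he)
        nlinarith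
      · intro ho
        have h1 := (ih' (s + 1)).2 ho
        have h2 := (ih' s).1 (by
          rw [Nat.odd_add_one] at ho
          exact Nat.not_odd_iff_even.1 ho)
        nlinarith

theorem pow_ineq (s q : ℝ) (hs : 0 ≤ s) (hq : 0 ≤ q) (n : ℕ) :
    s ^ (n + 1) + (n + 1) * q * s ^ n ≤ (s + q) ^ (n + 1) := by
  induction n with
  | zero => simp
  | succ n ih =>
    have h1 : (s + q) * (s ^ (n + 1) + (n + 1) * q * s ^ n) ≤ (s + q) * (s + q) ^ (n + 1) :=
      mul_le_mul_of_nonneg_left ih (by linarith)
    have h2 : (s + q) * (s + q) ^ (n + 1) = (s + q) ^ (n + 1 + 1) := by ring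
    rw [h2] at h1
    have h3 : (s + q) * (s ^ (n + 1) + (n + 1) * q * s ^ n) =
        s ^ (n + 1 + 1) + ((n : ℝ) + 1 + 1) * q * s ^ (n + 1) + (n + 1) * q ^ 2 * s ^ n := by ring
    have h4 : 0 ≤ ((n : ℝ) + 1) * q ^ 2 * s ^ n := by positivity
    push_cast
    linarith

theorem esymm_le (q : α → ℝ) (B : Finset α) (hq : ∀ b ∈ B, 0 ≤ q b) :
    ∀ j : ℕ, ∑ S ∈ B.powersetCard j, ∏ b ∈ S, q b ≤ (∑ b ∈ B, q b) ^ j / j.factorial := by
  induction B using Finset.induction_on with
  | empty =>
    intro j
    rcases Nat.eq_zero_or_pos j with h0 | h0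
    · subst h0; simp
    · rw [Finset.powersetCard_eq_empty.2 (by simpa using h0)]
      simp only [Finset.sum_empty]
      positivity
  | insert b B hb ih =>
    intro j
    have hqb := hq b (Finset.mem_insert_self _ _)
    have ih' := ih (fun c hc => hq c (Finset.mem_insert_of_mem hc))
    have hs : 0 ≤ ∑ c ∈ B, q c := Finset.sum_nonneg fun c hc => hq c (Finset.mem_insert_of_mem hc)
    rcases Nat.eq_zero_or_pos j with h0 | h0
    · subst h0; simp
    · obtain ⟨n, rfl⟩ := Nat.exists_eq_succ_of_ne_zero (by omega : j ≠ 0)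
      rw [Nat.succ_eq_add_one, Finset.powersetCard_succ_insert hb, Finset.sum_union, Finset.sum_insert hb]
      · rw [Finset.sum_image]
        · have e1 : ∑ S ∈ B.powersetCard n, ∏ c ∈ insert b S, q c =
              q b * ∑ S ∈ B.powersetCard n, ∏ c ∈ S, q c := by
            rw [Finset.mul_sum]
            apply Finset.sum_congr rfl
            intro S hS
            rw [Finset.prod_insert]
            intro h
            exact hb ((Finset.mem_powersetCard.1 hS).1 h)
          rw [e1]
          have h1 := ih' (n + 1)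
          have h2 := ih' n
          have h3 := pow_ineq (∑ c ∈ B, q c) (q b) hs hqb n
          have hf : ((n + 1).factorial : ℝ) = (n + 1) * n.factorial := by
            rw [Nat.factorial_succ]; push_cast; ring
          have hf0 : (0:ℝ) < n.factorial := by exact_mod_cast n.factorial_pos
          rw [hf] at h1 ⊢
          rw [le_div_iff₀ (by positivity)] at h1 h2 ⊢
          have h4 : (∑ S ∈ B.powersetCard (n + 1), ∏ c ∈ S, q c +
              q b * ∑ S ∈ B.powersetCard n, ∏ c ∈ S, q c) * (((n:ℝ) + 1) * n.factorial) =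
              (∑ S ∈ B.powersetCard (n + 1), ∏ c ∈ S, q c) * (((n:ℝ) + 1) * n.factorial) +
              ((n:ℝ) + 1) * q b * ((∑ S ∈ B.powersetCard n, ∏ c ∈ S, q c) * n.factorial) := by ring
          rw [h4, add_comm (q b)]
          have h5 : ((n:ℝ) + 1) * q b * ((∑ S ∈ B.powersetCard n, ∏ c ∈ S, q c) * n.factorial) ≤
              ((n:ℝ) + 1) * q b * (∑ c ∈ B, q c) ^ n :=
            mul_le_mul_of_nonneg_left h2 (by positivity)
          linarith
        · intro S hS T hT hST
          have hbS : b ∉ S := fun h => hb ((Finset.mem_powersetCard.1 hS).1 h)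
          have hbT : b ∉ T := fun h => hb ((Finset.mem_powersetCard.1 hT).1 h)
          have := congrArg (fun X => X.erase b) hST
          simpa [Finset.erase_insert hbS, Finset.erase_insert hbT] using this
      · rw [Finset.disjoint_left]
        intro S hS hS'
        rw [Finset.mem_image] at hS'
        obtain ⟨T, _, rfl⟩ := hS'
        exact hb ((Finset.mem_powersetCard.1 hS).1 (Finset.mem_insert_self b T))

theorem main_esymm : S_esymm := by
  intro α _ B q W hq hW j
  refine (esymm_le q B hq j).trans ?_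
  have h0 : 0 ≤ ∑ b ∈ B, q b := Finset.sum_nonneg hq
  gcongr

theorem exp_le (x : ℝ) (h0 : 0 ≤ x) (h1 : x ≤ 1 / 2) : Real.exp (-2 * x) ≤ 1 - x := by
  have h2 : 1 + 2 * x ≤ Real.exp (2 * x) := by
    have := Real.add_one_le_exp (2 * x)
    linarith
  have h3 : Real.exp (-2 * x) * Real.exp (2 * x) = 1 := by
    rw [← Real.exp_add]; simp
  have h4 := Real.exp_pos (-2 * x)
  have h5 : Real.exp (-2 * x) * (1 + 2 * x) ≤ 1 := by
    calc _ ≤ Real.exp (-2 * x) * Real.exp (2 * x) := mul_le_mul_of_nonneg_left h2 h4.le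
      _ = 1 := h3
  have h6 : 1 ≤ (1 - x) * (1 + 2 * x) := by nlinarith
  by_contra hcon
  push Not at hcon
  have : (1 - x) * (1 + 2 * x) < Real.exp (-2 * x) * (1 + 2 * x) :=
    mul_lt_mul_of_pos_right hcon (by linarith)
  linarith

theorem main : S_main := by
  intro α _ B q W hq hW R hR
  have h1 := (bonf q B (fun b hb => ⟨(hq b hb).1, by linarith [(hq b hb).2]⟩) (R + 1)).1
    (by rw [Nat.even_add_one]; exact Nat.not_even_iff_odd.2 hR)
  have e1 : ∑ S ∈ B.powerset.filter (fun S => S.card ≤ R), (-1 : ℝ) ^ S.card * ∏ b ∈ S, q b =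
      G q B R := by
    unfold G
    rw [Finset.sum_filter]
  have e2 : G q B (R + 1) = G q B R + ∑ S ∈ B.powersetCard (R + 1), ∏ b ∈ S, q b := by
    have e3 : ∑ S ∈ B.powersetCard (R + 1), ∏ b ∈ S, q b =
        ∑ S ∈ B.powerset, if S.card = R + 1 then ∏ b ∈ S, q b else 0 := by
      rw [Finset.powersetCard_eq_filter, Finset.sum_filter]
    rw [e3]
    unfold G
    rw [← Finset.sum_add_distrib]
    apply Finset.sum_congr rfl
    intro S _
    by_cases h : S.card ≤ R
    · rw [if_pos h, if_pos (by omega), if_neg (by omega), add_zero]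
    · by_cases h' : S.card = R + 1
      · rw [if_neg h, if_pos h'.le, if_pos h', h', zero_add]
        have : Even (R + 1) := by rw [Nat.even_add_one]; exact Nat.not_even_iff_odd.2 hR
        rw [this.neg_one_pow, one_mul]
      · rw [if_neg h, if_neg (by omega), if_neg h', zero_add]
  have h2 := main_esymm α B q W (fun b hb => (hq b hb).1) hW (R + 1)
  have h3 : Real.exp (-2 * W) ≤ ∏ b ∈ B, (1 - q b) := by
    calc Real.exp (-2 * W) ≤ Real.exp (∑ b ∈ B, (-2 * q b)) := by
          apply Real.exp_le_exp.2
          rw [← Finset.mul_sum]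
          linarith
      _ = ∏ b ∈ B, Real.exp (-2 * q b) := Real.exp_sum _ _
      _ ≤ ∏ b ∈ B, (1 - q b) := Finset.prod_le_prod (fun _ _ => (Real.exp_pos _).le)
          (fun b hb => exp_le (q b) (hq b hb).1 (hq b hb).2)
  rw [e1]
  linarith

end Pool.Agent.W12.LGMain
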