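import Pool.Agent.W132.Cay.Defs

/-!
# CAY-1 (task of helper132), part 1: complexes from a parametrisation, the spectrum of the link
-/

set_option autoImplicit false

namespace Pool.Agent.W12.Cay

open Pool.Agent.W132.Cay

/-! ### transport of the spectral bound -/

theorem lamLe_iso {W W' : Type} [Fintype W] [Fintype W'] (G : SimpleGraph W)
    (G' : SimpleGraph W') (φ : W ≃ W') (h : ∀ a b, G'.Adj (φ a) (φ b) ↔ G.Adj a b) {lam : ℝ}
    (hG : LamLe G lam) : LamLe G' lam := by
  classical
  intro μ f hf hw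
  refine hG μ (fun a => f (φ a)) ?_ ?_
  · rintro ⟨c, hc⟩
    refine hf ⟨c, fun v => ?_⟩
    rw [← hc (φ.symm v), Equiv.apply_symm_apply]
  · intro a
    rw [← hw (φ a)]
    unfold walk
    congr 1
    · rw [← Equiv.sum_comp φ (fun w => if G'.Adj (φ a) w then f w else 0)]
      refine Finset.sum_congr rfl fun w _ => ?_
      simp only [h]
    · rw [← Equiv.sum_comp φ (fun w => if G'.Adj (φ a) w then (1 : ℝ) else 0)]
      refine Finset.sum_congr rfl fun w _ => ?_
      simp only [h]

/-! ### the complex -/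

theorem dbl {n : ℕ} (x : Fin n → ZMod 2) : x + x = 0 := by
  funext i
  exact CharTwo.add_self_eq_zero (x i)

theorem e1 {n : ℕ} (x s : Fin n → ZMod 2) : x + (x + s) = s := by
  rw [← add_assoc, dbl, zero_add]

theorem e2 {n : ℕ} (x s : Fin n → ZMod 2) : (x + s) + x = s := by
  rw [add_comm, e1]

theorem e3 {n : ℕ} (x s s' : Fin n → ZMod 2) : (x + s) + (x + s') = s + s' := by
  have : (x + s) + (x + s') = (x + x) + (s + s') := by abel
  rw [this, dbl, zero_add]

section Complex
variable {P : Type} [Fintype P] {n : ℕ} (p : P → (Fin n → ZMod 2)) (A : SimpleGraph P)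

/-- aligned generators -/
def Al (s s' : Fin n → ZMod 2) : Prop := ∃ a a', p a = s ∧ p a' = s' ∧ A.Adj a a'

theorem Al.symm' {s s' : Fin n → ZMod 2} (h : Al p A s s') : Al p A s' s := by
  obtain ⟨a, a', h1, h2, h3⟩ := h
  exact ⟨a', a, h2, h1, h3.symm⟩

variable (hinj : Function.Injective p) (h0 : ∀ a, p a ≠ 0)
  (hK : ∀ a a', A.Adj a a' → ∃ a'', p a + p a' = p a'' ∧ A.Adj a a'')

include hK in
theorem Al.add' {s s' : Fin n → ZMod 2} (h : Al p A s s') : Al p A s (s + s') := by
  obtain ⟨a, a', rfl, rfl, h3⟩ := h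
  obtain ⟨a'', h4, h5⟩ := hK a a' h3
  exact ⟨a, a'', rfl, h4.symm, h5⟩

include hinj in
theorem Al.ne' {s s' : Fin n → ZMod 2} (h : Al p A s s') : s ≠ s' := by
  obtain ⟨a, a', rfl, rfl, h3⟩ := h
  exact fun h => h3.ne (hinj h)

include h0 in
theorem Al.ne0 {s s' : Fin n → ZMod 2} (h : Al p A s s') : s ≠ 0 := by
  obtain ⟨a, a', rfl, rfl, h3⟩ := h
  exact h0 a

open Classical in
/-- the complex -/
noncomputable def cpx : Complex2 (Fin n → ZMod 2) where
  graph :=
    { Adj := fun x y => x + y ∈ Finset.univ.image p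
      symm := ⟨fun x y h => by rwa [add_comm]⟩
      loopless := ⟨fun x h => by
        rw [dbl, Finset.mem_image] at h
        obtain ⟨a, -, h1⟩ := h
        exact h0 a h1⟩ }
  tri := {t | ∃ x s s', Al p A s s' ∧ t = {x, x + s, x + s'}}
  card_tri := by
    rintro t ⟨x, s, s', h, rfl⟩
    rw [Finset.card_eq_three]
    refine ⟨x, x + s, x + s', ?_, ?_, ?_, rfl⟩
    · intro h1
      exact Al.ne0 p A h0 h (left_eq_add.mp h1)
    · intro h1
      exact Al.ne0 p A h0 (Al.symm' p A h) (left_eq_add.mp h1)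
    · intro h1
      exact Al.ne' p A hinj h (add_left_cancel h1)
  edge_tri := by
    rintro t ⟨x, s, s', h, rfl⟩ y hy z hz hyz
    have hs : s ∈ Finset.univ.image p := by
      obtain ⟨a, a', h1, h2, h3⟩ := h
      exact Finset.mem_image.mpr ⟨a, Finset.mem_univ _, h1⟩
    have hs' : s' ∈ Finset.univ.image p := by
      obtain ⟨a, a', h1, h2, h3⟩ := h
      exact Finset.mem_image.mpr ⟨a', Finset.mem_univ _, h2⟩
    have hss : s + s' ∈ Finset.univ.image p := by
      obtain ⟨a, a', h1, h2, h3⟩ := Al.add' p A hK h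
      exact Finset.mem_image.mpr ⟨a', Finset.mem_univ _, h2⟩
    show y + z ∈ Finset.univ.image p
    simp only [Finset.mem_insert, Finset.mem_singleton] at hy hz
    rcases hy with rfl | rfl | rfl <;> rcases hz with rfl | rfl | rfl
    · exact absurd rfl hyz
    · rw [e1]; exact hs
    · rw [e1]; exact hs'
    · rw [e2]; exact hs
    · exact absurd rfl hyz
    · rw [e3]; exact hss
    · rw [e2]; exact hs'
    · rw [e3, add_comm]; exact hss
    · exact absurd rfl hyz

theorem tri_iff {u v w : Fin n → ZMod 2} (huv : u ≠ v) (huw : u ≠ w) (hvw : v ≠ w) :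
    ({u, v, w} : Finset (Fin n → ZMod 2)) ∈ (cpx p A hinj h0 hK).tri ↔ Al p A (u + v) (u + w) := by
  constructor
  · rintro ⟨x, s, s', h, ht⟩
    have hu : u ∈ ({x, x + s, x + s'} : Finset (Fin n → ZMod 2)) := by
      rw [← ht]; simp
    have hv : v ∈ ({x, x + s, x + s'} : Finset (Fin n → ZMod 2)) := by
      rw [← ht]; simp
    have hw : w ∈ ({x, x + s, x + s'} : Finset (Fin n → ZMod 2)) := by
      rw [← ht]; simp
    simp only [Finset.mem_insert, Finset.mem_singleton] at hu hv hw
    have h' := Al.symm' p A h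
    rcases hu with rfl | rfl | rfl <;> rcases hv with rfl | rfl | rfl <;>
      rcases hw with rfl | rfl | rfl <;> first
      | exact absurd rfl huv
      | exact absurd rfl huw
      | exact absurd rfl hvw
      | (rw [e1, e1]; exact h)
      | (rw [e1, e1]; exact h')
      | (rw [e2, e3]; exact Al.add' p A hK h)
      | (rw [e3, e2]; exact Al.symm' p A (Al.add' p A hK h))
      | (rw [e2, e3]; exact Al.add' p A hK h')
      | (rw [e3, e2]; exact Al.symm' p A (Al.add' p A hK h'))
  · intro h
    exact ⟨u, u + v, u + w, h, by rw [e1, e1]⟩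

theorem link_iff (inst : DecidableEq (Fin n → ZMod 2)) (u : Fin n → ZMod 2) (a b : P)
    (ha : (cpx p A hinj h0 hK).graph.Adj u (u + p a))
    (hb : (cpx p A hinj h0 hK).graph.Adj u (u + p b)) :
    (@Complex2.link _ inst (cpx p A hinj h0 hK) u).Adj ⟨u + p a, ha⟩ ⟨u + p b, hb⟩ ↔
      A.Adj a b := by
  have hi : inst = Fintype.decidablePiFintype := Subsingleton.elim _ _
  subst hi
  show ((⟨u + p a, ha⟩ : {v : Fin n → ZMod 2 // (cpx p A hinj h0 hK).graph.Adj u v}) ≠
    ⟨u + p b, hb⟩ ∧ ({u, u + p a, u + p b} : Finset (Fin n → ZMod 2)) ∈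
      (cpx p A hinj h0 hK).tri) ↔ A.Adj a b
  have hua : ∀ a, u ≠ u + p a := fun a h => h0 a (left_eq_add.mp h)
  constructor
  · rintro ⟨h1, h2⟩
    have h3 : u + p a ≠ u + p b := fun h => h1 (Subtype.ext h)
    have h4 := (tri_iff p A hinj h0 hK (hua a) (hua b) h3).mp h2
    rw [e1, e1] at h4
    obtain ⟨a', b', h5, h6, h7⟩ := h4
    rw [hinj h5, hinj h6] at h7
    exact h7
  · intro h
    have h3 : u + p a ≠ u + p b := fun h1 => h.ne (hinj (add_left_cancel h1))
    refine ⟨fun h1 => h3 (Subtype.ext_iff.mp h1), ?_⟩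
    rw [tri_iff p A hinj h0 hK (hua a) (hua b) h3, e1, e1]
    exact ⟨a, b, rfl, rfl, h⟩

include hinj h0 hK in
theorem exists_complex (hgen : AddSubgroup.closure (Set.range p) = ⊤) (lam : ℝ)
    (hA : LamLe A lam) :
    ∃ (Y : Complex2 (Fin n → ZMod 2)) (S : Finset (Fin n → ZMod 2)),
      IsCayley Y S ∧ Y.IsLocalExpander lam ∧ S.card ≤ Fintype.card P := by
  classical
  refine ⟨cpx p A hinj h0 hK, Finset.univ.image p, ⟨fun x y => Iff.rfl, ?_⟩, ⟨?_, ?_⟩, ?_⟩
  · rw [Finset.coe_image, Finset.coe_univ, Set.image_univ]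
    exact hgen
  · have h1 : ∀ z : Fin n → ZMod 2, ∀ x, (cpx p A hinj h0 hK).graph.Reachable x (x + z) := by
      intro z
      have hz : z ∈ AddSubgroup.closure (Set.range p) := by
        rw [hgen]
        exact AddSubgroup.mem_top z
      induction hz using AddSubgroup.closure_induction with
      | mem s hs =>
        intro x
        refine SimpleGraph.Adj.reachable ?_
        show x + (x + s) ∈ Finset.univ.image p
        rw [e1]
        obtain ⟨a, rfl⟩ := hs
        exact Finset.mem_image.mpr ⟨a, Finset.mem_univ _, rfl⟩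
      | zero =>
        intro x
        rw [add_zero]
      | add a b _ _ ha hb =>
        intro x
        rw [← add_assoc]
        exact (ha x).trans (hb (x + a))
      | neg a _ ha =>
        intro x
        have h2 : -a = a := neg_eq_of_add_eq_zero_left (dbl a)
        rw [h2]
        exact ha x
    have : Nonempty (Fin n → ZMod 2) := ⟨0⟩
    refine SimpleGraph.Connected.mk fun x y => ?_
    have h2 := h1 (x + y) x
    rwa [e1] at h2
  · intro u
    have hbij : Function.Bijective (fun a : P =>
        (⟨u + p a, by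
          show u + (u + p a) ∈ Finset.univ.image p
          rw [e1]
          exact Finset.mem_image.mpr ⟨a, Finset.mem_univ _, rfl⟩⟩ :
          {v : Fin n → ZMod 2 // (cpx p A hinj h0 hK).graph.Adj u v})) := by
      constructor
      · intro a b hab
        exact hinj (add_left_cancel (Subtype.ext_iff.mp hab))
      · rintro ⟨v, hv⟩
        obtain ⟨a, -, ha⟩ := Finset.mem_image.mp (show u + v ∈ Finset.univ.image p from hv)
        refine ⟨a, Subtype.ext ?_⟩
        show u + p a = v
        rw [ha, e1]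
    refine lamLe_iso A _ (Equiv.ofBijective _ hbij) ?_ hA
    intro a b
    exact link_iff p A hinj h0 hK _ u a b _ _
  · exact Finset.card_image_le.trans (by rw [Finset.card_univ])

end Complex

end Pool.Agent.W12.Cay
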