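import Pool.Agent.W132.Cay.Defs

/-!
# CAY-1 (task of helper132), part 2: the spectrum of the link
-/

set_option autoImplicit false

namespace Pool.Agent.W12.Cay

open Pool.Agent.W132.Cay Finset

section
variable {K W : Type} [Fintype K] [AddCommGroup W] [Fintype W]

/-- the Fourier coefficient of the fibre -/
noncomputable def FF (f : K × W → ℝ) (ψ : AddChar W ℂ) (α : K) : ℂ :=
  ∑ M : W, ψ M * (f (α, M) : ℂ)

theorem fourier_shift (f : K × W → ℝ) (ψ : AddChar W ℂ) (B : Finset W)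
    (hneg : ∀ δ ∈ B, -δ ∈ B) (α : K) :
    ∑ M : W, ψ M * ((∑ δ ∈ B, f (α, M + δ) : ℝ) : ℂ) = (∑ δ ∈ B, ψ δ) * FF f ψ α := by
  have h1 : ∀ δ : W, ∑ M : W, ψ M * ((f (α, M + δ) : ℝ) : ℂ) = ψ (-δ) * FF f ψ α := by
    intro δ
    rw [FF, Finset.mul_sum, ← Equiv.sum_comp (Equiv.addRight δ)
      (fun M => ψ (-δ) * (ψ M * (f (α, M) : ℂ)))]
    refine Finset.sum_congr rfl fun M _ => ?_
    rw [Equiv.coe_addRight, AddChar.map_add_eq_mul, ← mul_assoc, ← mul_assoc]
    have h2 : ψ (-δ) * ψ M * ψ δ = ψ M := by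
      rw [mul_comm (ψ (-δ)), mul_assoc, ← AddChar.map_add_eq_mul, neg_add_cancel,
        AddChar.map_zero_eq_one, mul_one]
    rw [h2]
  calc ∑ M : W, ψ M * ((∑ δ ∈ B, f (α, M + δ) : ℝ) : ℂ)
      = ∑ δ ∈ B, ∑ M : W, ψ M * ((f (α, M + δ) : ℝ) : ℂ) := by
        rw [Finset.sum_comm]
        refine Finset.sum_congr rfl fun M _ => ?_
        rw [Complex.ofReal_sum, Finset.mul_sum]
    _ = ∑ δ ∈ B, ψ (-δ) * FF f ψ α := Finset.sum_congr rfl fun δ _ => h1 δ
    _ = ∑ δ ∈ B, ψ δ * FF f ψ α := by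
        refine Finset.sum_nbij' (fun δ => -δ) (fun δ => -δ) hneg hneg (fun δ _ => neg_neg δ)
          (fun δ _ => neg_neg δ) (fun δ _ => rfl)
    _ = _ := by rw [Finset.sum_mul]

theorem fourier_inv (f : K × W → ℝ) (α : K) (h : ∀ ψ : AddChar W ℂ, ψ ≠ 0 → FF f ψ α = 0)
    (M : W) : (Fintype.card W : ℂ) * (f (α, M) : ℂ) = FF f 0 α := by
  classical
  have h1 : ∑ ψ : AddChar W ℂ, ψ (-M) * FF f ψ α = (Fintype.card W : ℂ) * (f (α, M) : ℂ) := by
    unfold FF
    simp only [Finset.mul_sum]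
    rw [Finset.sum_comm]
    have h2 : ∀ M' : W, ∑ ψ : AddChar W ℂ, ψ (-M) * (ψ M' * (f (α, M') : ℂ)) =
        (if M' = M then (Fintype.card W : ℂ) * (f (α, M) : ℂ) else 0) := by
      intro M'
      have h3 : ∀ ψ : AddChar W ℂ, ψ (-M) * (ψ M' * (f (α, M') : ℂ)) =
          ψ (-M + M') * (f (α, M') : ℂ) := by
        intro ψ
        rw [← mul_assoc, ← AddChar.map_add_eq_mul]
      rw [Finset.sum_congr rfl fun ψ _ => h3 ψ, ← Finset.sum_mul, AddChar.sum_apply_eq_ite]
      by_cases h4 : M' = M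
      · subst h4
        simp
      · rw [if_neg h4, if_neg, zero_mul]
        intro h5
        exact h4 (by rw [neg_add_eq_zero] at h5; exact h5.symm)
    rw [Finset.sum_congr rfl fun M' _ => h2 M', Finset.sum_ite_eq' Finset.univ M]
    simp
  rw [← h1, Finset.sum_eq_single (0 : AddChar W ℂ)]
  · simp
  · intro ψ _ hψ
    rw [h ψ hψ, mul_zero]
  · intro h5
    exact absurd (Finset.mem_univ _) h5

theorem lamLe_prod (A : SimpleGraph (K × W)) (B : Finset W)
    (hA : ∀ a a' : K × W, A.Adj a a' ↔ a.1 ≠ a'.1 ∧ a'.2 - a.2 ∈ B) (hK : 3 ≤ Fintype.card K)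
    (hB : B.Nonempty) (hneg : ∀ δ ∈ B, -δ ∈ B) (lam : ℝ)
    (h1 : 1 / ((Fintype.card K : ℝ) - 1) ≤ lam)
    (h2 : ∀ ψ : AddChar W ℂ, ψ ≠ 0 → ‖∑ δ ∈ B, ψ δ‖ ≤ lam * B.card) : LamLe A lam := by
  classical
  intro μ f hf hw
  have hKR : (3 : ℝ) ≤ Fintype.card K := by exact_mod_cast hK
  have hb : 0 < (B.card : ℝ) := by exact_mod_cast hB.card_pos
  obtain ⟨D, hD⟩ : ∃ D : ℝ, D = ((Fintype.card K : ℝ) - 1) * B.card := ⟨_, rfl⟩
  have hD0 : 0 < D := by
    rw [hD]
    exact mul_pos (by linarith) hb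
  -- sums over the neighbours
  have hsum : ∀ (g : K × W → ℝ) (α : K) (M : W),
      ∑ a', (if A.Adj (α, M) a' then g a' else 0) =
        ∑ α' ∈ Finset.univ.erase α, ∑ δ ∈ B, g (α', M + δ) := by
    intro g α M
    rw [Fintype.sum_prod_type]
    have h3 : ∀ α' : K, ∑ M' : W, (if A.Adj (α, M) (α', M') then g (α', M') else 0) =
        if α' ≠ α then ∑ δ ∈ B, g (α', M + δ) else 0 := by
      intro α'
      by_cases h4 : α' = α
      · subst h4
        rw [if_neg (by simp)]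
        refine Finset.sum_eq_zero fun M' _ => ?_
        rw [if_neg]
        rw [hA]
        simp
      · rw [if_pos h4, ← Equiv.sum_comp (Equiv.addLeft M)
          (fun M' => if A.Adj (α, M) (α', M') then g (α', M') else 0)]
        rw [← Finset.sum_filter_add_sum_filter_not Finset.univ (fun δ => δ ∈ B)]
        have h5 : ∑ δ ∈ Finset.univ.filter (fun δ => δ ∉ B),
            (if A.Adj (α, M) (α', (Equiv.addLeft M) δ) then g (α', (Equiv.addLeft M) δ) else 0)
              = 0 := by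
          refine Finset.sum_eq_zero fun δ hδ => ?_
          rw [if_neg]
          rw [hA]
          simp only [Equiv.coe_addLeft, add_sub_cancel_left]
          exact fun h => (Finset.mem_filter.mp hδ).2 h.2
        rw [h5, add_zero]
        have h6 : Finset.univ.filter (fun δ => δ ∈ B) = B := by
          ext δ
          simp
        rw [h6]
        refine Finset.sum_congr rfl fun δ hδ => ?_
        rw [if_pos]
        · simp
        · rw [hA]
          refine ⟨fun h => h4 h.symm, ?_⟩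
          simp only [Equiv.coe_addLeft, add_sub_cancel_left]
          exact hδ
    rw [Finset.sum_congr rfl fun α' _ => h3 α', ← Finset.sum_filter]
    refine Finset.sum_congr ?_ fun _ _ => rfl
    ext α'
    simp
  have hdeg : ∀ (α : K) (M : W), ∑ a', (if A.Adj (α, M) a' then (1 : ℝ) else 0) = D := by
    intro α M
    rw [hsum (fun _ => 1) α M]
    simp only [Finset.sum_const, nsmul_eq_mul, mul_one]
    rw [Finset.card_erase_of_mem (Finset.mem_univ _), Finset.card_univ, hD,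
      Nat.cast_sub (by omega)]
    push_cast
    ring
  have heq : ∀ (α : K) (M : W), μ * D * f (α, M) =
      (∑ α' : K, ∑ δ ∈ B, f (α', M + δ)) - ∑ δ ∈ B, f (α, M + δ) := by
    intro α M
    have h3 := hw (α, M)
    unfold walk at h3
    rw [hdeg, hsum, div_eq_iff hD0.ne'] at h3
    have h4 := Finset.sum_erase_add Finset.univ (fun α' : K => ∑ δ ∈ B, f (α', M + δ))
      (Finset.mem_univ α)
    linarith
  -- Fourier transform
  have hF : ∀ (ψ : AddChar W ℂ) (α : K), ((μ * D : ℝ) : ℂ) * FF f ψ α =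
      (∑ δ ∈ B, ψ δ) * ((∑ α' : K, FF f ψ α') - FF f ψ α) := by
    intro ψ α
    have h3 : ((μ * D : ℝ) : ℂ) * FF f ψ α = ∑ M : W, ψ M * ((μ * D * f (α, M) : ℝ) : ℂ) := by
      rw [FF, Finset.mul_sum]
      refine Finset.sum_congr rfl fun M _ => ?_
      push_cast
      ring
    rw [h3]
    simp only [heq]
    have h4 : ∀ M : W, ψ M * (((∑ α' : K, ∑ δ ∈ B, f (α', M + δ)) - ∑ δ ∈ B, f (α, M + δ) : ℝ) : ℂ)
        = (∑ α' : K, ψ M * ((∑ δ ∈ B, f (α', M + δ) : ℝ) : ℂ)) -
          ψ M * ((∑ δ ∈ B, f (α, M + δ) : ℝ) : ℂ) := by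
      intro M
      rw [Complex.ofReal_sub, mul_sub, Complex.ofReal_sum, Finset.mul_sum]
    rw [Finset.sum_congr rfl fun M _ => h4 M, Finset.sum_sub_distrib, Finset.sum_comm,
      fourier_shift f ψ B hneg α, Finset.sum_congr rfl fun α' _ => fourier_shift f ψ B hneg α',
      ← Finset.mul_sum]
    ring
  have hS : ∀ (ψ : AddChar W ℂ), ((μ * D : ℝ) : ℂ) * (∑ α' : K, FF f ψ α') =
      (∑ δ ∈ B, ψ δ) * (((Fintype.card K : ℂ) - 1) * ∑ α' : K, FF f ψ α') := by
    intro ψ
    rw [Finset.mul_sum, Finset.sum_congr rfl fun α _ => hF ψ α, ← Finset.mul_sum,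
      Finset.sum_sub_distrib, Finset.sum_const, Finset.card_univ, nsmul_eq_mul]
    ring
  have hBle : ∀ ψ : AddChar W ℂ, ‖∑ δ ∈ B, ψ δ‖ ≤ B.card := by
    intro ψ
    refine (norm_sum_le _ _).trans ?_
    simp
  -- the case of zero sum
  have hzero : ∀ (ψ : AddChar W ℂ), (∑ α' : K, FF f ψ α') = 0 → (∃ α, FF f ψ α ≠ 0) →
      |μ| ≤ lam := by
    rintro ψ h3 ⟨α, h4⟩
    have h5 := hF ψ α
    rw [h3, zero_sub, mul_neg, ← neg_mul] at h5
    have h6 := mul_right_cancel₀ h4 h5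
    have h7 : |μ * D| ≤ B.card := by
      have h8 : ‖((μ * D : ℝ) : ℂ)‖ ≤ B.card := by
        rw [h6, norm_neg]
        exact hBle ψ
      rwa [Complex.norm_real] at h8
    rw [abs_mul, abs_of_pos hD0, hD, ← mul_assoc] at h7
    have h8 : |μ| * ((Fintype.card K : ℝ) - 1) ≤ 1 := by
      by_contra hcon
      push Not at hcon
      nlinarith
    refine le_trans ?_ h1
    rw [le_div_iff₀ (by linarith)]
    exact h8
  -- nonzero sum
  have hnon : ∀ (ψ : AddChar W ℂ), (∑ α' : K, FF f ψ α') ≠ 0 →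
      |μ| * B.card = ‖∑ δ ∈ B, ψ δ‖ := by
    intro ψ h3
    have h5 := hS ψ
    rw [← mul_assoc] at h5
    have h6 := mul_right_cancel₀ h3 h5
    have h7 : ‖((μ * D : ℝ) : ℂ)‖ = ‖∑ δ ∈ B, ψ δ‖ * ((Fintype.card K : ℝ) - 1) := by
      rw [h6, norm_mul]
      congr 1
      have : ((Fintype.card K : ℂ) - 1) = (((Fintype.card K : ℝ) - 1 : ℝ) : ℂ) := by push_cast; ring
      rw [this, Complex.norm_real, Real.norm_of_nonneg (by linarith)]
    rw [Complex.norm_real, Real.norm_eq_abs, abs_mul, abs_of_pos hD0, hD] at h7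
    have h8 : ((Fintype.card K : ℝ) - 1) ≠ 0 := by linarith
    have h9 : (|μ| * B.card) * ((Fintype.card K : ℝ) - 1) =
        ‖∑ δ ∈ B, ψ δ‖ * ((Fintype.card K : ℝ) - 1) := by linarith
    exact mul_right_cancel₀ h8 h9
  by_cases hex : ∃ ψ : AddChar W ℂ, ψ ≠ 0 ∧ ∃ α, FF f ψ α ≠ 0
  · obtain ⟨ψ, hψ, hα⟩ := hex
    by_cases h3 : (∑ α' : K, FF f ψ α') = 0
    · exact hzero ψ h3 hα
    · have h4 := hnon ψ h3
      have h5 := h2 ψ hψ
      rw [← h4] at h5
      exact le_of_mul_le_mul_right h5 hb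
  · push Not at hex
    have hinv : ∀ α M, (Fintype.card W : ℂ) * (f (α, M) : ℂ) = FF f 0 α := fun α M =>
      fourier_inv f α (fun ψ hψ => hex ψ hψ α) M
    have hcW : (Fintype.card W : ℂ) ≠ 0 := by
      have : Fintype.card W ≠ 0 := Fintype.card_ne_zero
      exact_mod_cast this
    by_cases h3 : (∑ α' : K, FF f 0 α') = 0
    · refine hzero 0 h3 ?_
      by_contra hcon
      push Not at hcon
      refine hf ⟨0, fun v => ?_⟩
      have h4 := hinv v.1 v.2
      rw [hcon] at h4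
      have h5 := (mul_eq_zero.mp h4).resolve_left hcW
      exact_mod_cast h5
    · exfalso
      have hB0 : ∑ δ ∈ B, (0 : AddChar W ℂ) δ = (B.card : ℂ) := by simp
      have h5 := hS 0
      rw [← mul_assoc] at h5
      have h6 := mul_right_cancel₀ h3 h5
      rw [hB0] at h6
      have hbc : (B.card : ℂ) ≠ 0 := by exact_mod_cast hb.ne'
      have h7 : ∀ α, FF f 0 α * (Fintype.card K : ℂ) = ∑ α' : K, FF f 0 α' := by
        intro α
        have h8 := hF 0 α
        rw [h6, hB0] at h8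
        have h9 : (B.card : ℂ) * (FF f 0 α * (Fintype.card K : ℂ)) =
            (B.card : ℂ) * ∑ α' : K, FF f 0 α' := by
          linear_combination h8
        exact mul_left_cancel₀ hbc h9
      have hcK : (Fintype.card K : ℂ) ≠ 0 := by
        have : Fintype.card K ≠ 0 := by omega
        exact_mod_cast this
      have h8 : ∀ a b : K × W, f a = f b := by
        intro a b
        have h9 : FF f 0 a.1 = FF f 0 b.1 := mul_right_cancel₀ hcK ((h7 a.1).trans (h7 b.1).symm)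
        have h10 := (hinv a.1 a.2).trans (h9.trans (hinv b.1 b.2).symm)
        have h11 := mul_left_cancel₀ hcW h10
        exact_mod_cast h11
      have : Nonempty K := Fintype.card_pos_iff.mp (by omega)
      obtain ⟨α⟩ := this
      exact hf ⟨f (α, 0), fun v => h8 v _⟩

end

end Pool.Agent.W12.Cay
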