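import Pool.Agent.W12.Cay1
import Pool.Agent.W12.Cay2

/-!
# CAY-1 (task of helper132), part 3: linear algebra
-/

set_option autoImplicit false

namespace Pool.Agent.W12.Cay

open Pool.Agent.W132.Cay Finset

theorem det_affine {k m : Type} [CommRing k] [Fintype m] [DecidableEq m] (A : Matrix m m k)
    (u v : m → k) : ∃ c, ∀ t : k, (A + t • Matrix.vecMulVec u v).det = A.det + t * c := by
  obtain ⟨N, hN⟩ : ∃ N : k → Matrix (m ⊕ Unit) (m ⊕ Unit) k, N = fun t =>
    Matrix.fromBlocks A (Matrix.of fun i _ => t * u i) (Matrix.of fun _ j => - v j) 1 := ⟨_, rfl⟩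
  have h1 : ∀ t, (N t).det = (A + t • Matrix.vecMulVec u v).det := by
    intro t
    rw [hN]
    simp only
    rw [Matrix.det_fromBlocks_one₂₂]
    congr 1
    ext i j
    simp [Matrix.mul_apply, Matrix.vecMulVec_apply]
    try ring
  obtain ⟨c0, hc0⟩ : ∃ c0 : m ⊕ Unit → k, c0 = Sum.elim (fun _ => 0) (fun _ => 1) := ⟨_, rfl⟩
  obtain ⟨c1, hc1⟩ : ∃ c1 : m ⊕ Unit → k, c1 = Sum.elim u (fun _ => 0) := ⟨_, rfl⟩
  have h2 : ∀ t, N t = (N 0).updateCol (Sum.inr ()) (t • c1 + c0) := by
    intro t
    rw [hN, hc0, hc1]
    ext i j
    rcases i with i | i <;> rcases j with j | j <;> simp [Matrix.updateCol_apply]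
  have h3 : (N 0).updateCol (Sum.inr ()) c0 = N 0 := by
    have := h2 0
    rw [zero_smul, zero_add] at this
    exact this.symm
  refine ⟨((N 0).updateCol (Sum.inr ()) c1).det, fun t => ?_⟩
  rw [← h1 t, h2 t, Matrix.det_updateCol_add, Matrix.det_updateCol_smul, h3, h1 0, zero_smul,
    add_zero]
  ring

theorem det_affine' {k m : Type} [CommRing k] [Fintype m] [DecidableEq m] (A : Matrix m m k)
    (u v : m → k) (t : k) : (A + t • Matrix.vecMulVec u v).det =
      A.det + t * ((A + Matrix.vecMulVec u v).det - A.det) := by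
  obtain ⟨c, hc⟩ := det_affine A u v
  have h1 := hc 1
  rw [one_smul] at h1
  rw [hc t, h1]
  ring

section
variable {k : Type} [Field k] [Fintype k] {X : Type} [Fintype X] (G : Submodule k (X → k))

/-- evaluation -/
noncomputable def ev (x : X) : Module.Dual k G := (LinearMap.proj x).comp G.subtype

theorem ev_apply (x : X) (g : G) : ev G x g = g.1 x := rfl

instance : Finite (Module.Dual k G) := Module.finite_of_finite k

/-- the functions that are affine on the lines of direction `ev x` -/
def Aff : Submodule k (Module.Dual k G → k) where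
  carrier := {φ | ∀ M x (t : k), φ (M + t • ev G x) = φ M + t * (φ (M + ev G x) - φ M)}
  add_mem' := by
    intro a b ha hb M x t
    simp only [Pi.add_apply]
    rw [ha M x t, hb M x t]
    ring
  zero_mem' := by
    intro M x t
    simp
  smul_mem' := by
    intro c a ha M x t
    simp only [Pi.smul_apply, smul_eq_mul]
    rw [ha M x t]
    ring

/-- evaluation at a point -/
noncomputable def vv (M : Module.Dual k G) : Module.Dual k (Aff G) :=
  (LinearMap.proj M).comp (Aff G).subtype

theorem vv_apply (M : Module.Dual k G) (φ : Aff G) : vv G M φ = φ.1 M := rfl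

theorem vv_line (M : Module.Dual k G) (x : X) (t : k) :
    vv G (M + t • ev G x) = vv G M + t • (vv G (M + ev G x) - vv G M) := by
  refine LinearMap.ext fun φ => ?_
  exact φ.2 M x t

theorem one_mem : (fun _ => (1 : k)) ∈ Aff G := by
  intro M x t
  simp

theorem coord_mem (g : G) : (fun M : Module.Dual k G => M g) ∈ Aff G := by
  intro M x t
  simp

theorem finite_Aff : Module.Finite k (Aff G) := by
  infer_instance

theorem span_vv : Submodule.span k (Set.range (vv G)) = ⊤ := by
  by_contra h
  obtain ⟨Φ, hΦ, hle⟩ := Submodule.exists_le_ker_of_lt_top _ (lt_top_iff_ne_top.mpr h)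
  have h1 : (Module.evalEquiv k (Aff G)).symm Φ = 0 := by
    refine Subtype.ext (funext fun M => ?_)
    have h2 : Φ (vv G M) = 0 := hle (Submodule.subset_span ⟨M, rfl⟩)
    rw [← Module.apply_evalEquiv_symm_apply] at h2
    exact h2
  rw [LinearEquiv.map_eq_zero_iff] at h1
  exact hΦ h1

theorem closure_vv :
    AddSubgroup.closure (Set.range fun a : {a : k // a ≠ 0} × Module.Dual k G =>
      a.1.1 • vv G a.2) = ⊤ := by
  classical
  rw [eq_top_iff]
  intro z _
  have hz : z ∈ Submodule.span k (Set.range (vv G)) := by
    rw [span_vv]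
    exact Submodule.mem_top
  have : Fintype (Module.Dual k G) := Fintype.ofFinite _
  obtain ⟨c, rfl⟩ := (Submodule.mem_span_range_iff_exists_fun k).mp hz
  refine sum_mem fun M _ => ?_
  by_cases hc : c M = 0
  · rw [hc, zero_smul]
    exact zero_mem _
  · exact AddSubgroup.subset_closure ⟨(⟨c M, hc⟩, M), rfl⟩

theorem exists_dual_points (L : Submodule k (X → k)) :
    ∃ (f : Fin (Module.finrank k L) → L) (x : Fin (Module.finrank k L) → X),
      ∀ i j, (f i).1 (x j) = if i = j then 1 else 0 := by
  classical
  have h1 : Submodule.span k (Set.range (ev L)) = ⊤ := by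
    by_contra h
    obtain ⟨Φ, hΦ, hle⟩ := Submodule.exists_le_ker_of_lt_top _ (lt_top_iff_ne_top.mpr h)
    have h1 : (Module.evalEquiv k L).symm Φ = 0 := by
      refine Subtype.ext (funext fun x => ?_)
      have h2 : Φ (ev L x) = 0 := hle (Submodule.subset_span ⟨x, rfl⟩)
      rw [← Module.apply_evalEquiv_symm_apply] at h2
      exact h2
    rw [LinearEquiv.map_eq_zero_iff] at h1
    exact hΦ h1
  obtain ⟨b, hb, hs, hli⟩ := exists_linearIndependent k (Set.range (ev L))
  rw [h1] at hs
  have hfin : b.Finite := (Set.finite_range (ev L)).subset hb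
  have : Fintype b := hfin.fintype
  have hspan : ⊤ ≤ Submodule.span k (Set.range ((↑) : b → Module.Dual k L)) := by
    rw [Subtype.range_coe, hs]
  let B := Module.Basis.mk hli hspan
  have hc : Fintype.card b = Module.finrank k L := by
    rw [← Module.finrank_eq_card_basis B, Subspace.dual_finrank_eq]
  let e : b ≃ Fin (Module.finrank k L) := Fintype.equivFinOfCardEq hc
  let B' := B.reindex e
  have hx : ∀ j, ∃ x, ev L x = B' j := by
    intro j
    have h2 : B' j = (e.symm j).1 := by
      simp [B', B]
    rw [h2]
    exact hb (e.symm j).2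
  choose x hx using hx
  refine ⟨fun i => (Module.evalEquiv k L).symm (B'.coord i), x, fun i j => ?_⟩
  rw [← ev_apply, Module.apply_evalEquiv_symm_apply, hx, Module.Basis.coord_apply,
    Module.Basis.repr_self, Finsupp.single_apply]
  by_cases h : i = j
  · rw [if_pos h, if_pos h.symm]
  · rw [if_neg h, if_neg (fun h' => h h'.symm)]

theorem dim_le (L : Submodule k (X → k)) (hLG : ∀ f ∈ L, ∀ g ∈ L, f * g ∈ G) :
    2 ^ Module.finrank k L ≤ Module.finrank k (Module.Dual k (Aff G)) := by
  classical
  obtain ⟨f, x, hfx⟩ := exists_dual_points L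
  -- the products
  let pr : Fin (Module.finrank k L) → Fin (Module.finrank k L) → G := fun i j =>
    ⟨(f i).1 * (f j).1, hLG _ (f i).2 _ (f j).2⟩
  let H : (R : Finset (Fin (Module.finrank k L))) → Module.Dual k G → Matrix R R k := fun R M =>
    Matrix.of fun i j => M (pr i.1 j.1)
  have hH : ∀ (R : Finset (Fin (Module.finrank k L))), (fun M => (H R M).det) ∈ Aff G := by
    intro R M y t
    have h1 : ∀ t : k, H R (M + t • ev G y) = H R M + t • Matrix.vecMulVec
        (fun i : R => (f i.1).1 y) (fun i : R => (f i.1).1 y) := by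
      intro t
      ext i j
      simp only [H, pr, Matrix.of_apply, Matrix.add_apply, Matrix.smul_apply,
        Matrix.vecMulVec_apply, LinearMap.add_apply, LinearMap.smul_apply, ev_apply,
        Pi.mul_apply]
    have h2 := h1 1
    rw [one_smul, one_smul] at h2
    simp only
    rw [h1 t, h2]
    exact det_affine' _ _ _ t
  let MT : Finset (Fin (Module.finrank k L)) → Module.Dual k G := fun T => ∑ i ∈ T, ev G (x i)
  have hval : ∀ R T, (H R (MT T)).det = if R ⊆ T then 1 else 0 := by
    intro R T
    have h1 : H R (MT T) = Matrix.diagonal fun i : R => if i.1 ∈ T then (1 : k) else 0 := by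
      ext i j
      simp only [H, pr, MT, Matrix.of_apply, LinearMap.sum_apply, ev_apply, Pi.mul_apply, hfx,
        Matrix.diagonal_apply]
      by_cases hij : i = j
      · subst hij
        rw [if_pos rfl]
        have h3 : ∀ l : Fin (Module.finrank k L), ((if i.1 = l then (1 : k) else 0) *
            (if i.1 = l then 1 else 0)) = if i.1 = l then 1 else 0 := by
          intro l
          split_ifs <;> simp
        rw [Finset.sum_congr rfl fun l _ => h3 l, Finset.sum_ite_eq]
      · rw [if_neg hij]
        refine Finset.sum_eq_zero fun l _ => ?_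
        by_cases h3 : i.1 = l
        · have h5 : ¬ j.1 = l := fun h4 => hij (Subtype.ext (h3.trans h4.symm))
          rw [if_neg h5, mul_zero]
        · rw [if_neg h3, zero_mul]
    rw [h1, Matrix.det_diagonal]
    by_cases h2 : R ⊆ T
    · rw [if_pos h2]
      exact Finset.prod_eq_one fun i _ => if_pos (h2 i.2)
    · rw [if_neg h2]
      obtain ⟨i, hi, hi'⟩ := Finset.not_subset.mp h2
      exact Finset.prod_eq_zero (Finset.mem_univ (⟨i, hi⟩ : R)) (if_neg hi')
  have hli : LinearIndependent k (fun T : Finset (Fin (Module.finrank k L)) => vv G (MT T)) := by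
    rw [Fintype.linearIndependent_iff]
    intro c hc
    have h1 : ∀ R, ∑ T, c T * (if R ⊆ T then 1 else 0) = 0 := by
      intro R
      have h2 := LinearMap.congr_fun hc ⟨_, hH R⟩
      simp only [LinearMap.sum_apply, LinearMap.smul_apply, vv_apply, smul_eq_mul,
        LinearMap.zero_apply, hval] at h2
      exact h2
    have h2 : ∀ n : ℕ, ∀ R : Finset (Fin (Module.finrank k L)), Rᶜ.card = n → c R = 0 := by
      intro n
      induction n using Nat.strong_induction_on with
      | _ n ih =>
        intro R hR
        have h3 := h1 R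
        rw [Finset.sum_eq_single R] at h3
        · simpa using h3
        · intro T _ hT
          by_cases h4 : R ⊆ T
          · have h5 : Tᶜ.card < n := by
              rw [← hR]
              refine Finset.card_lt_card ?_
              rw [Finset.compl_ssubset_compl]
              exact Finset.ssubset_iff_subset_ne.mpr ⟨h4, fun h => hT h.symm⟩
            rw [ih _ h5 T rfl, zero_mul]
          · rw [if_neg h4, mul_zero]
        · intro h
          exact absurd (Finset.mem_univ _) h
    exact fun R => h2 _ R rfl
  have h1 := hli.fintype_card_le_finrank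
  rwa [Fintype.card_finset, Fintype.card_fin] at h1

end

end Pool.Agent.W12.Cay
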