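import Pool.Agent.W12.Cay3

/-!
# CAY-1 (task of helper132): linear code with good square gives a Cayley complex that is a local
spectral expander
-/

set_option autoImplicit false

namespace Pool.Agent.W12.Cay

open Pool.Agent.W132.Cay Finset

section
variable {k : Type} [Field k] [Fintype k] {X : Type} [Fintype X] (G : Submodule k (X → k))

/-- nonzero scalars -/
abbrev Kn (k : Type) [Field k] : Type := {a : k // a ≠ 0}

theorem neg_smul_ev (t : k) (x : X) : (-t) • ev G x = -(t • ev G x) := by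
  refine LinearMap.ext fun g => ?_
  simp only [LinearMap.smul_apply, LinearMap.neg_apply, smul_eq_mul, neg_mul]

theorem ev_ne (hsep : ∀ x y : X, x ≠ y → ∃ g ∈ G, g x = 0 ∧ g y ≠ 0) (hG : ∃ g ∈ G, g ≠ 0)
    (x : X) : ∃ g : G, g.1 x ≠ 0 := by
  by_cases h : ∃ y, y ≠ x
  · obtain ⟨y, hy⟩ := h
    obtain ⟨g, hg, -, h2⟩ := hsep y x hy
    exact ⟨⟨g, hg⟩, h2⟩
  · push Not at h
    obtain ⟨g, hg, h2⟩ := hG
    refine ⟨⟨g, hg⟩, fun h3 => h2 (funext fun y => ?_)⟩
    rw [h y]
    exact h3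

/-- the directions -/
noncomputable def jj (a : X × Kn k) : Module.Dual k G := a.2.1 • ev G a.1

theorem jj_inj (hsep : ∀ x y : X, x ≠ y → ∃ g ∈ G, g x = 0 ∧ g y ≠ 0) (hG : ∃ g ∈ G, g ≠ 0) :
    Function.Injective (jj G) := by
  rintro ⟨x, t⟩ ⟨y, s⟩ h
  have hxy : x = y := by
    by_contra hne
    obtain ⟨g, hg, h1, h2⟩ := hsep x y hne
    have h3 := LinearMap.congr_fun h ⟨g, hg⟩
    simp only [jj, LinearMap.smul_apply, ev_apply, smul_eq_mul] at h3
    rw [h1, mul_zero] at h3
    exact (mul_ne_zero s.2 h2) h3.symm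
  subst hxy
  obtain ⟨g, hg⟩ := ev_ne G hsep hG x
  have h3 := LinearMap.congr_fun h g
  simp only [jj, LinearMap.smul_apply, ev_apply, smul_eq_mul] at h3
  have h4 : t = s := Subtype.ext (mul_right_cancel₀ hg h3)
  rw [h4]

theorem jj_ne (hsep : ∀ x y : X, x ≠ y → ∃ g ∈ G, g x = 0 ∧ g y ≠ 0) (hG : ∃ g ∈ G, g ≠ 0)
    (a : X × Kn k) : jj G a ≠ 0 := by
  intro h
  obtain ⟨g, hg⟩ := ev_ne G hsep hG a.1
  have h3 := LinearMap.congr_fun h g
  simp only [jj, LinearMap.smul_apply, ev_apply, smul_eq_mul, LinearMap.zero_apply] at h3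
  exact (mul_ne_zero a.2.2 hg) h3

open Classical in
/-- the set of differences -/
noncomputable def BB : Finset (Module.Dual k G) := insert 0 (Finset.univ.image (jj G))

theorem mem_BB [Nonempty X] (δ : Module.Dual k G) :
    δ ∈ BB G ↔ ∃ (x : X) (t : k), δ = t • ev G x := by
  classical
  unfold BB
  rw [Finset.mem_insert, Finset.mem_image]
  constructor
  · rintro (rfl | ⟨a, -, rfl⟩)
    · obtain ⟨x⟩ := ‹Nonempty X›
      exact ⟨x, 0, (zero_smul k _).symm⟩
    · exact ⟨a.1, a.2.1, rfl⟩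
  · rintro ⟨x, t, rfl⟩
    by_cases ht : t = 0
    · left
      rw [ht, zero_smul]
    · right
      exact ⟨(x, ⟨t, ht⟩), Finset.mem_univ _, rfl⟩

theorem card_Kn [F : Fintype (Kn k)] : Fintype.card (Kn k) = Fintype.card k - 1 := by
  classical
  have h1 := Finset.sum_subtype (F := F) (Finset.univ.erase (0 : k)) (p := fun a => a ≠ 0)
    (by intro x; simp) (fun _ => (1 : ℕ))
  simp only [Finset.sum_const, smul_eq_mul, mul_one, Finset.card_univ] at h1
  rw [Finset.card_erase_of_mem (Finset.mem_univ _), Finset.card_univ] at h1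
  exact h1.symm

/-- the character on a line -/
noncomputable def lch (ψ : AddChar (Module.Dual k G) ℂ) (x : X) : AddChar k ℂ :=
  ψ.compAddMonoidHom (LinearMap.toSpanSingleton k _ (ev G x)).toAddMonoidHom

theorem lch_apply (ψ : AddChar (Module.Dual k G) ℂ) (x : X) (t : k) :
    lch G ψ x t = ψ (t • ev G x) := rfl

open Classical in
theorem sum_line (ψ : AddChar (Module.Dual k G) ℂ) (x : X) :
    ∑ t : Kn k, ψ (t.1 • ev G x) =
      (if lch G ψ x = 0 then (Fintype.card k : ℂ) else 0) - 1 := by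
  have h1 := AddChar.sum_eq_ite (lch G ψ x)
  rw [← h1]
  have h2 := Finset.sum_subtype (F := (inferInstance : Fintype (Kn k))) (Finset.univ.erase (0 : k))
    (p := fun a => a ≠ 0) (by intro x; simp) (fun t => lch G ψ x t)
  rw [Finset.sum_erase_eq_sub (Finset.mem_univ _), AddChar.map_zero_eq_one] at h2
  rw [h2]
  rfl

open Classical in
theorem sum_BB (hsep : ∀ x y : X, x ≠ y → ∃ g ∈ G, g x = 0 ∧ g y ≠ 0) (hG : ∃ g ∈ G, g ≠ 0)
    (ψ : AddChar (Module.Dual k G) ℂ) :
    ∑ δ ∈ BB G, ψ δ = 1 + (((Finset.univ.filter fun x => lch G ψ x = 0).card : ℂ) *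
      Fintype.card k - Fintype.card X) := by
  unfold BB
  rw [Finset.sum_insert, AddChar.map_zero_eq_one, Finset.sum_image fun a _ b _ h =>
    jj_inj G hsep hG h, Fintype.sum_prod_type]
  · congr 1
    have h1 : ∀ x : X, ∑ t : Kn k, ψ (jj G (x, t)) =
        (if lch G ψ x = 0 then (Fintype.card k : ℂ) else 0) - 1 := fun x => sum_line G ψ x
    rw [Finset.sum_congr rfl fun x _ => h1 x, Finset.sum_sub_distrib, ← Finset.sum_filter,
      Finset.sum_const, Finset.sum_const, Finset.card_univ, nsmul_eq_mul, nsmul_eq_mul, mul_one]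
  · rw [Finset.mem_image]
    rintro ⟨a, -, h⟩
    exact jj_ne G hsep hG a h

theorem card_BB (hsep : ∀ x y : X, x ≠ y → ∃ g ∈ G, g x = 0 ∧ g y ≠ 0) (hG : ∃ g ∈ G, g ≠ 0) :
    (BB G).card = 1 + Fintype.card X * (Fintype.card k - 1) := by
  classical
  unfold BB
  rw [Finset.card_insert_of_notMem, Finset.card_image_of_injective _ (jj_inj G hsep hG),
    Finset.card_univ, Fintype.card_prod, card_Kn, add_comm]
  rw [Finset.mem_image]
  rintro ⟨a, -, h⟩
  exact jj_ne G hsep hG a h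

open Classical in
theorem zero_count (ψ : AddChar (Module.Dual k G) ℂ) (hψ : ψ ≠ 0) :
    ∃ g ∈ G, g ≠ 0 ∧ ∀ x, lch G ψ x = 0 → g x = 0 := by
  have hlt : Submodule.span k (ev G '' {x | lch G ψ x = 0}) < ⊤ := by
    rw [lt_top_iff_ne_top]
    intro htop
    refine hψ (DFunLike.ext _ _ fun w => ?_)
    have hw : w ∈ Submodule.span k (ev G '' {x | lch G ψ x = 0}) := by
      rw [htop]
      exact Submodule.mem_top
    have h1 : ∀ t : k, ψ (t • w) = 1 := by
      induction hw using Submodule.span_induction with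
      | mem w hw =>
        obtain ⟨x, hx, rfl⟩ := hw
        intro t
        rw [← lch_apply, show lch G ψ x = 0 from hx]
        rfl
      | zero =>
        intro t
        rw [smul_zero, AddChar.map_zero_eq_one]
      | add a b _ _ ha hb =>
        intro t
        rw [smul_add, AddChar.map_add_eq_mul, ha, hb, one_mul]
      | smul c a _ ha =>
        intro t
        rw [smul_smul]
        exact ha _
    have h2 := h1 1
    rw [one_smul] at h2
    rw [h2]
    rfl
  obtain ⟨Φ, hΦ, hle⟩ := Submodule.exists_le_ker_of_lt_top _ hlt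
  refine ⟨((Module.evalEquiv k G).symm Φ).1, ((Module.evalEquiv k G).symm Φ).2, ?_, ?_⟩
  · intro h
    have h1 : (Module.evalEquiv k G).symm Φ = 0 := Subtype.ext h
    rw [LinearEquiv.map_eq_zero_iff] at h1
    exact hΦ h1
  · intro x hx
    have h2 : Φ (ev G x) = 0 := hle (Submodule.subset_span ⟨x, hx, rfl⟩)
    rw [← Module.apply_evalEquiv_symm_apply] at h2
    exact h2

theorem char_bound [Nonempty X] (hQ : 4 ≤ Fintype.card k)
    (hsep : ∀ x y : X, x ≠ y → ∃ g ∈ G, g x = 0 ∧ g y ≠ 0) (lam : ℝ)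
    (hz : ∀ g ∈ G, g ≠ 0 → (Nat.card {x : X // g x = 0} : ℝ) ≤ lam * Fintype.card X)
    (ψ : AddChar (Module.Dual k G) ℂ) (hψ : ψ ≠ 0) :
    ‖∑ δ ∈ BB G, ψ δ‖ ≤ max lam (1 / ((Fintype.card k : ℝ) - 2)) * (BB G).card := by
  classical
  obtain ⟨g, hg, hg0, hgz⟩ := zero_count G ψ hψ
  have hG : ∃ g ∈ G, g ≠ 0 := ⟨g, hg, hg0⟩
  obtain ⟨z, hzz⟩ : ∃ z : ℕ, z = (Finset.univ.filter fun x => lch G ψ x = 0).card := ⟨_, rfl⟩
  have h1 : (z : ℝ) ≤ lam * Fintype.card X := by
    refine le_trans ?_ (hz g hg hg0)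
    rw [hzz]
    have h2 : (Finset.univ.filter fun x => lch G ψ x = 0).card ≤ Nat.card {x : X // g x = 0} := by
      rw [Nat.card_eq_fintype_card, Fintype.card_subtype]
      refine Finset.card_le_card fun x hx => ?_
      rw [Finset.mem_filter] at hx ⊢
      exact ⟨hx.1, hgz x hx.2⟩
    exact_mod_cast h2
  have h2 : z ≤ Fintype.card X := by
    rw [hzz]
    exact (Finset.card_le_univ _)
  rw [sum_BB G hsep hG ψ, card_BB G hsep hG, ← hzz]
  obtain ⟨Q, hQe⟩ : ∃ Q : ℝ, Q = Fintype.card k := ⟨_, rfl⟩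
  obtain ⟨N, hNe⟩ : ∃ N : ℝ, N = Fintype.card X := ⟨_, rfl⟩
  have hQ4 : 4 ≤ Q := by rw [hQe]; exact_mod_cast hQ
  have hN1 : 1 ≤ N := by
    rw [hNe]
    exact_mod_cast Fintype.card_pos
  have e1 : (1 + ((z : ℂ) * (Fintype.card k : ℂ) - (Fintype.card X : ℂ))) =
      ((1 + (z * Q - N) : ℝ) : ℂ) := by
    rw [hQe, hNe]
    push_cast
    ring
  have e2 : ((1 + Fintype.card X * (Fintype.card k - 1) : ℕ) : ℝ) = 1 + N * (Q - 1) := by
    rw [hQe, hNe]
    push_cast [Nat.cast_sub (by omega : 1 ≤ Fintype.card k)]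
    ring
  rw [e1, e2, Complex.norm_real, Real.norm_eq_abs, ← hQe]
  have hz0 : (0 : ℝ) ≤ z := Nat.cast_nonneg z
  have hzN : (z : ℝ) ≤ N := by rw [hNe]; exact_mod_cast h2
  rw [← hNe] at h1
  have hb : 0 < 1 + N * (Q - 1) := by nlinarith
  have hm1 := le_max_left lam (1 / (Q - 2))
  have hm2 := le_max_right lam (1 / (Q - 2))
  have hm0 : 0 ≤ max lam (1 / (Q - 2)) := le_trans (by
    have : 0 < Q - 2 := by linarith
    positivity) hm2
  rw [abs_le]
  constructor
  · have h3 : (N - 1) ≤ 1 / (Q - 2) * (1 + N * (Q - 1)) := by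
      have : 0 < Q - 2 := by linarith
      rw [one_div, inv_mul_eq_div, le_div_iff₀ this]
      nlinarith
    have h4 : 1 / (Q - 2) * (1 + N * (Q - 1)) ≤ max lam (1 / (Q - 2)) * (1 + N * (Q - 1)) :=
      mul_le_mul_of_nonneg_right hm2 hb.le
    have h5 : 0 ≤ z * Q := by positivity
    linarith
  · rcases le_or_gt 1 lam with hl | hl
    · have h3 : 1 + (z * Q - N) ≤ 1 * (1 + N * (Q - 1)) := by nlinarith
      exact h3.trans (mul_le_mul_of_nonneg_right (hl.trans hm1) hb.le)
    · have h3 : 1 + (z * Q - N) ≤ lam * (1 + N * (Q - 1)) := by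
        have h4 : z * Q ≤ lam * N * Q := mul_le_mul_of_nonneg_right h1 (by linarith)
        nlinarith [mul_nonneg (by linarith : 0 ≤ N - 1) (by linarith : 0 ≤ 1 - lam)]
      exact h3.trans (mul_le_mul_of_nonneg_right hm1 hb.le)

/-- the graph of the link -/
def AA : SimpleGraph (Kn k × Module.Dual k G) where
  Adj a a' := a.1 ≠ a'.1 ∧ ∃ (x : X) (t : k), a'.2 - a.2 = t • ev G x
  symm := ⟨by
    rintro a a' ⟨h1, x, t, h2⟩
    refine ⟨h1.symm, x, -t, ?_⟩
    rw [neg_smul_ev, ← h2]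
    abel⟩
  loopless := ⟨fun a h => h.1 rfl⟩

end

theorem code_to_complex (k : Type) [Field k] [Fintype k] [CharP k 2] (hQ : 4 ≤ Fintype.card k)
    {X : Type} [Fintype X] [Nonempty X] (L G : Submodule k (X → k))
    (hLG : ∀ f ∈ L, ∀ g ∈ L, f * g ∈ G)
    (hsep : ∀ x y : X, x ≠ y → ∃ g ∈ G, g x = 0 ∧ g y ≠ 0) (lam : ℝ)
    (hz : ∀ g ∈ G, g ≠ 0 → (Nat.card {x : X // g x = 0} : ℝ) ≤ lam * Fintype.card X) :
    ∃ (n : ℕ) (Y : Complex2 (Fin n → ZMod 2)) (S : Finset (Fin n → ZMod 2)),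
      IsCayley Y S ∧ Y.IsLocalExpander (max lam (1 / ((Fintype.card k : ℝ) - 2))) ∧
      S.card ≤ Fintype.card k ^ (Module.finrank k G + 1) ∧ 2 ^ Module.finrank k L ≤ n := by
  classical
  have hfV : Finite (Module.Dual k (Aff G)) := Module.finite_of_finite k
  let _ : Fintype (Module.Dual k (Aff G)) := Fintype.ofFinite _
  let _ : Fintype (Module.Dual k G) := Fintype.ofFinite _
  have h2V : ∀ v : Module.Dual k (Aff G), 2 • v = 0 := by
    intro v
    rw [two_nsmul, ← two_smul k v, CharTwo.two_eq_zero, zero_smul]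
  let _ : Module (ZMod 2) (Module.Dual k (Aff G)) := AddCommGroup.zmodModule h2V
  have : Module.Finite (ZMod 2) (Module.Dual k (Aff G)) := Module.Finite.of_finite
  let e := (Module.finBasis (ZMod 2) (Module.Dual k (Aff G))).equivFun
  let n := Module.finrank (ZMod 2) (Module.Dual k (Aff G))
  let p : Kn k × Module.Dual k G → (Fin n → ZMod 2) := fun a => e (a.1.1 • vv G a.2)
  have hone : ∀ (a : k) (M : Module.Dual k G), (a • vv G M) ⟨_, one_mem G⟩ = a := by
    intro a M
    simp [vv_apply]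
  have hinj : Function.Injective p := by
    rintro ⟨a, M⟩ ⟨a', M'⟩ h
    have h1 : a.1 • vv G M = a'.1 • vv G M' := e.injective h
    have h2 : a.1 = a'.1 := by
      rw [← hone a.1 M, h1, hone]
    have h3 : M = M' := by
      refine LinearMap.ext fun g => ?_
      have h4 := LinearMap.congr_fun h1 ⟨_, coord_mem G g⟩
      simp only [LinearMap.smul_apply, vv_apply, smul_eq_mul, h2] at h4
      exact mul_left_cancel₀ a'.2 h4
    rw [h3, Subtype.ext h2]
  have h0 : ∀ a, p a ≠ 0 := by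
    intro a h
    have h1 : a.1.1 • vv G a.2 = 0 := by
      have := (LinearEquiv.map_eq_zero_iff e).mp h
      exact this
    have h2 := hone a.1.1 a.2
    rw [h1] at h2
    exact a.1.2 h2.symm
  have hK : ∀ a a', (AA G).Adj a a' → ∃ a'', p a + p a' = p a'' ∧ (AA G).Adj a a'' := by
    rintro ⟨α, M⟩ ⟨α', M'⟩ ⟨h1, x, t, h2⟩
    simp only at h1 h2
    have hM' : M' = M + t • ev G x := by rw [← h2]; abel
    have hne : α.1 + α'.1 ≠ 0 := by
      intro h
      have h3 : α.1 = α'.1 := by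
        have := CharTwo.add_eq_zero.mp h
        exact this
      exact h1 (Subtype.ext h3)
    refine ⟨(⟨α.1 + α'.1, hne⟩, M + (α'.1 * t / (α.1 + α'.1)) • ev G x), ?_, ?_⟩
    · show e (α.1 • vv G M) + e (α'.1 • vv G M') = e ((α.1 + α'.1) • vv G _)
      rw [← map_add]
      congr 1
      rw [hM', vv_line, vv_line, smul_add, smul_add, smul_smul, smul_smul,
        mul_div_cancel₀ _ hne, add_smul, add_assoc]
    · refine ⟨?_, x, α'.1 * t / (α.1 + α'.1), by simp only [add_sub_cancel_left]⟩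
      intro h
      have h3 : α.1 = α.1 + α'.1 := congrArg Subtype.val h
      exact α'.2 (left_eq_add.mp h3)
  have hgen : AddSubgroup.closure (Set.range p) = ⊤ := by
    have h1 : Set.range p = (e.toAddEquiv.toAddMonoidHom) ''
        (Set.range fun a : Kn k × Module.Dual k G => a.1.1 • vv G a.2) := by
      rw [← Set.range_comp]
      rfl
    rw [h1, ← AddMonoidHom.map_closure, closure_vv]
    exact AddSubgroup.map_top_of_surjective _ e.surjective
  have hcK : Fintype.card (Kn k) = Fintype.card k - 1 := card_Kn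
  have hlam : LamLe (AA G) (max lam (1 / ((Fintype.card k : ℝ) - 2))) := by
    refine lamLe_prod (AA G) (BB G) ?_ (by omega) ?_ ?_ _ ?_ ?_
    · intro a a'
      rw [mem_BB]
      rfl
    · exact ⟨0, Finset.mem_insert_self _ _⟩
    · intro δ hδ
      rw [mem_BB] at hδ ⊢
      obtain ⟨x, t, rfl⟩ := hδ
      exact ⟨x, -t, (neg_smul_ev G _ _).symm⟩
    · refine le_trans (le_of_eq ?_) (le_max_right _ _)
      rw [hcK, Nat.cast_sub (by omega)]
      push_cast
      congr 1
      ring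
    · intro ψ hψ
      exact char_bound G hQ hsep lam hz ψ hψ
  obtain ⟨Y, S, h1, h2, h3⟩ := exists_complex p (AA G) hinj h0 hK hgen _ hlam
  have hcW : Fintype.card (Module.Dual k G) = Fintype.card k ^ Module.finrank k G := by
    rw [Module.card_eq_pow_finrank (K := k), Subspace.dual_finrank_eq]
  refine ⟨n, Y, S, h1, h2, h3.trans ?_, ?_⟩
  · rw [Fintype.card_prod, hcK, hcW, pow_succ, mul_comm]
    exact Nat.mul_le_mul_left _ (Nat.sub_le _ _)
  · refine (dim_le G L hLG).trans ?_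
    have h4 : Fintype.card (Module.Dual k (Aff G)) =
        Fintype.card k ^ Module.finrank k (Module.Dual k (Aff G)) :=
      Module.card_eq_pow_finrank (K := k)
    have h5 : Fintype.card (Module.Dual k (Aff G)) = 2 ^ n := by
      have h6 := Module.card_eq_pow_finrank (K := ZMod 2) (V := Module.Dual k (Aff G))
      rwa [ZMod.card] at h6
    rw [h5] at h4
    have h6 : 2 ^ Module.finrank k (Module.Dual k (Aff G)) ≤ 2 ^ n := by
      rw [h4]
      exact Nat.pow_le_pow_left (by omega) _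
    exact (Nat.pow_le_pow_iff_right (by norm_num)).mp h6

end Pool.Agent.W12.Cay
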