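import Mathlib

/-!
# FL-D: measurable choice of an infinite branch (task of helper227)
-/

set_option autoImplicit false

namespace Pool.Agent.W12.FLBranch

open Classical

section
variable {Z : Type} [MeasurableSpace Z] (T : ℕ → Type)
  [∀ k, Finite (T k)] [∀ k, MeasurableSpace (T k)] [∀ k, DiscreteMeasurableSpace (T k)]
  (P : ℕ → Z → (∀ k, T k) → Prop)

/-- the first `k` coordinates of `w` extend to arbitrarily long branches -/
def Ext (k : ℕ) (z : Z) (w : ∀ k, T k) : Prop := ∀ K, ∃ ω, P K z ω ∧ ∀ j < k, ω j = w j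

theorem meas_Ext (ω0 : ∀ k, T k)
    (hloc : ∀ k z ω ω', (∀ j < k, ω j = ω' j) → P k z ω → P k z ω')
    (hmeas : ∀ k ω, MeasurableSet {z | P k z ω}) (k : ℕ) (w : ∀ k, T k) :
    MeasurableSet {z | Ext T P k z w} := by
  have h1 : {z | Ext T P k z w} = ⋂ K : ℕ, ⋃ v : (∀ j : Fin (max K k), T j),
      {z | P K z (fun j => if h : j < max K k then v ⟨j, h⟩ else ω0 j) ∧
        ∀ j < k, (fun j => if h : j < max K k then v ⟨j, h⟩ else ω0 j) j = w j} := by
    ext z
    simp only [Ext, Set.mem_ofPred_eq, Set.mem_iInter, Set.mem_iUnion]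
    refine forall_congr' fun K => ⟨?_, ?_⟩
    · rintro ⟨ω, h2, h3⟩
      refine ⟨fun j => ω j, ?_, ?_⟩
      · refine hloc K z ω _ (fun j hj => ?_) h2
        have : j < max K k := lt_max_of_lt_left hj
        simp only [this, dite_true]
      · intro j hj
        have : j < max K k := lt_max_of_lt_right hj
        simp only [this, dite_true]
        exact h3 j hj
    · rintro ⟨v, h2, h3⟩
      exact ⟨_, h2, h3⟩
  rw [h1]
  refine MeasurableSet.iInter fun K => MeasurableSet.iUnion fun v => ?_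
  exact (hmeas K _).inter (MeasurableSet.const _)

theorem Ext_step
    (hmono : ∀ k z ω, P (k + 1) z ω → P k z ω) {k : ℕ} {z : Z} {w : ∀ k, T k}
    (h : Ext T P k z w) : ∃ τ : T k, Ext T P (k + 1) z (Function.update w k τ) := by
  have hm : ∀ {a b : ℕ}, a ≤ b → ∀ ω, P b z ω → P a z ω := by
    intro a b hab
    induction hab with
    | refl => exact fun ω h => h
    | step _ ih => exact fun ω h => ih ω (hmono _ z ω h)
  by_contra hcon
  simp only [not_exists, Ext, not_forall] at hcon
  choose K hK using hcon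
  obtain ⟨M, hM⟩ : ∃ M, ∀ τ, K τ ≤ M := by
    obtain ⟨M, hM⟩ := (Set.finite_range K).bddAbove
    exact ⟨M, fun τ => hM ⟨τ, rfl⟩⟩
  obtain ⟨ω, h1, h2⟩ := h M
  refine hK (ω k) ω ⟨hm (hM _) ω h1, fun j hj => ?_⟩
  rcases Nat.lt_succ_iff_lt_or_eq.mp hj with h3 | h3
  · rw [Function.update_of_ne (by omega)]
    exact h2 j h3
  · subst h3
    rw [Function.update_self]

variable (ν : ∀ k, ℕ → T k)

/-- the condition of the choice -/
def Q (k : ℕ) (w : ∀ k, T k) (z : Z) (i : ℕ) : Prop :=
  Ext T P (k + 1) z (Function.update w k (ν k i)) ∨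
    ¬ ∃ i', Ext T P (k + 1) z (Function.update w k (ν k i'))

theorem Q_ex (k : ℕ) (w : ∀ k, T k) (z : Z) : ∃ i, Q T P ν k w z i := by
  by_cases h : ∃ i', Ext T P (k + 1) z (Function.update w k (ν k i'))
  · exact ⟨h.choose, Or.inl h.choose_spec⟩
  · exact ⟨0, Or.inr h⟩

/-- the least index -/
noncomputable def idx (k : ℕ) (w : ∀ k, T k) (z : Z) : ℕ := Nat.find (Q_ex T P ν k w z)

theorem meas_idx (ω0 : ∀ k, T k)
    (hloc : ∀ k z ω ω', (∀ j < k, ω j = ω' j) → P k z ω → P k z ω')
    (hmeas : ∀ k ω, MeasurableSet {z | P k z ω}) (k : ℕ) (w : ∀ k, T k) :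
    Measurable (idx T P ν k w) := by
  refine measurable_find (Q_ex T P ν k w) fun i => ?_
  refine (meas_Ext T P ω0 hloc hmeas _ _).union ?_
  have h1 : {z | ∃ i', Ext T P (k + 1) z (Function.update w k (ν k i'))} =
      ⋃ i', {z | Ext T P (k + 1) z (Function.update w k (ν k i'))} := by
    ext z
    simp
  have h2 : MeasurableSet {z | ∃ i', Ext T P (k + 1) z (Function.update w k (ν k i'))} := by
    rw [h1]
    exact MeasurableSet.iUnion fun i' => meas_Ext T P ω0 hloc hmeas _ _
  exact h2.compl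

/-- the branches -/
noncomputable def B (ω0 : ∀ k, T k) : ℕ → Z → ∀ k, T k
  | 0, _ => ω0
  | k + 1, z => Function.update (B ω0 k z) k (ν k (idx T P ν k (B ω0 k z) z))

theorem B_ge (ω0 : ∀ k, T k) (k : ℕ) (z : Z) (j : ℕ) (hj : k ≤ j) : B T P ν ω0 k z j = ω0 j := by
  induction k with
  | zero => rfl
  | succ k ih =>
    rw [B, Function.update_of_ne (by omega)]
    exact ih (by omega)

theorem B_lt (ω0 : ∀ k, T k) (k : ℕ) (z : Z) (j : ℕ) (hj : j < k) :
    B T P ν ω0 k z j = B T P ν ω0 (j + 1) z j := by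
  induction k with
  | zero => omega
  | succ k ih =>
    rcases Nat.lt_succ_iff_lt_or_eq.mp hj with h | h
    · rw [B, Function.update_of_ne (by omega)]
      exact ih h
    · subst h
      rfl

theorem meas_B (ω0 : ∀ k, T k)
    (hloc : ∀ k z ω ω', (∀ j < k, ω j = ω' j) → P k z ω → P k z ω')
    (hmeas : ∀ k ω, MeasurableSet {z | P k z ω}) (k : ℕ) :
    ∀ j, Measurable fun z => B T P ν ω0 k z j := by
  induction k with
  | zero => exact fun j => measurable_const
  | succ k ih =>
    intro j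
    by_cases hj : j = k
    · subst hj
      have h1 : (fun z => B T P ν ω0 (j + 1) z j) =
          fun z => ν j (idx T P ν j (B T P ν ω0 j z) z) := by
        funext z
        rw [B, Function.update_self]
      rw [h1]
      have hfin : {w : ∀ k, T k | ∀ i, j ≤ i → w i = ω0 i}.Finite := by
        have h2 : Function.Injective (fun (w : {w : ∀ k, T k | ∀ i, j ≤ i → w i = ω0 i})
            (i : Fin j) => w.1 i) := by
          intro w w' h
          refine Subtype.ext (funext fun i => ?_)
          rcases lt_or_ge i j with hi | hi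
          · exact congrFun h ⟨i, hi⟩
          · rw [w.2 i hi, w'.2 i hi]
        exact Finite.of_injective _ h2
      refine measurable_to_countable' fun τ => ?_
      have h3 : (fun z => ν j (idx T P ν j (B T P ν ω0 j z) z)) ⁻¹' {τ} =
          ⋃ w ∈ {w : ∀ k, T k | ∀ i, j ≤ i → w i = ω0 i},
            ({z | B T P ν ω0 j z = w} ∩ {z | ν j (idx T P ν j w z) = τ}) := by
        ext z
        simp only [Set.mem_preimage, Set.mem_singleton_iff, Set.mem_iUnion, Set.mem_inter_iff,
          Set.mem_ofPred_eq, exists_prop]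
        constructor
        · intro h
          exact ⟨_, fun i hi => B_ge T P ν ω0 j z i hi, rfl, h⟩
        · rintro ⟨w, _, h4, h5⟩
          rw [h4]
          exact h5
      rw [h3]
      refine hfin.measurableSet_biUnion fun w _ => MeasurableSet.inter ?_ ?_
      · have h4 : {z | B T P ν ω0 j z = w} = ⋂ i, {z | B T P ν ω0 j z i = w i} := by
          ext z
          simp [funext_iff]
        rw [h4]
        exact MeasurableSet.iInter fun i => (ih i) (MeasurableSet.singleton (w i))
      · have h5 : Measurable fun z => ν j (idx T P ν j w z) :=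
          (measurable_from_nat (f := ν j)).comp (meas_idx T P ν ω0 hloc hmeas j w)
        exact h5 (MeasurableSet.singleton τ)
    · have h1 : (fun z => B T P ν ω0 (k + 1) z j) = fun z => B T P ν ω0 k z j := by
        funext z
        rw [B, Function.update_of_ne hj]
      rw [h1]
      exact ih j

theorem Ext_B (hν : ∀ k, Function.Surjective (ν k)) (ω0 : ∀ k, T k)
    (hmono : ∀ k z ω, P (k + 1) z ω → P k z ω) (hne : ∀ k z, ∃ ω, P k z ω) (k : ℕ) (z : Z) :
    Ext T P k z (B T P ν ω0 k z) := by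
  induction k with
  | zero =>
    intro K
    obtain ⟨ω, h⟩ := hne K z
    exact ⟨ω, h, fun j hj => absurd hj (Nat.not_lt_zero j)⟩
  | succ k ih =>
    obtain ⟨τ, hτ⟩ := Ext_step T P hmono ih
    obtain ⟨i, rfl⟩ := hν k τ
    have h1 := Nat.find_spec (Q_ex T P ν k (B T P ν ω0 k z) z)
    rcases h1 with h1 | h1
    · exact h1
    · exact absurd ⟨i, hτ⟩ h1

end

theorem exists_measurable_branch {Z : Type} [MeasurableSpace Z] (T : ℕ → Type)
    [∀ k, Finite (T k)] [∀ k, MeasurableSpace (T k)] [∀ k, DiscreteMeasurableSpace (T k)]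
    (P : ℕ → Z → (∀ k, T k) → Prop)
    (hloc : ∀ k z ω ω', (∀ j < k, ω j = ω' j) → P k z ω → P k z ω')
    (hmono : ∀ k z ω, P (k + 1) z ω → P k z ω)
    (hmeas : ∀ k ω, MeasurableSet {z | P k z ω})
    (hne : ∀ k z, ∃ ω, P k z ω) :
    ∃ b : Z → ∀ k, T k, (∀ k, Measurable fun z => b z k) ∧ ∀ z k, P k z (b z) := by
  rcases isEmpty_or_nonempty Z with hZ | ⟨⟨z0⟩⟩
  · refine ⟨fun z => hZ.elim z, fun k => measurable_of_empty _, fun z => hZ.elim z⟩
  · obtain ⟨ω0, -⟩ := hne 0 z0
    have hν : ∀ k, ∃ ν : ℕ → T k, Function.Surjective ν := by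
      intro k
      haveI : Nonempty (T k) := ⟨ω0 k⟩
      exact exists_surjective_nat (T k)
    choose ν hν using hν
    refine ⟨fun z k => B T P ν ω0 (k + 1) z k,
      fun k => meas_B T P ν ω0 hloc hmeas (k + 1) k, fun z k => ?_⟩
    obtain ⟨ω, h1, h2⟩ := Ext_B T P ν hν ω0 hmono hne k z k
    refine hloc k z ω _ (fun j hj => ?_) h1
    rw [h2 j hj, B_lt T P ν ω0 k z j hj]

end Pool.Agent.W12.FLBranch
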