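import Pool.Agent.W12.KdStar

/-! Growth condition (B) of the project KD. -/

set_option autoImplicit false
open Classical

namespace Pool.Agent.W12.KdConB

open Pool.Agent.H362C Pool.Agent.W827.Kd Pool.Agent.W12.KdStar

noncomputable section

theorem sum_theta (O : Finset ℕ) (th : ℝ) : ∑ X ∈ O.powerset, th ^ X.card = (1 + th) ^ O.card := by
  have := Finset.sum_pow_mul_eq_add_pow th 1 O
  simp only [one_pow, mul_one] at this
  rw [this, add_comm]

theorem prod_ind (W : Finset ℕ) (P : ℕ → Prop) [DecidablePred P] (a : ℝ) :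
    ∏ z ∈ W, ind (P z) a 1 = a ^ (W.filter P).card := by
  induction W using Finset.induction_on with
  | empty => simp
  | insert z W hz ih =>
    rw [Finset.prod_insert hz, ih, Finset.filter_insert]
    by_cases h : P z
    · rw [if_pos h, ind_pos h, Finset.card_insert_of_notMem
        (fun h' => hz (Finset.mem_filter.1 h').1), pow_succ]
      ring
    · rw [if_neg h, ind_neg h, one_mul]

/-- the pairs between `X` and `Y` -/
def bip (X Y : Finset ℕ) : Finset (Sym2 ℕ) := (X ×ˢ Y).image (fun z => s(z.1, z.2))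

theorem mem_bip {X Y : Finset ℕ} {e : Sym2 ℕ} : e ∈ bip X Y ↔ ∃ x ∈ X, ∃ y ∈ Y, s(x, y) = e := by
  unfold bip
  rw [Finset.mem_image]
  constructor
  · rintro ⟨⟨x, y⟩, h, rfl⟩
    rw [Finset.mem_product] at h
    exact ⟨x, h.1, y, h.2, rfl⟩
  · rintro ⟨x, hx, y, hy, rfl⟩
    exact ⟨(x, y), Finset.mem_product.2 ⟨hx, hy⟩, rfl⟩

theorem bip_card {X Y : Finset ℕ} (h : Disjoint X Y) : (bip X Y).card = X.card * Y.card := by
  unfold bip
  rw [Finset.card_image_of_injOn, Finset.card_product]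
  intro a ha b hb hab
  rw [Finset.mem_coe, Finset.mem_product] at ha hb
  have hab' : s(a.1, a.2) = s(b.1, b.2) := hab
  rcases Sym2.eq_iff.mp hab' with ⟨h3, h4⟩ | ⟨h3, h4⟩
  · exact Prod.ext h3 h4
  · exact absurd hb.2 (h3 ▸ Finset.disjoint_left.1 h ha.1)

/-- a fixed set `L` is disconnected with small probability -/
theorem disc_le {p : ℝ} (h0 : 0 ≤ p) (h1 : p ≤ 1) (V : Finset (Sym2 ℕ)) (L : Finset ℕ)
    (hV : ∀ x ∈ L, ∀ z ∈ L, x ≠ z → s(x, z) ∈ V) :
    Pr p V (fun E => ∃ X, X ⊆ L ∧ X.Nonempty ∧ X ≠ L ∧ ∀ x ∈ X, ∀ z ∈ L, z ∉ X → s(x, z) ∉ E) ≤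
      2 * L.card * Real.exp (-(p * L.card / 2)) := by
  set k := L.card with hk
  set th := Real.exp (-(p * k / 2)) with hth
  have hth0 : 0 < th := Real.exp_pos _
  by_cases hbig : 1 / 2 < (k : ℝ) * th
  · refine (Pr_le_one h0 h1 _ _).trans ?_
    nlinarith
  push Not at hbig
  have step1 : Pr p V (fun E => ∃ X, X ⊆ L ∧ X.Nonempty ∧ X ≠ L ∧
        ∀ x ∈ X, ∀ z ∈ L, z ∉ X → s(x, z) ∉ E) ≤
      Pr p V (fun E => ∃ X ∈ (L.powerset.filter (fun X => X.Nonempty ∧ 2 * X.card ≤ k)),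
        ∀ f ∈ bip X (L \ X), f ∉ E) := by
    apply Pr_mono h0 h1
    rintro E _ ⟨X, hX, hne, hneq, hcl⟩
    by_cases hc : 2 * X.card ≤ k
    · refine ⟨X, ?_, ?_⟩
      · rw [Finset.mem_filter, Finset.mem_powerset]
        exact ⟨hX, hne, hc⟩
      · intro f hf
        rw [mem_bip] at hf
        obtain ⟨x, hx, y, hy, rfl⟩ := hf
        rw [Finset.mem_sdiff] at hy
        exact hcl x hx y hy.1 hy.2
    · refine ⟨L \ X, ?_, ?_⟩
      · rw [Finset.mem_filter, Finset.mem_powerset]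
        refine ⟨Finset.sdiff_subset, ?_, ?_⟩
        · rw [Finset.sdiff_nonempty]
          intro h
          exact hneq (Finset.Subset.antisymm hX h)
        · have := Finset.card_sdiff_add_card_eq_card hX
          omega
      · intro f hf
        rw [mem_bip] at hf
        obtain ⟨x, hx, y, hy, rfl⟩ := hf
        rw [Finset.mem_sdiff] at hx hy
        have hyX : y ∈ X := by
          by_contra hcon
          exact hy.2 (Finset.mem_sdiff.2 ⟨hy.1, hcon⟩)
        rw [Sym2.eq_swap]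
        exact hcl y hyX x hx.1 hx.2
  refine step1.trans ((Pr_exists_le h0 h1 _ _).trans ?_)
  have step2 : ∀ X ∈ (L.powerset.filter (fun X => X.Nonempty ∧ 2 * X.card ≤ k)),
      Pr p V (fun E => ∀ f ∈ bip X (L \ X), f ∉ E) ≤ th ^ X.card := by
    intro X hX
    rw [Finset.mem_filter, Finset.mem_powerset] at hX
    obtain ⟨hXL, _, hXc⟩ := hX
    have hsub : bip X (L \ X) ⊆ V := by
      intro f hf
      rw [mem_bip] at hf
      obtain ⟨x, hx, y, hy, rfl⟩ := hf
      rw [Finset.mem_sdiff] at hy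
      exact hV x (hXL hx) y hy.1 (fun h => hy.2 (h ▸ hx))
    rw [Pr_disjoint p _ _ hsub, bip_card Finset.disjoint_sdiff]
    have hcard := Finset.card_sdiff_add_card_eq_card hXL
    have h3 : (k:ℝ) / 2 ≤ ((L \ X).card : ℝ) := by
      have h4 : k ≤ 2 * (L \ X).card := by omega
      have h5 : (k:ℝ) ≤ 2 * ((L \ X).card : ℝ) := by exact_mod_cast h4
      linarith
    calc (1 - p) ^ (X.card * (L \ X).card) ≤ Real.exp (-(p * ((X.card * (L \ X).card : ℕ) : ℝ))) :=
          one_sub_pow_le h1 _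
      _ ≤ Real.exp ((X.card : ℝ) * (-(p * k / 2))) := by
          apply Real.exp_le_exp.2
          push_cast
          have h6 : (0:ℝ) ≤ p * X.card := by positivity
          nlinarith [mul_le_mul_of_nonneg_left h3 h6]
      _ = th ^ X.card := by rw [hth, ← Real.exp_nat_mul]
  refine (Finset.sum_le_sum step2).trans ?_
  have step3 : ∑ X ∈ (L.powerset.filter (fun X => X.Nonempty ∧ 2 * X.card ≤ k)), th ^ X.card + 1 ≤
      ∑ X ∈ L.powerset, th ^ X.card := by
    have h4 : (L.powerset.filter (fun X => X.Nonempty ∧ 2 * X.card ≤ k)) ⊆ L.powerset.erase ∅ := by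
      intro X hX
      rw [Finset.mem_filter] at hX
      rw [Finset.mem_erase]
      exact ⟨hX.2.1.ne_empty, hX.1⟩
    have h5 := Finset.sum_erase_add L.powerset (fun X : Finset ℕ => th ^ X.card)
      (Finset.empty_mem_powerset L)
    have h6 : ∑ X ∈ (L.powerset.filter (fun X => X.Nonempty ∧ 2 * X.card ≤ k)), th ^ X.card ≤
        ∑ X ∈ L.powerset.erase ∅, th ^ X.card :=
      Finset.sum_le_sum_of_subset_of_nonneg h4 (fun _ _ _ => by positivity)
    simp only [Finset.card_empty, pow_zero] at h5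
    linarith
  rw [sum_theta] at step3
  have h7 : (1 + th) ^ L.card ≤ Real.exp (k * th) := by
    rw [← hk, Real.exp_nat_mul]
    apply pow_le_pow_left₀ (by positivity)
    have := Real.add_one_le_exp th
    linarith
  have h8 : Real.exp (k * th) ≤ 1 + 2 * (k * th) := by
    set x := (k:ℝ) * th with hx
    have hx0 : 0 ≤ x := by positivity
    have h9 : 1 - x ≤ Real.exp (-x) := by
      have := Real.add_one_le_exp (-x)
      linarith
    have h10 : Real.exp x * Real.exp (-x) = 1 := by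
      rw [← Real.exp_add]; simp
    have h11 : 0 < Real.exp x := Real.exp_pos x
    have h12 : Real.exp x * (1 - x) ≤ 1 := by
      calc Real.exp x * (1 - x) ≤ Real.exp x * Real.exp (-x) :=
            mul_le_mul_of_nonneg_left h9 h11.le
        _ = 1 := h10
    have h13 : 1 ≤ (1 + 2 * x) * (1 - x) := by nlinarith
    by_contra hcon
    push Not at hcon
    have h14 : (1 + 2 * x) * (1 - x) < Real.exp x * (1 - x) :=
      mul_lt_mul_of_pos_right hcon (by linarith)
    linarith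
  have h9 : (2:ℝ) * k * th = 2 * (k * th) := by ring
  rw [h9]
  linarith

/-- probability that the common neighbourhood of `F` in the window is disconnected -/
theorem fail_one {p : ℝ} (h0 : 0 < p) (h1 : p ≤ 1) {D lo hi a l : ℕ} {F : Finset ℕ}
    (hF : F ⊆ Finset.Icc lo hi) (hc : F.card = D) (ha : lo ≤ a) (hl : a + l ≤ hi + 1)
    (hl1 : 1 ≤ l) :
    Pr p (Ui lo hi) (fun E => ∃ X, X ⊆ cnb E (Finset.Ico a (a + l)) F ∧ X.Nonempty ∧
        X ≠ cnb E (Finset.Ico a (a + l)) F ∧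
        ∀ x ∈ X, ∀ z ∈ cnb E (Finset.Ico a (a + l)) F, z ∉ X → s(x, z) ∉ E) ≤
      5 * Real.exp D * ((hi:ℝ) - lo + 1) * Real.exp (-(p ^ (D + 1) * l / 16)) := by
  set W := Wd a l F with hW
  set S : Finset (Sym2 ℕ) := W.biUnion (star F) with hS
  set N : ℝ := (hi:ℝ) - lo + 1 with hN
  have hz : ∀ z ∈ W, lo ≤ z ∧ z ≤ hi ∧ z ∉ F := by
    intro z hz
    rw [hW, mem_Wd] at hz
    exact ⟨by omega, by omega, hz.2⟩
  have hlN : (l : ℝ) ≤ N := by
    have h2 : (a:ℝ) + l ≤ hi + 1 := by exact_mod_cast hl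
    have h3 : (lo:ℝ) ≤ a := by exact_mod_cast ha
    rw [hN]; linarith
  have hl1' : (1:ℝ) ≤ l := by exact_mod_cast hl1
  have hN1 : (1:ℝ) ≤ N := hl1'.trans hlN
  have hSU : S ⊆ Ui lo hi := by
    rw [hS, Finset.biUnion_subset]
    intro z hz'
    exact star_Ui hF (hz z hz').2.2 (hz z hz').1 (hz z hz').2.1
  have hWl : (W.card : ℝ) ≤ l := by
    have h2 : W.card ≤ (Finset.Ico a (a + l)).card :=
      Finset.card_le_card Finset.sdiff_subset
    rw [Nat.card_Ico] at h2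
    have h3 : W.card ≤ l := by omega
    exact_mod_cast h3
  have hwl := Wd_card (a := a) (l := l) (F := F)
  rw [← hW, hc] at hwl
  set w : ℝ := (W.card : ℝ) with hw
  have hw0 : 0 ≤ w := by rw [hw]; positivity
  set h : ℕ := ⌊w * p ^ D / 8⌋₊ with hh
  have hpD : 0 < p ^ D := pow_pos h0 _
  have hpD1 : p ^ D ≤ 1 := pow_le_one₀ h0.le h1
  have hh1 : (h:ℝ) ≤ w * p ^ D / 8 := Nat.floor_le (by positivity)
  have hh2 : w * p ^ D / 8 < h + 1 := Nat.lt_floor_add_one _
  -- splitting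
  have hsplit := Pr_union p S (Ui lo hi \ S) Finset.disjoint_sdiff
    (fun E => ∃ X, X ⊆ cnb E (Finset.Ico a (a + l)) F ∧ X.Nonempty ∧
        X ≠ cnb E (Finset.Ico a (a + l)) F ∧
        ∀ x ∈ X, ∀ z ∈ cnb E (Finset.Ico a (a + l)) F, z ∉ X → s(x, z) ∉ E)
  rw [Finset.union_sdiff_of_subset hSU] at hsplit
  rw [hsplit]
  have hloc : ∀ E1 ⊆ S, ∀ E2 ⊆ Ui lo hi \ S, cnb (E1 ∪ E2) (Finset.Ico a (a + l)) F =
      W.filter (fun z => star F z ⊆ E1) := by
    intro E1 hE1 E2 hE2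
    rw [cnb_eq, ← hW]
    apply Finset.filter_congr
    intro z hz'
    constructor
    · intro hs e he
      rcases Finset.mem_union.1 (hs he) with h' | h'
      · exact h'
      · exfalso
        refine (Finset.mem_sdiff.1 (hE2 h')).2 ?_
        rw [hS, Finset.mem_biUnion]
        exact ⟨z, hz', he⟩
    · intro hs
      exact hs.trans Finset.subset_union_left
  have hpt : ∀ E1 ⊆ S, Pr p (Ui lo hi \ S) (fun E2 =>
      ∃ X, X ⊆ cnb (E1 ∪ E2) (Finset.Ico a (a + l)) F ∧ X.Nonempty ∧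
        X ≠ cnb (E1 ∪ E2) (Finset.Ico a (a + l)) F ∧
        ∀ x ∈ X, ∀ z ∈ cnb (E1 ∪ E2) (Finset.Ico a (a + l)) F, z ∉ X → s(x, z) ∉ E1 ∪ E2) ≤
      2 ^ h * (∏ z ∈ W, ind (star F z ⊆ E1) (1/2) 1) + 2 * N * Real.exp (-(p * h / 2)) := by
    intro E1 hE1
    set L := W.filter (fun z => star F z ⊆ E1) with hL
    have hprod : (∏ z ∈ W, ind (star F z ⊆ E1) (1/2) 1) = (1/2:ℝ) ^ L.card := by
      exact prod_ind W (fun z => star F z ⊆ E1) (1/2)
    have hLW : L ⊆ W := Finset.filter_subset _ _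
    by_cases hLh : L.card < h
    · refine (Pr_le_one h0.le h1 _ _).trans ?_
      rw [hprod]
      have h3 : (2:ℝ) ^ L.card * (1/2) ^ L.card = 1 := by
        rw [← mul_pow]; norm_num
      have h4 : (2:ℝ) ^ L.card ≤ 2 ^ h := pow_le_pow_right₀ (by norm_num) hLh.le
      have h5 : (2:ℝ) ^ L.card * (1/2) ^ L.card ≤ 2 ^ h * (1/2) ^ L.card :=
        mul_le_mul_of_nonneg_right h4 (by positivity)
      have h6 : 0 ≤ 2 * N * Real.exp (-(p * h / 2)) := by positivity
      linarith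
    · push Not at hLh
      have h7 : Pr p (Ui lo hi \ S) (fun E2 =>
          ∃ X, X ⊆ cnb (E1 ∪ E2) (Finset.Ico a (a + l)) F ∧ X.Nonempty ∧
          X ≠ cnb (E1 ∪ E2) (Finset.Ico a (a + l)) F ∧
          ∀ x ∈ X, ∀ z ∈ cnb (E1 ∪ E2) (Finset.Ico a (a + l)) F, z ∉ X → s(x, z) ∉ E1 ∪ E2) ≤
          Pr p (Ui lo hi \ S) (fun E => ∃ X, X ⊆ L ∧ X.Nonempty ∧ X ≠ L ∧
            ∀ x ∈ X, ∀ z ∈ L, z ∉ X → s(x, z) ∉ E) := by
        apply Pr_mono h0.le h1
        rintro E2 hE2 ⟨X, hX1, hX2, hX3, hX4⟩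
        rw [hloc E1 hE1 E2 hE2] at hX1 hX3 hX4
        exact ⟨X, hX1, hX2, hX3, fun x hx z hz' hzX hcon =>
          hX4 x hx z hz' hzX (Finset.mem_union_right _ hcon)⟩
      have hV : ∀ x ∈ L, ∀ z ∈ L, x ≠ z → s(x, z) ∈ Ui lo hi \ S := by
        intro x hx z hz' hne
        have hx' := hz x (hLW hx)
        have hz'' := hz z (hLW hz')
        rw [Finset.mem_sdiff]
        refine ⟨mem_Ui.2 ⟨hne, ⟨hx'.1, hx'.2.1⟩, hz''.1, hz''.2.1⟩, ?_⟩
        intro hcon
        rw [hS, Finset.mem_biUnion] at hcon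
        obtain ⟨y, _, hy2⟩ := hcon
        unfold KdStar.star at hy2
        rw [Finset.mem_image] at hy2
        obtain ⟨u, hu, hue⟩ := hy2
        rcases Sym2.eq_iff.mp hue with ⟨h3, _⟩ | ⟨h3, _⟩
        · exact hx'.2.2 (h3 ▸ hu)
        · exact hz''.2.2 (h3 ▸ hu)
      refine h7.trans ((disc_le h0.le h1 _ L hV).trans ?_)
      have h8 : (L.card : ℝ) ≤ N := by
        have h9 : L.card ≤ W.card := Finset.card_le_card hLW
        have h10 : (L.card : ℝ) ≤ W.card := by exact_mod_cast h9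
        linarith
      have h9 : Real.exp (-(p * L.card / 2)) ≤ Real.exp (-(p * h / 2)) := by
        apply Real.exp_le_exp.2
        have h10 : (h:ℝ) ≤ L.card := by exact_mod_cast hLh
        nlinarith
      have h10 : 0 ≤ 2 ^ h * (∏ z ∈ W, ind (star F z ⊆ E1) (1/2) 1) := by
        rw [hprod]; positivity
      calc 2 * (L.card : ℝ) * Real.exp (-(p * L.card / 2)) ≤ 2 * N * Real.exp (-(p * h / 2)) := by
            gcongr
        _ ≤ _ := by linarith
  refine (Ex_mono h0.le h1 hpt).trans ?_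
  rw [Ex_add, Ex_mul_left, Ex_const]
  have hst := Ex_stars p W (star F) (1/2) 1 S
    (fun z hz' => by rw [hS]; exact Finset.subset_biUnion_of_mem (star F) hz')
    (fun z _ z' hz' hne => star_disj (hz z' hz').2.2 hne)
  rw [hst]
  have e2 : ∀ z ∈ W, (p ^ (star F z).card * (1/2) + (1 - p ^ (star F z).card) * 1) =
      1 - p ^ D / 2 := by
    intro z _
    rw [star_card, hc]; ring
  rw [Finset.prod_congr rfl e2, Finset.prod_const]
  have t1 : (1 - p ^ D / 2) ^ W.card ≤ Real.exp (-(p ^ D / 2 * w)) :=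
    one_sub_pow_le (by linarith) _
  have t2 : (2:ℝ) ^ h ≤ Real.exp h := by
    have h3 : (2:ℝ) ≤ Real.exp 1 := by
      have := Real.add_one_le_exp (1:ℝ)
      linarith
    calc (2:ℝ) ^ h ≤ (Real.exp 1) ^ h := pow_le_pow_left₀ (by norm_num) h3 _
      _ = Real.exp h := by rw [← Real.exp_nat_mul]; simp
  have hp1 : p ^ (D + 1) = p ^ D * p := pow_succ p D
  have hq0 : 0 ≤ p ^ (D + 1) := by positivity
  have hq1 : p ^ (D + 1) ≤ 1 := pow_le_one₀ h0.le h1
  have hqD : p ^ (D + 1) ≤ p ^ D := by rw [hp1]; nlinarith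
  have t3 : (2:ℝ) ^ h * (1 - p ^ D / 2) ^ W.card ≤ Real.exp (-(p ^ (D + 1) * w / 16)) := by
    calc (2:ℝ) ^ h * (1 - p ^ D / 2) ^ W.card ≤ Real.exp h * Real.exp (-(p ^ D / 2 * w)) := by
          apply mul_le_mul t2 t1 _ (Real.exp_pos _).le
          apply pow_nonneg; linarith
      _ = Real.exp (h + -(p ^ D / 2 * w)) := (Real.exp_add _ _).symm
      _ ≤ _ := by
          apply Real.exp_le_exp.2
          have h5 : p ^ (D + 1) * w ≤ p ^ D * w := mul_le_mul_of_nonneg_right hqD hw0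
          nlinarith
  have t4 : Real.exp (-(p * h / 2)) ≤ 2 * Real.exp (-(p ^ (D + 1) * w / 16)) := by
    have h3 : Real.exp (1/2) ≤ 2 := by
      have h9 : 1 - (1/2:ℝ) ≤ Real.exp (-(1/2)) := by
        have := Real.add_one_le_exp (-(1/2:ℝ))
        linarith
      have h10 : Real.exp (1/2) * Real.exp (-(1/2)) = 1 := by
        rw [← Real.exp_add]; simp
      have h11 := Real.exp_pos (1/2)
      nlinarith
    calc Real.exp (-(p * h / 2)) ≤ Real.exp (1/2 + -(p ^ (D + 1) * w / 16)) := by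
          apply Real.exp_le_exp.2
          rw [hp1]
          nlinarith
      _ = Real.exp (1/2) * Real.exp (-(p ^ (D + 1) * w / 16)) := Real.exp_add _ _
      _ ≤ _ := mul_le_mul_of_nonneg_right h3 (Real.exp_pos _).le
  have t5 : Real.exp (-(p ^ (D + 1) * w / 16)) ≤
      Real.exp D * Real.exp (-(p ^ (D + 1) * l / 16)) := by
    rw [← Real.exp_add]
    apply Real.exp_le_exp.2
    have hD0 : (0:ℝ) ≤ D := Nat.cast_nonneg _
    nlinarith [mul_le_mul_of_nonneg_left hwl hq0, mul_le_mul_of_nonneg_right hq1 hD0]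
  have hX0 := Real.exp_pos (-(p ^ (D + 1) * w / 16))
  calc 2 ^ h * (1 - p ^ D / 2) ^ W.card + 2 * N * Real.exp (-(p * h / 2))
      ≤ Real.exp (-(p ^ (D + 1) * w / 16)) + 2 * N * (2 * Real.exp (-(p ^ (D + 1) * w / 16))) := by
        gcongr
    _ ≤ 5 * N * Real.exp (-(p ^ (D + 1) * w / 16)) := by nlinarith
    _ ≤ 5 * N * (Real.exp D * Real.exp (-(p ^ (D + 1) * l / 16))) := by
        gcongr
    _ = _ := by ring

theorem main : S_condB := by
  intro D _
  refine ⟨1 / (80 * ((D:ℝ) + 2) * Real.exp D), by positivity, ?_⟩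
  intro p lo hi l h0 h1 hl hlo
  set c : ℝ := 1 / (80 * ((D:ℝ) + 2) * Real.exp D) with hc
  have hE1 : 1 ≤ Real.exp (D:ℝ) := Real.one_le_exp (by positivity)
  have hc1 : c ≤ 1 / 16 := by
    rw [hc]
    apply one_div_le_one_div_of_le (by norm_num)
    have hD0 : (0:ℝ) ≤ D := Nat.cast_nonneg _
    nlinarith
  have hcinv : 1 / c = 80 * ((D:ℝ) + 2) * Real.exp D := by
    rw [hc, one_div_one_div]
  have hlohi : lo ≤ hi := by omega
  set I := ((Finset.Icc lo hi) ×ˢ (Finset.Icc lo hi).powerset).filter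
      (fun q => q.2.card ≤ D + 1) with hI
  have step1 : Pr p (Ui lo hi) (fun E => ¬ CondB D lo hi E l) ≤
      Pr p (Ui lo hi) (fun E => ∃ q ∈ I.filter (fun q => q.1 + l ≤ hi + 1 ∧ q.2.card = D),
        ∃ X, X ⊆ cnb E (Finset.Ico q.1 (q.1 + l)) q.2 ∧ X.Nonempty ∧
        X ≠ cnb E (Finset.Ico q.1 (q.1 + l)) q.2 ∧
        ∀ x ∈ X, ∀ z ∈ cnb E (Finset.Ico q.1 (q.1 + l)) q.2, z ∉ X → s(x, z) ∉ E) := by
    apply Pr_mono h0.le h1
    intro E _ hE
    unfold CondB at hE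
    push Not at hE
    obtain ⟨a, ha, hal, F, hF, hFc, X, hX1, hX2, hX3, hX4⟩ := hE
    refine ⟨(a, F), ?_, X, hX1, hX2, hX3, fun x hx z hz hzX => hX4 x hx z hz hzX⟩
    rw [Finset.mem_filter, hI, Finset.mem_filter, Finset.mem_product, Finset.mem_Icc,
        Finset.mem_powerset]
    exact ⟨⟨⟨⟨ha, by show a ≤ hi; omega⟩, hF⟩, by show F.card ≤ D + 1; omega⟩, hal, hFc⟩
  refine step1.trans ((Pr_exists_le h0.le h1 _ _).trans ?_)
  have step2 : ∀ q ∈ I.filter (fun q => q.1 + l ≤ hi + 1 ∧ q.2.card = D),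
      Pr p (Ui lo hi) (fun E => ∃ X, X ⊆ cnb E (Finset.Ico q.1 (q.1 + l)) q.2 ∧ X.Nonempty ∧
        X ≠ cnb E (Finset.Ico q.1 (q.1 + l)) q.2 ∧
        ∀ x ∈ X, ∀ z ∈ cnb E (Finset.Ico q.1 (q.1 + l)) q.2, z ∉ X → s(x, z) ∉ E) ≤
      5 * Real.exp D * ((hi:ℝ) - lo + 1) * Real.exp (-(p ^ (D + 1) * l / 16)) := by
    intro q hq
    rw [Finset.mem_filter, hI, Finset.mem_filter, Finset.mem_product, Finset.mem_Icc,
        Finset.mem_powerset] at hq
    exact fail_one h0 h1 hq.1.1.2 hq.2.2 hq.1.1.1.1 hq.2.1 hl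
  refine (Finset.sum_le_sum step2).trans ?_
  rw [Finset.sum_const, nsmul_eq_mul]
  have h3 : ((I.filter (fun q => q.1 + l ≤ hi + 1 ∧ q.2.card = D)).card : ℝ) ≤
      ((D:ℝ) + 2) * ((hi:ℝ) - lo + 1) ^ (D + 2) := by
    refine le_trans ?_ (card_idx (D := D) hlohi)
    exact_mod_cast Finset.card_le_card (Finset.filter_subset _ _)
  have hN1 : (1:ℝ) ≤ (hi:ℝ) - lo + 1 := by
    have : (lo:ℝ) ≤ hi := by exact_mod_cast hlohi
    linarith
  have h5 : Real.exp (-(p ^ (D + 1) * l / 16)) ≤ Real.exp (-(c * p ^ (D + 1) * l)) := by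
    apply Real.exp_le_exp.2
    have : 0 ≤ p ^ (D + 1) * l := by positivity
    nlinarith
  rw [hcinv]
  calc _ ≤ (((D:ℝ) + 2) * ((hi:ℝ) - lo + 1) ^ (D + 2)) *
        (5 * Real.exp D * ((hi:ℝ) - lo + 1) * Real.exp (-(p ^ (D + 1) * l / 16))) :=
        mul_le_mul_of_nonneg_right h3 (by positivity)
    _ ≤ (((D:ℝ) + 2) * ((hi:ℝ) - lo + 1) ^ (D + 2)) *
        (80 * Real.exp D * ((hi:ℝ) - lo + 1) * Real.exp (-(c * p ^ (D + 1) * l))) := by
        gcongr
        norm_num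
    _ = _ := by ring

end

end Pool.Agent.W12.KdConB
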