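import Pool.Agent.W827.Kd.Basic

/-! Stars of pairs: product formula and the growth condition (A) of the project KD. -/

set_option autoImplicit false
open Classical

namespace Pool.Agent.W12.KdStar

open Pool.Agent.H362C Pool.Agent.W827.Kd

noncomputable section

/-- if-then-else with the classical instance -/
def ind (P : Prop) (a b : ℝ) : ℝ := if P then a else b

theorem ind_pos {P : Prop} (h : P) (a b : ℝ) : ind P a b = a := if_pos h

theorem ind_neg {P : Prop} (h : ¬ P) (a b : ℝ) : ind P a b = b := if_neg h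

/-- product formula for pairwise disjoint sets -/
theorem Ex_stars {α ι : Type*} (p : ℝ) (W : Finset ι) (A : ι → Finset α) (a b : ℝ) :
    ∀ (U : Finset α), (∀ z ∈ W, A z ⊆ U) →
    (∀ z ∈ W, ∀ z' ∈ W, z ≠ z' → Disjoint (A z) (A z')) →
    Ex p U (fun E => ∏ z ∈ W, ind (A z ⊆ E) a b) =
      ∏ z ∈ W, (p ^ (A z).card * a + (1 - p ^ (A z).card) * b) := by
  induction W using Finset.induction_on with
  | empty =>
    intro U _ _
    simp only [Finset.prod_empty]
    exact Ex_const p U 1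
  | insert z0 W hz0 ih =>
    intro U hU hd
    have h0 : A z0 ⊆ U := hU z0 (Finset.mem_insert_self _ _)
    have hIH := ih (U \ A z0) (fun z hz => by
      refine Finset.subset_sdiff.2 ⟨hU z (Finset.mem_insert_of_mem hz), ?_⟩
      exact hd z (Finset.mem_insert_of_mem hz) z0 (Finset.mem_insert_self _ _)
        (fun h => hz0 (h ▸ hz)))
      (fun z hz z' hz' hne => hd z (Finset.mem_insert_of_mem hz) z' (Finset.mem_insert_of_mem hz') hne)
    have hsp := Ex_union p (A z0) (U \ A z0) Finset.disjoint_sdiff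
      (fun E => ∏ z ∈ insert z0 W, ind (A z ⊆ E) a b)
    rw [Finset.union_sdiff_of_subset h0] at hsp
    rw [hsp, Finset.prod_insert hz0, ← hIH]
    have h1 : ∀ E1 ⊆ A z0, Ex p (U \ A z0)
        (fun E2 => ∏ z ∈ insert z0 W, ind (A z ⊆ E1 ∪ E2) a b) =
        Ex p (U \ A z0) (fun E => ∏ z ∈ W, ind (A z ⊆ E) a b) * b +
        Ex p (U \ A z0) (fun E => ∏ z ∈ W, ind (A z ⊆ E) a b) * (a - b) *
          ind (A z0 ⊆ E1) 1 0 := by
      intro E1 hE1
      have h2 : Ex p (U \ A z0)
        (fun E2 => ∏ z ∈ insert z0 W, ind (A z ⊆ E1 ∪ E2) a b) =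
        Ex p (U \ A z0) (fun E2 => (ind (A z0 ⊆ E1) a b) *
          ∏ z ∈ W, ind (A z ⊆ E2) a b) := by
        apply Ex_congr
        intro E2 hE2
        rw [Finset.prod_insert hz0]
        congr 1
        · have : A z0 ⊆ E1 ∪ E2 ↔ A z0 ⊆ E1 := by
            constructor
            · intro h e he
              rcases Finset.mem_union.1 (h he) with h' | h'
              · exact h'
              · exact absurd he (Finset.mem_sdiff.1 (hE2 h')).2
            · intro h
              exact h.trans Finset.subset_union_left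
          simp only [this]
        · apply Finset.prod_congr rfl
          intro z hz
          have : A z ⊆ E1 ∪ E2 ↔ A z ⊆ E2 := by
            constructor
            · intro h e he
              rcases Finset.mem_union.1 (h he) with h' | h'
              · exact absurd (hE1 h') (Finset.disjoint_left.1
                  (hd z (Finset.mem_insert_of_mem hz) z0 (Finset.mem_insert_self _ _)
                    (fun h => hz0 (h ▸ hz))) he)
              · exact h'
            · intro h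
              exact h.trans Finset.subset_union_right
          simp only [this]
      rw [h2, Ex_mul_left]
      by_cases h : A z0 ⊆ E1
      · rw [ind_pos h, ind_pos h]; ring
      · rw [ind_neg h, ind_neg h]; ring
    rw [Ex_congr h1, Ex_add, Ex_const, Ex_mul_left]
    have h3 : Ex p (A z0) (fun E => ind (A z0 ⊆ E) 1 0) = p ^ (A z0).card :=
      Pr_superset p (A z0) (A z0) (Finset.Subset.refl _)
    rw [h3]
    ring

/-- the star of `z` -/
def star (F : Finset ℕ) (z : ℕ) : Finset (Sym2 ℕ) := F.image (fun x => s(x, z))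

theorem star_card {F : Finset ℕ} (z : ℕ) : (star F z).card = F.card := by
  unfold star
  rw [Finset.card_image_of_injOn]
  intro a _ b _ hab
  exact Sym2.congr_left.mp hab

theorem star_sub {F : Finset ℕ} {z : ℕ} {E : Finset (Sym2 ℕ)} :
    star F z ⊆ E ↔ ∀ x ∈ F, s(x, z) ∈ E := by
  unfold star
  rw [Finset.image_subset_iff]

theorem star_disj {F : Finset ℕ} {z z' : ℕ} (hz' : z' ∉ F) (hne : z ≠ z') :
    Disjoint (star F z) (star F z') := by
  rw [Finset.disjoint_left]
  intro e he he'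
  unfold star at he he'
  rw [Finset.mem_image] at he he'
  obtain ⟨x, hx, rfl⟩ := he
  obtain ⟨x', hx', h⟩ := he'
  rcases Sym2.eq_iff.mp h with ⟨_, h2⟩ | ⟨_, h2⟩
  · exact hne h2.symm
  · exact hz' (h2 ▸ hx)

theorem star_Ui {F : Finset ℕ} {lo hi z : ℕ} (hF : F ⊆ Finset.Icc lo hi) (hz : z ∉ F)
    (h1 : lo ≤ z) (h2 : z ≤ hi) : star F z ⊆ Ui lo hi := by
  rw [star_sub]
  intro x hx
  rw [mem_Ui]
  have := Finset.mem_Icc.1 (hF hx)
  exact ⟨fun h => hz (h ▸ hx), this, h1, h2⟩

/-- the window without `F` -/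
def Wd (a l : ℕ) (F : Finset ℕ) : Finset ℕ := Finset.Ico a (a + l) \ F

theorem mem_Wd {a l : ℕ} {F : Finset ℕ} {z : ℕ} : z ∈ Wd a l F ↔ (a ≤ z ∧ z < a + l) ∧ z ∉ F := by
  unfold Wd
  rw [Finset.mem_sdiff, Finset.mem_Ico]

theorem Wd_card {a l : ℕ} {F : Finset ℕ} : (l : ℝ) - F.card ≤ (Wd a l F).card := by
  have h : (Finset.Ico a (a + l)).card ≤ (Wd a l F).card + F.card := by
    unfold Wd
    have h := Finset.card_le_card_sdiff_add_card (s := Finset.Ico a (a + l)) (t := F)
    exact h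
  rw [Nat.card_Ico] at h
  have h2 : ((a + l - a : ℕ) : ℝ) = l := by congr 1; omega
  have h3 : ((a + l - a : ℕ) : ℝ) ≤ (Wd a l F).card + F.card := by exact_mod_cast h
  rw [h2] at h3
  linarith

theorem cnb_eq {a l : ℕ} {F : Finset ℕ} {E : Finset (Sym2 ℕ)} :
    cnb E (Finset.Ico a (a + l)) F = (Wd a l F).filter (fun z => star F z ⊆ E) := by
  ext z
  rw [mem_cnb, Finset.mem_filter, mem_Wd, Finset.mem_Ico, star_sub]
  tauto

theorem one_sub_pow_le {x : ℝ} (hx : x ≤ 1) (n : ℕ) :
    (1 - x) ^ n ≤ Real.exp (-(x * n)) := by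
  have h2 : 1 - x ≤ Real.exp (-x) := by
    have := Real.add_one_le_exp (-x)
    linarith
  calc (1 - x) ^ n ≤ (Real.exp (-x)) ^ n := pow_le_pow_left₀ (by linarith) h2 _
    _ = _ := by
      rw [← Real.exp_nat_mul]; congr 1; ring

/-- probability that a window contains no common open neighbour of `F` -/
theorem fail_one {p : ℝ} (h0 : 0 < p) (h1 : p ≤ 1) {D lo hi a l : ℕ} {F : Finset ℕ}
    (hF : F ⊆ Finset.Icc lo hi) (hc : F.card ≤ D + 1) (ha : lo ≤ a) (hl : a + l ≤ hi + 1) :
    Pr p (Ui lo hi) (fun E => ¬ (cnb E (Finset.Ico a (a + l)) F).Nonempty) ≤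
      Real.exp (D + 1) * Real.exp (-(p ^ (D + 1) * l)) := by
  have hz : ∀ z ∈ Wd a l F, lo ≤ z ∧ z ≤ hi ∧ z ∉ F := by
    intro z hz
    rw [mem_Wd] at hz
    exact ⟨by omega, by omega, hz.2⟩
  have hst := Ex_stars p (Wd a l F) (star F) 0 1 (Ui lo hi)
    (fun z hz' => star_Ui hF (hz z hz').2.2 (hz z hz').1 (hz z hz').2.1)
    (fun z _ z' hz' hne => star_disj (hz z' hz').2.2 hne)
  have e1 : Pr p (Ui lo hi) (fun E => ¬ (cnb E (Finset.Ico a (a + l)) F).Nonempty) =
      Ex p (Ui lo hi) (fun E => ∏ z ∈ Wd a l F, ind (star F z ⊆ E) 0 1) := by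
    unfold Pr
    apply Ex_congr
    intro E _
    by_cases h : (cnb E (Finset.Ico a (a + l)) F).Nonempty
    · simp only [h, not_true, if_false]
      obtain ⟨z, hz⟩ := h
      rw [cnb_eq, Finset.mem_filter] at hz
      symm
      exact Finset.prod_eq_zero hz.1 (ind_pos hz.2 _ _)
    · simp only [h, not_false_iff, if_true]
      symm
      apply Finset.prod_eq_one
      intro z hz
      apply ind_neg
      intro hcon
      apply h
      refine ⟨z, ?_⟩
      rw [cnb_eq, Finset.mem_filter]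
      exact ⟨hz, hcon⟩
  rw [e1, hst]
  have e2 : ∀ z ∈ Wd a l F, (p ^ (star F z).card * 0 + (1 - p ^ (star F z).card) * 1) =
      1 - p ^ F.card := by
    intro z _
    rw [star_card]; ring
  rw [Finset.prod_congr rfl e2, Finset.prod_const]
  have h3 : p ^ (D + 1) ≤ p ^ F.card := pow_le_pow_of_le_one h0.le h1 hc
  have h4 : p ^ F.card ≤ 1 := pow_le_one₀ h0.le h1
  have h5 : 0 ≤ p ^ (D + 1) := pow_nonneg h0.le _
  have h6 : p ^ (D + 1) ≤ 1 := pow_le_one₀ h0.le h1
  calc (1 - p ^ F.card) ^ (Wd a l F).card ≤ (1 - p ^ (D + 1)) ^ (Wd a l F).card :=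
        pow_le_pow_left₀ (by linarith) (by linarith) _
    _ ≤ Real.exp (-(p ^ (D + 1) * (Wd a l F).card)) := one_sub_pow_le h6 _
    _ ≤ Real.exp ((D + 1 : ℝ) + -(p ^ (D + 1) * l)) := by
        apply Real.exp_le_exp.2
        have h7 := Wd_card (a := a) (l := l) (F := F)
        have h8 : (F.card : ℝ) ≤ D + 1 := by exact_mod_cast hc
        nlinarith [mul_le_mul_of_nonneg_left h7 h5]
    _ = _ := Real.exp_add _ _

/-- number of pairs (window, set) -/
theorem card_idx {D lo hi : ℕ} (hN : lo ≤ hi) :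
    ((((Finset.Icc lo hi) ×ˢ (Finset.Icc lo hi).powerset).filter
      (fun q => q.2.card ≤ D + 1)).card : ℝ) ≤ ((D:ℝ) + 2) * ((hi:ℝ) - lo + 1) ^ (D + 2) := by
  have hcard : ((Finset.Icc lo hi).card : ℝ) = (hi:ℝ) - lo + 1 := by
    rw [Nat.card_Icc, Nat.cast_sub (by omega)]
    push_cast; ring
  set N := (Finset.Icc lo hi).card with hNdef
  have hN1 : 1 ≤ N := by
    rw [hNdef, Nat.card_Icc]; omega
  have h1 : ((Finset.Icc lo hi) ×ˢ (Finset.Icc lo hi).powerset).filter
      (fun q => q.2.card ≤ D + 1) ⊆ (Finset.Icc lo hi) ×ˢ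
      ((Finset.range (D + 2)).biUnion (fun j => (Finset.Icc lo hi).powersetCard j)) := by
    intro q hq
    rw [Finset.mem_filter, Finset.mem_product] at hq
    rw [Finset.mem_product, Finset.mem_biUnion]
    refine ⟨hq.1.1, q.2.card, Finset.mem_range.2 (by omega), ?_⟩
    rw [Finset.mem_powersetCard]
    exact ⟨Finset.mem_powerset.1 hq.1.2, rfl⟩
  have h2 : ((Finset.range (D + 2)).biUnion (fun j => (Finset.Icc lo hi).powersetCard j)).card ≤
      (D + 2) * N ^ (D + 1) := by
    refine Finset.card_biUnion_le.trans ?_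
    calc ∑ j ∈ Finset.range (D + 2), ((Finset.Icc lo hi).powersetCard j).card
        ≤ ∑ j ∈ Finset.range (D + 2), N ^ (D + 1) := by
          refine Finset.sum_le_sum fun j hj => ?_
          rw [Finset.card_powersetCard]
          refine (Nat.choose_le_pow N j).trans ?_
          exact Nat.pow_le_pow_right hN1 (by have := Finset.mem_range.1 hj; omega)
      _ = (D + 2) * N ^ (D + 1) := by
          rw [Finset.sum_const, Finset.card_range, smul_eq_mul]
  have h3 : (((Finset.Icc lo hi) ×ˢ (Finset.Icc lo hi).powerset).filter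
      (fun q => q.2.card ≤ D + 1)).card ≤ (D + 2) * N ^ (D + 2) := by
    refine (Finset.card_le_card h1).trans ?_
    rw [Finset.card_product]
    calc N * _ ≤ N * ((D + 2) * N ^ (D + 1)) := Nat.mul_le_mul_left _ h2
      _ = (D + 2) * N ^ (D + 2) := by ring
  have h4 : ((((Finset.Icc lo hi) ×ˢ (Finset.Icc lo hi).powerset).filter
      (fun q => q.2.card ≤ D + 1)).card : ℝ) ≤ (((D + 2) * N ^ (D + 2) : ℕ) : ℝ) := by
    exact_mod_cast h3
  refine h4.trans (le_of_eq ?_)
  rw [← hcard]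
  push_cast
  ring

theorem main : S_condA := by
  intro D _
  refine ⟨1 / (((D:ℝ) + 2) * Real.exp (D + 1)), by positivity, ?_⟩
  intro p lo hi l h0 h1 hl hlo
  set c : ℝ := 1 / (((D:ℝ) + 2) * Real.exp (D + 1)) with hc
  have hE1 : 1 ≤ Real.exp ((D:ℝ) + 1) := Real.one_le_exp (by positivity)
  have hc1 : c ≤ 1 := by
    rw [hc, div_le_one (by positivity)]
    nlinarith
  have hcinv : 1 / c = ((D:ℝ) + 2) * Real.exp (D + 1) := by
    rw [hc, one_div_one_div]
  have hlohi : lo ≤ hi := by omega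
  set I := ((Finset.Icc lo hi) ×ˢ (Finset.Icc lo hi).powerset).filter
      (fun q => q.2.card ≤ D + 1) with hI
  have step1 : Pr p (Ui lo hi) (fun E => ¬ CondA D lo hi E l) ≤
      Pr p (Ui lo hi) (fun E => ∃ q ∈ I.filter (fun q => q.1 + l ≤ hi + 1),
        ¬ (cnb E (Finset.Ico q.1 (q.1 + l)) q.2).Nonempty) := by
    apply Pr_mono h0.le h1
    intro E _ hE
    unfold CondA at hE
    push Not at hE
    obtain ⟨a, ha, hal, F, hF, hFc, hne⟩ := hE
    refine ⟨(a, F), ?_, ?_⟩
    · rw [Finset.mem_filter, hI, Finset.mem_filter, Finset.mem_product, Finset.mem_Icc,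
        Finset.mem_powerset]
      exact ⟨⟨⟨⟨ha, by show a ≤ hi; omega⟩, hF⟩, hFc⟩, hal⟩
    · simpa using hne
  refine step1.trans ((Pr_exists_le h0.le h1 _ _).trans ?_)
  have step2 : ∀ q ∈ I.filter (fun q => q.1 + l ≤ hi + 1),
      Pr p (Ui lo hi) (fun E => ¬ (cnb E (Finset.Ico q.1 (q.1 + l)) q.2).Nonempty) ≤
      Real.exp (D + 1) * Real.exp (-(p ^ (D + 1) * l)) := by
    intro q hq
    rw [Finset.mem_filter, hI, Finset.mem_filter, Finset.mem_product, Finset.mem_Icc,
        Finset.mem_powerset] at hq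
    exact fail_one h0 h1 hq.1.1.2 hq.1.2 hq.1.1.1.1 hq.2
  refine (Finset.sum_le_sum step2).trans ?_
  rw [Finset.sum_const, nsmul_eq_mul]
  have h3 : ((I.filter (fun q => q.1 + l ≤ hi + 1)).card : ℝ) ≤
      ((D:ℝ) + 2) * ((hi:ℝ) - lo + 1) ^ (D + 2) := by
    refine le_trans ?_ (card_idx (D := D) hlohi)
    exact_mod_cast Finset.card_le_card (Finset.filter_subset _ _)
  have hN1 : (1:ℝ) ≤ (hi:ℝ) - lo + 1 := by
    have : (lo:ℝ) ≤ hi := by exact_mod_cast hlohi
    linarith
  have h4 : ((hi:ℝ) - lo + 1) ^ (D + 2) ≤ ((hi:ℝ) - lo + 1) ^ (D + 3) :=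
    pow_le_pow_right₀ hN1 (by omega)
  have h5 : Real.exp (-(p ^ (D + 1) * l)) ≤ Real.exp (-(c * p ^ (D + 1) * l)) := by
    apply Real.exp_le_exp.2
    have : 0 ≤ p ^ (D + 1) * l := by positivity
    nlinarith
  rw [hcinv]
  calc _ ≤ (((D:ℝ) + 2) * ((hi:ℝ) - lo + 1) ^ (D + 2)) *
        (Real.exp (D + 1) * Real.exp (-(p ^ (D + 1) * l))) :=
        mul_le_mul_of_nonneg_right h3 (by positivity)
    _ ≤ (((D:ℝ) + 2) * ((hi:ℝ) - lo + 1) ^ (D + 3)) *
        (Real.exp (D + 1) * Real.exp (-(c * p ^ (D + 1) * l))) := by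
        gcongr
    _ = _ := by ring

end

end Pool.Agent.W12.KdStar
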