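import Pool.Agent.W827.Kd.Basic
import Pool.Agent.H362C.Transfer

/-! Transfer of the frozen sum to `Pr` (project KD). -/

set_option autoImplicit false
open Classical

namespace Pool.Agent.W12.KdTransfer

open Pool.Agent.W827.Kd

noncomputable section

/-- the condition in the frozen statement -/
def FS (d n : ℕ) (S : Finset (Sym2 (Fin n))) : Prop :=
  ∀ H : SimpleGraph (Fin n),
    (∀ i j : Fin n, i ≠ j → |(i:ℤ) - (j:ℤ)| ≤ (d:ℤ) - 2 → H.Adj i j) →
    (∀ u v : Fin n, s(u, v) ∈ S → u ≠ v →
      (∃ t : Finset (Fin n), t.card = d - 2 ∧ u ∉ t ∧ v ∉ t ∧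
        (∀ x ∈ t, H.Adj u x ∧ H.Adj v x) ∧
        (∀ x ∈ t, ∀ y ∈ t, x ≠ y → H.Adj x y)) → H.Adj u v) →
    ∀ u v : Fin n, s(u, v) ∈ S → u ≠ v → H.Adj u v

/-- the embedding of pairs -/
def phi (n : ℕ) : Sym2 (Fin n) → Sym2 ℕ := Sym2.map Fin.val

theorem phi_inj (n : ℕ) : Function.Injective (phi n) := Sym2.map.injective Fin.val_injective

theorem mem_phi {n : ℕ} {S : Finset (Sym2 (Fin n))} {x z : Fin n} :
    s((x : ℕ), (z : ℕ)) ∈ S.image (phi n) ↔ s(x, z) ∈ S := by
  have h : s((x : ℕ), (z : ℕ)) = phi n s(x, z) := rfl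
  rw [h, Finset.mem_image]
  constructor
  · rintro ⟨e, he, h2⟩
    rw [← phi_inj n h2]; exact he
  · intro h2
    exact ⟨_, h2, rfl⟩

theorem frozen_iff {d n : ℕ} (hd : 3 ≤ d) (hn : 1 ≤ n) {S : Finset (Sym2 (Fin n))}
    (hS : ∀ e ∈ S, ¬ e.IsDiag) : FS d n S ↔ SatN (d - 2) n (S.image (phi n)) := by
  set E' := S.image (phi n) with hE'
  constructor
  · intro hF x z hxz
    have hadj : ∀ i j : Fin n, (SimpleGraph.fromRel
        (fun i j : Fin n => Occ (d - 2) 0 (n - 1) E' (i : ℕ) (j : ℕ))).Adj i j ↔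
        Occ (d - 2) 0 (n - 1) E' (i : ℕ) (j : ℕ) := by
      intro i j
      rw [SimpleGraph.fromRel_adj]
      constructor
      · rintro ⟨_, h | h⟩
        · exact h
        · exact h.symm
      · intro h
        exact ⟨fun hij => h.ne (congrArg Fin.val hij), Or.inl h⟩
    have key := hF (SimpleGraph.fromRel
        (fun i j : Fin n => Occ (d - 2) 0 (n - 1) E' (i : ℕ) (j : ℕ)))
      (by
        intro i j hij habs
        rw [hadj]
        have h1 := i.isLt
        have h2 := j.isLt
        rw [abs_le] at habs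
        refine Occ.band (fun h => hij (Fin.ext h)) ?_ ?_ (Nat.zero_le _) (by omega)
          (Nat.zero_le _) (by omega)
        · omega
        · omega)
      (by
        rintro u v huv hne ⟨t, ht1, _, _, ht4, ht5⟩
        rw [hadj]
        have h1 := u.isLt
        have h2 := v.isLt
        refine Occ.step (t.image Fin.val) ?_ (fun h => hne (Fin.ext h)) (mem_phi.2 huv)
          (Nat.zero_le _) (by omega) (Nat.zero_le _) (by omega) ?_ ?_ ?_
        · rw [Finset.card_image_of_injective _ Fin.val_injective, ht1]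
        · intro z hz
          rw [Finset.mem_image] at hz
          obtain ⟨w, hw, rfl⟩ := hz
          exact (hadj u w).1 (ht4 w hw).1
        · intro z hz
          rw [Finset.mem_image] at hz
          obtain ⟨w, hw, rfl⟩ := hz
          exact (hadj v w).1 (ht4 w hw).2
        · intro z hz z' hz' hzz
          rw [Finset.mem_image] at hz hz'
          obtain ⟨w, hw, rfl⟩ := hz
          obtain ⟨w', hw', rfl⟩ := hz'
          exact (hadj w w').1 (ht5 w hw w' hw' (fun h => hzz (congrArg Fin.val h))))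
    rw [hE', Finset.mem_image] at hxz
    obtain ⟨e, he, h2⟩ := hxz
    induction e using Sym2.ind with
    | h i j =>
      have hij : i ≠ j := fun h => hS _ he (Sym2.mk_isDiag_iff.2 h)
      have h3 := (hadj i j).1 (key i j he hij)
      have h4 : s((i : ℕ), (j : ℕ)) = s(x, z) := h2
      rcases Sym2.eq_iff.mp h4 with ⟨h5, h6⟩ | ⟨h5, h6⟩
      · rw [← h5, ← h6]; exact h3
      · rw [← h5, ← h6]; exact h3.symm
  · intro hSat H h1 h2 u v huv _
    have hocc : Occ (d - 2) 0 (n - 1) E' u v := hSat u v (mem_phi.2 huv)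
    have gen : ∀ a b : ℕ, Occ (d - 2) 0 (n - 1) E' a b → ∀ (ha : a < n) (hb : b < n),
        H.Adj ⟨a, ha⟩ ⟨b, hb⟩ := by
      intro a b hab
      induction hab with
      | @band x y hne hx hy _ _ _ _ =>
        intro ha hb
        refine h1 _ _ (fun h => hne (congrArg Fin.val h)) ?_
        rw [abs_le]
        constructor
        · show -((d:ℤ) - 2) ≤ (x:ℤ) - (y:ℤ)
          omega
        · show (x:ℤ) - (y:ℤ) ≤ (d:ℤ) - 2
          omega
      | @step x y t hc hne hE _ _ _ _ hx hy hz ihx ihy ihz =>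
        intro ha hb
        refine h2 _ _ (mem_phi.1 hE) (fun h => hne (congrArg Fin.val h)) ?_
        have hlt : ∀ z ∈ t, z < n := by
          intro z hz'
          have := (hx z hz').mem.2.2
          omega
        refine ⟨Finset.univ.filter (fun i : Fin n => (i : ℕ) ∈ t), ?_, ?_, ?_, ?_, ?_⟩
        · rw [← hc, ← Finset.card_image_of_injective _ Fin.val_injective]
          congr 1
          ext z
          rw [Finset.mem_image]
          constructor
          · rintro ⟨i, hi, rfl⟩
            exact (Finset.mem_filter.1 hi).2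
          · intro hz'
            exact ⟨⟨z, hlt z hz'⟩, Finset.mem_filter.2 ⟨Finset.mem_univ _, hz'⟩, rfl⟩
        · intro hcon
          exact (hx x (Finset.mem_filter.1 hcon).2).ne rfl
        · intro hcon
          exact (hy y (Finset.mem_filter.1 hcon).2).ne rfl
        · intro i hi
          have hi' := (Finset.mem_filter.1 hi).2
          exact ⟨ihx i hi' ha i.isLt, ihy i hi' hb i.isLt⟩
        · intro i hi j hj hij
          have hi' := (Finset.mem_filter.1 hi).2
          have hj' := (Finset.mem_filter.1 hj).2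
          exact ihz i hi' j hj' (fun h => hij (Fin.ext h)) i.isLt j.isLt
    exact gen u v hocc u.isLt v.isLt

theorem Ui_eq (n : ℕ) (hn : 1 ≤ n) :
    Ui 0 (n - 1) = (((Finset.univ : Finset (Sym2 (Fin n))).filter (fun e => ¬ e.IsDiag))).image
      (phi n) := by
  ext e
  induction e using Sym2.ind with
  | h x z =>
    rw [mem_Ui, Finset.mem_image]
    constructor
    · rintro ⟨h1, h2, h3⟩
      refine ⟨s(⟨x, by omega⟩, ⟨z, by omega⟩), ?_, rfl⟩
      rw [Finset.mem_filter]
      refine ⟨Finset.mem_univ _, ?_⟩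
      rw [Sym2.mk_isDiag_iff]
      exact fun h => h1 (congrArg Fin.val h)
    · rintro ⟨e, he, h2⟩
      induction e using Sym2.ind with
      | h i j =>
        have hij : i ≠ j := by
          intro h
          exact (Finset.mem_filter.1 he).2 (Sym2.mk_isDiag_iff.2 h)
        have h1 := i.isLt
        have h3 := j.isLt
        have hij' : (i : ℕ) ≠ j := fun h => hij (Fin.ext h)
        have h4 : s((i : ℕ), (j : ℕ)) = s(x, z) := h2
        rcases Sym2.eq_iff.mp h4 with ⟨h5, h6⟩ | ⟨h5, h6⟩
        · omega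
        · omega

theorem card_nd (n : ℕ) :
    ((Finset.univ : Finset (Sym2 (Fin n))).filter (fun e => ¬ e.IsDiag)).card = n.choose 2 := by
  have h := Sym2.card_subtype_not_diag (α := Fin n)
  rw [Fintype.card_fin] at h
  rw [← h, Fintype.card_subtype]

theorem main : S_transfer := by
  intro d n q hd hn
  rw [Ui_eq n hn]
  unfold Pool.Agent.H362C.Pr
  rw [Pool.Agent.H362C.Ex_image q _ (phi n) (phi_inj n).injOn]
  unfold Pool.Agent.H362C.Ex
  rw [card_nd]
  apply Finset.sum_congr rfl
  intro S hS
  have hS' : ∀ e ∈ S, ¬ e.IsDiag := fun e he =>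
    (Finset.mem_filter.1 (Finset.mem_powerset.1 hS he)).2
  rw [mul_ite, mul_one, mul_zero]
  exact if_congr (frozen_iff hd hn hS') rfl rfl

end

end Pool.Agent.W12.KdTransfer
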