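import Pool.Agent.W12.TA_S13b
import Pool.Agent.W565.TA_S1
import Pool.Agent.W903.TA_S2
import Pool.Agent.W856.TA_S3
import Pool.Agent.W138.TA_S4
import Pool.Agent.W120.TA_S5
import Pool.Agent.W748.TA.S6
import Pool.Agent.W723.TA_S7
import Pool.Agent.W279.TA_S8
import Pool.Agent.W612.TA.TA_S11
import Pool.Agent.W347.TA_S12

/-!
# Min-max area triangulations: soundness of tiles, unconditional
-/

set_option autoImplicit false

namespace Pool.Agent.W982.TA

theorem s13_all : TaskS13 := s13b s1 s2 (s7 (s5 s3 s4) s6) s8 (s12 s11)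

end Pool.Agent.W982.TA
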