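import Pool.Agent.W982.TA.Stm2

set_option autoImplicit false

namespace Pool.Agent.W982.TA

namespace S9

theorem missP_mem {P : List ℕ} {o : Pt} {M : Finset Pt} (h : HasP P o M) {p : Pt}
    (hp : missP P p = true) : (o.1 + p.1, o.2 + p.2) ∈ M := by
  unfold missP at hp
  simp only [Bool.and_eq_true, decide_eq_true_eq] at hp
  obtain ⟨⟨h1, h2⟩, h3⟩ := hp
  have e1 : ((p.1.toNat : ℕ) : ℤ) = p.1 := Int.toNat_of_nonneg h1
  have e2 : ((p.2.toNat : ℕ) : ℤ) = p.2 := Int.toNat_of_nonneg h2
  have h4 := h p.1.toNat p.2.toNat (by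
    unfold missP
    simp only [Bool.and_eq_true, decide_eq_true_eq]
    refine ⟨⟨by omega, by omega⟩, ?_⟩
    rw [Int.toNat_natCast, Int.toNat_natCast]
    exact h3)
  rw [e1, e2] at h4
  exact h4

theorem mem_box {X Y : ℤ} {M : Finset Pt} {p : Pt} (h : p ∈ box X Y \ M) :
    0 ≤ p.1 ∧ p.1 ≤ X ∧ 0 ≤ p.2 ∧ p.2 ≤ Y ∧ p ∉ M := by
  rw [Finset.mem_sdiff] at h
  unfold box at h
  rw [Finset.mem_product, Finset.mem_Icc, Finset.mem_Icc] at h
  exact ⟨h.1.1.1, h.1.1.2, h.1.2.1, h.1.2.2, h.2⟩

end S9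

theorem s9' (h2 : TaskS2) (X Y : ℤ) (M : Finset Pt) (e : Pt → Pt) (o : Pt) (P : List ℕ) (bd : ℕ)
    (c : ℕ × ℕ × ℕ) (k : ℕ) (hM : Medial X Y M e) (hP : HasP P o M) (hb : BdOK bd o Y)
    (hs : SgOK e o c) (hm : missP P ((c.1 : ℤ), (c.2.1 : ℤ)) = true) (hc : c.2.1 < 62)
    (hk : k < 48) (hT : HasT k (e (o.1 + c.1, o.2 + c.2.1))) (hc2 : c.2.2 ≤ 2) :
    allow P bd c.1 c.2.1 c.2.2 k = true := by
  obtain ⟨x, y, s⟩ := c
  simp only at hs hm hc hT hc2 ⊢
  obtain ⟨q, hq⟩ : ∃ q : Pt, q = (o.1 + (x : ℤ), o.2 + (y : ℤ)) := ⟨_, rfl⟩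
  have hqM : q ∈ M := by
    rw [hq]
    exact S9.missP_mem hP hm
  obtain ⟨v, hv⟩ : ∃ v : Pt, v = e q := ⟨_, rfl⟩
  rw [← hq, ← hv] at hT
  have hadd := S9.mem_box (hM.add_mem q hqM)
  have hsub := S9.mem_box (hM.sub_mem q hqM)
  rw [← hv] at hadd hsub
  obtain ⟨a1, a2, a3, a4, a5⟩ := hadd
  obtain ⟨b1, b2, b3, b4, b5⟩ := hsub
  have q1 : q.1 = o.1 + x := by rw [hq]
  have q2 : q.2 = o.2 + y := by rw [hq]
  simp only [Prod.fst_add, Prod.snd_add, Prod.fst_sub, Prod.snd_sub, q1, q2] at a1 a2 a3 a4 b1 b2 b3 b4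
  obtain ⟨t1, t2, t3, t4⟩ := h2 k hk v hT
  have hs1 : s = 1 → sgT k = 1 := by
    intro h
    apply t1
    have := hs.1 h
    unfold sg at this
    simp only at this
    rw [← hq, ← hv] at this
    exact this
  have hs2 : s = 2 → sgT k = 2 := by
    intro h
    apply t2
    have := hs.2 h
    unfold sg at this
    simp only at this
    rw [← hq, ← hv] at this
    exact this
  unfold allow
  rw [Bool.and_eq_true, Bool.and_eq_true, Bool.and_eq_true]
  refine ⟨⟨⟨?_, ?_⟩, ?_⟩, ?_⟩
  · split_ifs with hk24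
    · have hv' : v = dv k := by
        unfold HasT at hT
        rw [if_pos hk24] at hT
        exact hT
      rw [Bool.and_eq_true]
      constructor
      · rw [Bool.not_eq_true']
        by_contra hcon
        rw [Bool.not_eq_false] at hcon
        have h5 := S9.missP_mem hP hcon
        apply a5
        have e1 : q + v = (o.1 + ((x : ℤ) + (dv k).1), o.2 + ((y : ℤ) + (dv k).2)) := by
          rw [hq, ← hv']
          ext
          · show o.1 + (x : ℤ) + v.1 = _
            ring
          · show o.2 + (y : ℤ) + v.2 = _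
            ring
        rw [e1]
        exact h5
      · rw [Bool.not_eq_true']
        by_contra hcon
        rw [Bool.not_eq_false] at hcon
        have h5 := S9.missP_mem hP hcon
        apply b5
        have e1 : q - v = (o.1 + ((x : ℤ) - (dv k).1), o.2 + ((y : ℤ) - (dv k).2)) := by
          rw [hq, ← hv']
          ext
          · show o.1 + (x : ℤ) - v.1 = _
            ring
          · show o.2 + (y : ℤ) - v.2 = _
            ring
        rw [e1]
        exact h5
    · rfl
  · have h012 : s = 0 ∨ s = 1 ∨ s = 2 := by omega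
    rcases h012 with h | h | h
    · subst h; simp
    · have := hs1 h
      subst h; simp [this]
    · have := hs2 h
      subst h; simp [this]
  · split_ifs with h1
    · have ho := hb.1 h1
      rw [ho] at a1 a3 b1 b3
      simp only at a1 a3 b1 b3
      rw [Bool.and_eq_true, decide_eq_true_eq, decide_eq_true_eq]
      constructor
      · refine t3.trans ?_
        omega
      · refine t4.trans ?_
        omega
    · rfl
  · split_ifs with h1
    · obtain ⟨ho1, ho2⟩ := hb.2 h1
      rw [Bool.and_eq_true, decide_eq_true_eq, decide_eq_true_eq]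
      constructor
      · refine t3.trans ?_
        omega
      · refine t4.trans ?_
        omega
    · rfl

end Pool.Agent.W982.TA
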