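import Pool.Agent.W982.TA.Stm2
import Pool.Agent.W12.TA_S9
import Pool.Agent.W654.TA_S10
import Pool.Agent.W576.TA_S13

/-!
# Min-max area triangulations: soundness of tiles, without the unrestricted form of S9 and S10
-/

set_option autoImplicit false

namespace Pool.Agent.W982.TA

theorem s10b (h1 : TaskS1) (h2 : TaskS2) (h7 : TaskS7) (h8 : TaskS8)
    (X Y : ℤ) (M : Finset Pt) (e : Pt → Pt) (o : Pt) (P : List ℕ) (bd : ℕ)
    (cells : List (ℕ × ℕ × ℕ)) (cert : Cert)
    (hM : Medial X Y M e) (hP : HasP P o M) (hB : BdOK bd o Y)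
    (hS : ∀ c ∈ cells, SgOK e o c) (hc2 : ∀ c ∈ cells, c.2.2 ≤ 2)
    (hcert : certOK P bd cells cert = true) : False := by
  have hM' := S10.medial_nrm hM
  unfold certOK at hcert
  rw [Bool.and_eq_true, List.all_eq_true] at hcert
  obtain ⟨hall, hchk⟩ := hcert
  have hcell : ∀ c ∈ cells, missP P ((c.1 : ℤ), (c.2.1 : ℤ)) = true ∧ c.2.1 < 62 := by
    intro c hc
    have := hall c hc
    rw [Bool.and_eq_true, decide_eq_true_eq] at this
    exact this
  refine h7 X Y M (S10.nrm e) o (cells.map fun q => ((q.1 : ℤ), (q.2.1 : ℤ)))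
    (cells.map (dom0 P bd)) cert hM' ?_ ?_ hchk
  · intro i hi
    rw [List.length_map] at hi
    rw [List.getD_eq_getElem _ _ (by rw [List.length_map]; exact hi), List.getElem_map]
    obtain ⟨m1, _⟩ := hcell cells[i] (List.getElem_mem hi)
    exact hP _ _ m1
  · intro i hi
    rw [List.length_map] at hi
    rw [List.getD_eq_getElem _ _ (by rw [List.length_map]; exact hi), List.getElem_map,
      List.getD_eq_getElem _ _ (by rw [List.length_map]; exact hi), List.getElem_map]
    have hmem : cells[i] ∈ cells := List.getElem_mem hi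
    obtain ⟨m1, m2⟩ := hcell cells[i] hmem
    have hMem : (o.1 + (cells[i].1 : ℤ), o.2 + (cells[i].2.1 : ℤ)) ∈ M := hP _ _ m1
    have hnorm := S10.norm_nrm e _ (hM.prim _ hMem)
    obtain ⟨k, hk, hkT⟩ := h1 _ hnorm (hM'.prim _ hMem)
    refine ⟨k, hk, ?_, hkT⟩
    rw [h8 P bd cells[i] k hk]
    refine s9' h2 X Y M (S10.nrm e) o P bd cells[i] k hM' hP hB ?_ m1 m2 hk hkT (hc2 _ hmem)
    obtain ⟨s1, s2⟩ := hS cells[i] hmem
    refine ⟨?_, ?_⟩
    · intro h
      rw [S10.sg_nrm]
      exact s1 h
    · intro h
      rw [S10.sg_nrm]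
      exact s2 h

theorem s13b (h1 : TaskS1) (h2 : TaskS2) (h7 : TaskS7) (h8 : TaskS8) (h12 : TaskS12) :
    TaskS13 := by
  intro X Y M e o T hM hP hbd hT
  unfold tileOK at hT
  simp only [Bool.and_eq_true, List.all_eq_true] at hT
  obtain ⟨⟨⟨hcomp, hclaim⟩, hgoal⟩, -⟩ := hT
  have hc : ∀ i : ℕ, ∃ b : Bool, ∀ q ∈ T.comps.getD i [],
      if b = true then 0 < sg e (o.1 + q.1, o.2 + q.2) else sg e (o.1 + q.1, o.2 + q.2) < 0 := by
    intro i
    by_cases hi : i < T.comps.length
    · have hmem : T.comps.getD i [] ∈ T.comps := by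
        rw [List.getD_eq_getElem _ _ hi]
        exact List.getElem_mem hi
      exact h12 X Y M e o T.pat _ hM hP (hcomp _ hmem)
    · refine ⟨true, ?_⟩
      intro q hq
      rw [List.getD_eq_default _ _ (by omega)] at hq
      simp at hq
  choose f hf using hc
  obtain ⟨σ, hσ, hbits⟩ := s13_sigma T.comps.length f
  have hsig : ∀ (i : ℕ) (q : ℕ × ℕ), q ∈ T.comps.getD i [] →
      if σ.testBit i = true then 0 < sg e (o.1 + q.1, o.2 + q.2)
        else sg e (o.1 + q.1, o.2 + q.2) < 0 := by
    intro i q hq
    rw [hbits i (s13_lt hq).1]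
    exact hf i q hq
  have hviol : ∀ c ∈ T.claims, viol σ c = true → False := by
    intro c hc hv
    have hk := hclaim c hc
    unfold claimOK at hk
    rw [Bool.and_eq_true] at hk
    obtain ⟨hk1, hk2⟩ := hk
    rw [List.all_eq_true] at hk1
    refine s10b h1 h2 h7 h8 X Y M e o T.pat c.bd c.cells c.cert hM hP (hbd c hc) ?_ ?_ hk2
    case refine_2 =>
      intro q hq
      have h := hk1 q hq
      rw [Bool.or_eq_true, decide_eq_true_eq, List.any_eq_true] at h
      rcases h with h | ⟨a, ha, h⟩
      · rw [h]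
        norm_num
      · rw [Bool.and_eq_true, decide_eq_true_eq] at h
        rw [h.1]
        split_ifs <;> norm_num
    intro q hq
    have h := hk1 q hq
    rw [Bool.or_eq_true, decide_eq_true_eq, List.any_eq_true] at h
    rcases h with h | ⟨a, ha, h⟩
    · unfold SgOK
      rw [h]
      exact ⟨fun h' => absurd h' (by norm_num), fun h' => absurd h' (by norm_num)⟩
    · rw [Bool.and_eq_true, decide_eq_true_eq, List.contains_iff_mem] at h
      obtain ⟨ha2, hmem⟩ := h
      have hb : σ.testBit a.1 = a.2 := by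
        unfold viol at hv
        rw [List.all_eq_true] at hv
        have := hv a ha
        simpa using this
      have hs := hsig a.1 (q.1, q.2.1) hmem
      rw [hb] at hs
      unfold SgOK
      rw [ha2]
      cases h2 : a.2
      · rw [h2] at hs
        refine ⟨fun h' => absurd h' (by norm_num), fun _ => ?_⟩
        simpa using hs
      · rw [h2] at hs
        refine ⟨fun _ => ?_, fun h' => absurd h' (by norm_num)⟩
        simpa using hs
  constructor
  · intro g hg hall
    have hgo := hgoal g hg
    unfold goalOK at hgo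
    rw [Bool.and_eq_true, List.all_eq_true, List.all_eq_true] at hgo
    obtain ⟨hg1, hg2⟩ := hgo
    have hg3 := hg2 σ (List.mem_range.2 hσ)
    rw [Bool.or_eq_true, List.any_eq_true, List.any_eq_true] at hg3
    rcases hg3 with ⟨c, hc, hv⟩ | ⟨a, ha, hne⟩
    · exact hviol c hc hv
    · have hmem := hg1 a ha
      rw [List.contains_iff_mem] at hmem
      have hs := hsig a.1 a.2.1 hmem
      have hal := hall a ha
      unfold SgAt at hal
      have hne' : σ.testBit a.1 ≠ a.2.2 := by simpa using hne
      cases h1 : σ.testBit a.1 <;> cases h2 : a.2.2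
      · exact hne' (h1.trans h2.symm)
      · rw [h1] at hs
        rw [h2] at hal
        simp only [if_true] at hal
        simp only [Bool.false_eq_true, if_false] at hs
        exact absurd hal (not_lt.2 hs.le)
      · rw [h1] at hs
        rw [h2] at hal
        simp only [if_true] at hs
        simp only [Bool.false_eq_true, if_false] at hal
        exact absurd hs (not_lt.2 hal.le)
      · exact hne' (h1.trans h2.symm)
  · intro c hc q hq h0
    obtain ⟨b, hb⟩ := h12 X Y M e o T.pat c hM hP (hcomp c hc)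
    have := hb q hq
    rw [h0] at this
    cases b <;> simp at this

end Pool.Agent.W982.TA
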