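import Pool.Agent.W709.VC.Defs
import Pool.Agent.H776R3.EvenVol.P

/-!
# VC-SMALL: terms with `2 n + 1 < N` do not grow (task of helper709)
-/

set_option autoImplicit false

namespace Pool.Agent.W12.VCSmall

open Filter Finset EvenVol Pool.Agent.H112R4.VL
open scoped Real Topology

theorem norm_brf {N n : ℕ} (hn : n < N) : ‖brf (v0 N) n‖ = Real.exp (GapVol.L N n) := by
  unfold brf GapVol.L
  rw [norm_prod, Real.exp_sum]
  refine Finset.prod_congr rfl fun j hj => ?_
  rw [Finset.mem_range] at hj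
  have h1 := norm_br_v0 N ((j : ℤ) + 1)
  have h2 := GapVol.sin_pos_of (M := N) (j := j + 1) (by omega) (by omega)
  have h3 : Real.pi * (((j : ℤ) + 1 : ℤ) : ℝ) / N = Real.pi * ((j + 1 : ℕ) : ℝ) / N := by
    push_cast
    ring
  rw [h3, abs_of_pos (by linarith)] at h1
  unfold GapVol.lf
  rw [Real.exp_log (by linarith)]
  exact h1

theorem key {N n k : ℕ} {τ : ℝ} (hN : 2 ≤ N) (hn : 2 * n + 1 < N) (hk : k ≤ n)
    (hR : ∀ m : ℕ, m ≤ 4 * N → |S N m + N / π * GapVol.lob (π * m / N)| ≤ τ * N) :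
    2 * GapVol.L N n - GapVol.L N (n - k) - GapVol.L N (n + k + 1) ≤ 4 * τ * N + Real.log N := by
  have hNR : (0 : ℝ) < N := by positivity
  have a1 := hR n (by omega)
  have a2 := hR (n - k) (by omega)
  have a3 := hR (n + k) (by omega)
  rw [Pool.Agent.H811R3.EvenVolR.S_eq_L (by omega), abs_le] at a1 a2 a3
  have a4 := GapVol.abs_L_shift (M := N) (k := n + k) (c := 1) (by omega)
  rw [abs_le, Nat.cast_one, one_mul] at a4
  have hn' : 2 * (n : ℝ) ≤ N := by exact_mod_cast (by omega : 2 * n ≤ N)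
  have hk' : (k : ℝ) ≤ n := by exact_mod_cast hk
  have b1 : π * (n : ℝ) / N ≤ π / 2 := by
    rw [div_le_iff₀ hNR]
    nlinarith [Real.pi_pos]
  have b2 : π * (k : ℝ) / N ≤ π / 2 := by
    rw [div_le_iff₀ hNR]
    nlinarith [Real.pi_pos]
  have hF := LobIneq.FF_nonpos (a := π * (n : ℝ) / N) (b := π * (k : ℝ) / N) (by positivity) b1
    (by positivity) b2
  unfold LobIneq.FF at hF
  have e1 : π * (n : ℝ) / N + π * (k : ℝ) / N = π * ((n + k : ℕ) : ℝ) / N := by
    push_cast
    ring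
  have e2 : π * (n : ℝ) / N - π * (k : ℝ) / N = π * ((n - k : ℕ) : ℝ) / N := by
    rw [Nat.cast_sub hk]
    ring
  rw [e1, e2] at hF
  have hp : 0 < (N : ℝ) / π := by positivity
  have h5 := mul_nonpos_of_nonneg_of_nonpos hp.le hF
  have h6 : (N : ℝ) / π * (GapVol.lob (π * ((n + k : ℕ) : ℝ) / N) +
      GapVol.lob (π * ((n - k : ℕ) : ℝ) / N) - 2 * GapVol.lob (π * (n : ℝ) / N)) =
      (N : ℝ) / π * GapVol.lob (π * ((n + k : ℕ) : ℝ) / N) +
      (N : ℝ) / π * GapVol.lob (π * ((n - k : ℕ) : ℝ) / N) -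
      2 * ((N : ℝ) / π * GapVol.lob (π * (n : ℝ) / N)) := by ring
  rw [h6] at h5
  linarith [a1.1, a1.2, a2.1, a2.2, a3.1, a3.2, a4.1, a4.2]

theorem small : Pool.Agent.W709.VC.S_SMALL := by
  intro A ε hε
  have h1 := Pool.Agent.H811R3.EvenVolR.taskR (ε / 8) (by positivity)
  have h2 : ∀ᶠ N : ℕ in atTop, 3 * Real.log N + Real.log 2 ≤ ε / 2 * N := by
    have h3 := (Real.isLittleO_log_id_atTop.bound (show 0 < ε / 12 by positivity))
    have h4 := tendsto_natCast_atTop_atTop (R := ℝ) |>.eventually h3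
    have h5 : ∀ᶠ N : ℕ in atTop, Real.log 2 ≤ ε / 4 * N := by
      have h6 : Tendsto (fun N : ℕ => ε / 4 * (N : ℝ)) atTop atTop :=
        Tendsto.const_mul_atTop (by positivity) tendsto_natCast_atTop_atTop
      exact h6.eventually_ge_atTop _
    filter_upwards [h4, h5, eventually_ge_atTop 1] with N hN hN2 hN1
    have hN1' : (1 : ℝ) ≤ N := by exact_mod_cast hN1
    rw [Real.norm_of_nonneg (Real.log_nonneg hN1'), id, Real.norm_of_nonneg (by positivity)] at hN
    linarith
  filter_upwards [h1, h2, eventually_ge_atTop 2] with N hR hlog hN n hn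
  have hNR : (0 : ℝ) < N := by positivity
  have hterm : ∀ k ∈ range (n + 1),
      ‖(-1 : ℂ) ^ (n - k) * (brf (v0 N) n / (brf (v0 N) (n - k) * brf (v0 N) (n + k + 1))) *
        (((-1) ^ k * v0 N ^ (k * (k + 1))) ^ (A : ℤ) * br (v0 N) ((2 * k + 1 : ℕ) : ℤ))‖ ≤
      2 * Real.exp (GapVol.L N n - GapVol.L N (n - k) - GapVol.L N (n + k + 1)) := by
    intro k hk
    rw [Finset.mem_range] at hk
    have e1 : ‖(-1 : ℂ) ^ (n - k)‖ = 1 := by rw [norm_pow, norm_neg, norm_one, one_pow]
    have e2 : ‖((-1 : ℂ) ^ k * v0 N ^ (k * (k + 1))) ^ (A : ℤ)‖ = 1 := by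
      have h3 := norm_v0_zpow N ((k * (k + 1) : ℕ) : ℤ)
      rw [zpow_natCast] at h3
      rw [norm_zpow, norm_mul, norm_pow, norm_neg, norm_one, one_pow, h3, one_mul, one_zpow]
    have e3 : ‖br (v0 N) ((2 * k + 1 : ℕ) : ℤ)‖ ≤ 2 := by
      rw [norm_br_v0, abs_mul, abs_of_pos (by norm_num : (0 : ℝ) < 2)]
      have := Real.abs_sin_le_one (π * (((2 * k + 1 : ℕ) : ℤ) : ℝ) / N)
      linarith
    rw [norm_mul, norm_mul, norm_mul, e1, e2, one_mul, one_mul, norm_div, norm_mul,
      norm_brf (by omega), norm_brf (by omega), norm_brf (by omega), ← Real.exp_add,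
      ← Real.exp_sub, mul_comm]
    have e4 : GapVol.L N n - (GapVol.L N (n - k) + GapVol.L N (n + k + 1)) =
      GapVol.L N n - GapVol.L N (n - k) - GapVol.L N (n + k + 1) := by ring
    rw [e4]
    exact mul_le_mul_of_nonneg_right e3 (Real.exp_pos _).le
  have hg : ‖gamH (A : ℤ) (v0 N) n‖ ≤ ∑ k ∈ range (n + 1),
      2 * Real.exp (GapVol.L N n - GapVol.L N (n - k) - GapVol.L N (n + k + 1)) := by
    unfold gamH
    exact (norm_sum_le _ _).trans (Finset.sum_le_sum hterm)
  rw [norm_brf (by omega)]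
  calc Real.exp (GapVol.L N n) * ‖gamH (A : ℤ) (v0 N) n‖
      ≤ Real.exp (GapVol.L N n) * ∑ k ∈ range (n + 1),
          2 * Real.exp (GapVol.L N n - GapVol.L N (n - k) - GapVol.L N (n + k + 1)) :=
        mul_le_mul_of_nonneg_left hg (Real.exp_pos _).le
    _ = ∑ k ∈ range (n + 1),
          2 * Real.exp (2 * GapVol.L N n - GapVol.L N (n - k) - GapVol.L N (n + k + 1)) := by
        rw [Finset.mul_sum]
        refine Finset.sum_congr rfl fun k _ => ?_
        rw [mul_left_comm, ← Real.exp_add]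
        congr 2
        ring
    _ ≤ ∑ k ∈ range (n + 1), 2 * Real.exp (4 * (ε / 8) * N + Real.log N) := by
        refine Finset.sum_le_sum fun k hk => ?_
        rw [Finset.mem_range] at hk
        have h3 := key (τ := ε / 8) hN hn (by omega : k ≤ n) hR
        have h4 := Real.exp_le_exp.mpr h3
        linarith
    _ = ((n : ℝ) + 1) * (2 * Real.exp (4 * (ε / 8) * N + Real.log N)) := by
        rw [Finset.sum_const, Finset.card_range, nsmul_eq_mul]
        push_cast
        ring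
    _ ≤ N * (2 * Real.exp (4 * (ε / 8) * N + Real.log N)) := by
        refine mul_le_mul_of_nonneg_right ?_ (by positivity)
        exact_mod_cast (by omega : n + 1 ≤ N)
    _ = Real.exp (ε / 2 * N + (2 * Real.log N + Real.log 2)) := by
        have e5 : Real.exp (2 * Real.log N) = (N : ℝ) * N := by
          rw [two_mul, Real.exp_add, Real.exp_log hNR]
        have e6 : 4 * (ε / 8) * (N : ℝ) = ε / 2 * N := by ring
        rw [Real.exp_add, Real.exp_add, Real.exp_log hNR, Real.exp_add, Real.exp_log (by norm_num),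
          e5, e6]
        ring
    _ ≤ Real.exp (ε * N) := by
        refine Real.exp_le_exp.mpr ?_
        have h5 : 0 ≤ Real.log (N : ℝ) := Real.log_nonneg (by exact_mod_cast (by omega : 1 ≤ N))
        linarith

end Pool.Agent.W12.VCSmall
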